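import Pool.Agent.RM.Rf

/-!
# Arithmetical predicates of a set
-/

set_option linter.unusedSectionVars false
set_option linter.unusedVariables false

namespace Pool.Agent.RM

universe u

def Ar.rename {M : Type u} {S : Set (Set M)} : Ar M S → (ℕ → ℕ) → Ar M S
  | .eq s t, r => .eq (s.rename r) (t.rename r)
  | .lt s t, r => .lt (s.rename r) (t.rename r)
  | .mem t Z, r => .mem (t.rename r) Z
  | .memv t, r => .memv (t.rename r)
  | .neg φ, r => .neg (φ.rename r)
  | .and φ ψ, r => .and (φ.rename r) (ψ.rename r)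
  | .all φ, r => .all (φ.rename (liftR r))

section

variable {M : Type u} [CommSemiring M] [LinearOrder M] {S : Set (Set M)}

theorem Ar.holds_rename (φ : Ar M S) (X : Set M) (r : ℕ → ℕ) (v : ℕ → M) :
    (φ.rename r).Holds X v ↔ φ.Holds X (fun i => v (r i)) := by
  induction φ generalizing r v with
  | eq s t => simp [Ar.rename, Ar.Holds, Tm.eval_rename]
  | lt s t => simp [Ar.rename, Ar.Holds, Tm.eval_rename]
  | mem t X => simp [Ar.rename, Ar.Holds, Tm.eval_rename]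
  | memv t => simp [Ar.rename, Ar.Holds, Tm.eval_rename]
  | neg φ ih => simp [Ar.rename, Ar.Holds, ih]
  | and φ ψ ih ih' => simp [Ar.rename, Ar.Holds, ih, ih']
  | all φ ih => simp [Ar.rename, Ar.Holds, ih, cons_liftR]

variable {Γ Δ : Type u} [Ctx M Γ] [Ctx M Δ]

theorem T0.v4 : T0 (fun p : ((((Γ × M) × M) × M) × M) × M => p.1.1.1.1.2) :=
  T0.ofVar IsVar.last.prev.prev.prev.prev
theorem T0.v5 : T0 (fun p : (((((Γ × M) × M) × M) × M) × M) × M => p.1.1.1.1.1.2) :=
  T0.ofVar IsVar.last.prev.prev.prev.prev.prev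
theorem T0.v6 : T0 (fun p : ((((((Γ × M) × M) × M) × M) × M) × M) × M => p.1.1.1.1.1.1.2) :=
  T0.ofVar IsVar.last.prev.prev.prev.prev.prev.prev

/-- arithmetical predicates of a context and a set -/
def AD (S : Set (Set M)) (P : Γ → Set M → Prop) : Prop :=
  ∃ φ : Ar M S, ∀ (e : Γ) (v : ℕ → M) (X : Set M), φ.Holds X (Ctx.enc e v) ↔ P e X

theorem AD.congr {P Q : Γ → Set M → Prop} (h : AD S P) (hPQ : ∀ e X, P e X ↔ Q e X) :
    AD S Q := by
  obtain ⟨φ, hφ⟩ := h
  exact ⟨φ, fun e v X => (hφ e v X).trans (hPQ e X)⟩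

theorem AD.not {P : Γ → Set M → Prop} (h : AD S P) : AD S (fun e X => ¬ P e X) := by
  obtain ⟨φ, hφ⟩ := h
  exact ⟨φ.neg, fun e v X => by simp [Ar.Holds, hφ]⟩

theorem AD.and {P Q : Γ → Set M → Prop} (h : AD S P) (h' : AD S Q) :
    AD S (fun e X => P e X ∧ Q e X) := by
  obtain ⟨φ, hφ⟩ := h
  obtain ⟨ψ, hψ⟩ := h'
  exact ⟨φ.and ψ, fun e v X => by simp [Ar.Holds, hφ, hψ]⟩

theorem AD.or {P Q : Γ → Set M → Prop} (h : AD S P) (h' : AD S Q) :
    AD S (fun e X => P e X ∨ Q e X) :=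
  (AD.not (AD.and h.not h'.not)).congr (fun e X => by tauto)

theorem AD.imp {P Q : Γ → Set M → Prop} (h : AD S P) (h' : AD S Q) :
    AD S (fun e X => P e X → Q e X) :=
  (AD.not (AD.and h h'.not)).congr (fun e X => by tauto)

theorem AD.iff {P Q : Γ → Set M → Prop} (h : AD S P) (h' : AD S Q) :
    AD S (fun e X => P e X ↔ Q e X) :=
  (AD.and (h.imp h') (h'.imp h)).congr (fun e X => by tauto)

theorem AD.all {P : Γ → M → Set M → Prop} (h : AD S (fun (p : Γ × M) X => P p.1 p.2 X)) :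
    AD S (fun e X => ∀ x, P e x X) := by
  obtain ⟨φ, hφ⟩ := h
  exact ⟨φ.all, fun e v X => forall_congr' fun x => hφ (e, x) v X⟩

theorem AD.ex {P : Γ → M → Set M → Prop} (h : AD S (fun (p : Γ × M) X => P p.1 p.2 X)) :
    AD S (fun e X => ∃ x, P e x X) :=
  (AD.not (AD.all (P := fun e x X => ¬ P e x X) h.not)).congr (fun e X => by push Not; rfl)

theorem AD.comap {P : Γ → Set M → Prop} (h : AD S P) {g : Δ → Γ} (hg : CMap M g) :
    AD S (fun d X => P (g d) X) := by
  obtain ⟨φ, hφ⟩ := h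
  obtain ⟨r, hr⟩ := hg
  refine ⟨φ.rename r, fun e v X => ?_⟩
  obtain ⟨v', hv'⟩ := hr e v
  have : (fun i => Ctx.enc e v (r i)) = Ctx.enc (g e) v' := by
    funext i
    exact hv' i
  rw [Ar.holds_rename, this, hφ]

theorem AD.weak {P : Γ → Set M → Prop} (h : AD S P) :
    AD S (fun (p : Γ × M) X => P p.1 X) := h.comap CMap.fst

theorem AD.eq {f g : Γ → M} (hf : T0 f) (hg : T0 g) : AD S (fun e X => f e = g e) := by
  obtain ⟨s, hs⟩ := hf
  obtain ⟨t, ht⟩ := hg
  exact ⟨.eq s t, fun e v X => by simp [Ar.Holds, hs, ht]⟩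

theorem AD.lt {f g : Γ → M} (hf : T0 f) (hg : T0 g) : AD S (fun e X => f e < g e) := by
  obtain ⟨s, hs⟩ := hf
  obtain ⟨t, ht⟩ := hg
  exact ⟨.lt s t, fun e v X => by simp [Ar.Holds, hs, ht]⟩

theorem AD.le {f g : Γ → M} (hf : T0 f) (hg : T0 g) : AD S (fun e X => f e ≤ g e) :=
  (AD.lt hg hf).not.congr (fun e X => by simp)

theorem AD.memv {f : Γ → M} (hf : T0 f) : AD S (fun e X => f e ∈ X) := by
  obtain ⟨s, hs⟩ := hf
  exact ⟨.memv s, fun e v X => by simp [Ar.Holds, hs]⟩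

theorem AD.subst {P : Γ → M → Set M → Prop} (h : AD S (fun (p : Γ × M) X => P p.1 p.2 X))
    {f : Γ → M} (hf : T0 f) : AD S (fun e X => P e (f e) X) :=
  (AD.ex (P := fun e x X => x = f e ∧ P e x X) (AD.and (AD.eq T0.v0 hf.weak) h)).congr
    (fun e X => by simp)

/-- the components of the assignments of the context are definable -/
def EncF (M : Type u) [CommSemiring M] [LinearOrder M] (Γ : Type u) [Ctx M Γ] : Prop :=
  ∀ (v : ℕ → M) (i : ℕ), FOF (fun e : Γ => Ctx.enc e v i)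

theorem EncF.unit : EncF M PUnit.{u + 1} := fun v i => FOF.const (v i)

theorem EncF.prod (h : EncF M Γ) : EncF M (Γ × M) := by
  intro v i
  cases i with
  | zero => exact FOF.v0
  | succ i => exact (h v i).weak

end

section

variable {M : Type u} [CommSemiring M] [LinearOrder M] [IsStrictOrderedRing M]
  [CanonicallyOrderedAdd M]
variable {Γ : Type u} [Ctx M Γ]

theorem FO.ofAD (hΓ : EncF M Γ) {P : Γ → Set M → Prop} (hP : AD (defS M) P) {X : Γ → Set M}
    (hX : FO M (fun p : Γ × M => p.2 ∈ X p.1)) : FO M (fun e => P e (X e)) := by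
  obtain ⟨φ, hφ⟩ := hP
  exact (FO.ar φ (v := fun e => Ctx.enc e (fun _ => (0 : M))) (X := X) (hΓ _) hX).congr
    (fun e => hφ e _ _)

theorem FO.finOr {P : ℕ → Γ → Prop} (h : ∀ k, FO M (P k)) (n : ℕ) :
    FO M (fun e => ∃ k, k < n ∧ P k e) := by
  induction n with
  | zero => exact (FO.eq (FOF.const (0 : M)) (FOF.const 1)).congr (fun e => by simp)
  | succ n ih =>
    refine (ih.or (h n)).congr (fun e => ?_)
    constructor
    · rintro (⟨k, hk, hP⟩ | hP)
      · exact ⟨k, by omega, hP⟩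
      · exact ⟨n, by omega, hP⟩
    · rintro ⟨k, hk, hP⟩
      rcases Nat.lt_succ_iff_lt_or_eq.1 hk with h1 | rfl
      · exact Or.inl ⟨k, h1, hP⟩
      · exact Or.inr hP

variable (M) in
/-- the properties of the numbers used for the construction -/
structure Good : Prop where
  disc : ∀ x : M, 0 < x → 1 ≤ x
  hmin : ∀ X ∈ defS M, X.Nonempty → ∃ x ∈ X, ∀ y ∈ X, x ≤ y
  hsat : ∀ D : ℕ → Set M, (∀ n, D n ∈ defS M) → (∀ x, ∃ n, x ∈ D n) →
    ∃ N, ∀ x, ∃ n, n ≤ N ∧ x ∈ D n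
  hns : ∃ a : M, ∀ n : ℕ, (n : M) < a

theorem Good.ind (hM : Good M) {P : M → Prop} (h : FO M (fun p : PUnit.{u + 1} × M => P p.2))
    (h0 : P 0) (hs : ∀ x, P x → P (x + 1)) : ∀ x, P x := by
  by_contra hc
  push Not at hc
  obtain ⟨a, ha⟩ := hc
  obtain ⟨x, hx, hmin⟩ := hM.hmin {x | ¬ P x} (FO.not h) ⟨a, ha⟩
  have hx' : ¬ P x := hx
  rcases eq_or_ne x 0 with rfl | hne
  · exact hx' h0
  · have h1 := hM.disc x (lt_of_le_of_ne zero_le hne.symm)
    obtain ⟨y, hy⟩ := exists_add_of_le h1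
    have h2 : P y := by
      by_contra h3
      have h4 := hmin y h3
      rw [hy] at h4
      exact absurd h4 (not_le.2 (by rw [add_comm]; exact lt_add_one_self y))
    exact hx' (by rw [hy, add_comm]; exact hs y h2)

theorem Good.rca0 (hM : Good M) : RCA0 M (defS M) where
  discrete := hM.disc
  induction := by
    intro φ v h0 hs
    refine hM.ind (P := fun x => ∃ y, φ.Holds (cons y (cons x v))) ?_ h0 hs
    exact FO.ex (FO.bd φ (Γ := (PUnit.{u + 1} × M) × M) (v := fun p => cons p.2 (cons p.1.2 v))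
      (FOF.consAll (Γ := PUnit.{u + 1} × M) (FOF.consAll (fun i => FOF.const (v i)))))
  comprehension := by
    intro φ ψ v _
    exact FO.ex (FO.bd φ (Γ := (PUnit.{u + 1} × M) × M) (v := fun p => cons p.2 (cons p.1.2 v))
      (FOF.consAll (Γ := PUnit.{u + 1} × M) (FOF.consAll (fun i => FOF.const (v i)))))

end

end Pool.Agent.RM
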