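import Mathlib

/-!
# The ordered ring of differences of an ordered commutative semiring
-/

namespace Pool.Agent.RM

universe u

variable {M : Type u} [CommSemiring M] [LinearOrder M] [IsStrictOrderedRing M]

/-- the equivalence of formal differences -/
def zSetoid (M : Type u) [CommSemiring M] [LinearOrder M] [IsStrictOrderedRing M] :
    Setoid (M × M) where
  r a b := a.1 + b.2 = b.1 + a.2
  iseqv := by
    refine ⟨fun a => rfl, fun {a b} h => h.symm, fun {a b c} h h' => ?_⟩
    have : (a.1 + c.2) + (b.1 + b.2) = (c.1 + a.2) + (b.1 + b.2) := by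
      calc (a.1 + c.2) + (b.1 + b.2) = (a.1 + b.2) + (b.1 + c.2) := by ring
        _ = (b.1 + a.2) + (c.1 + b.2) := by rw [h, h']
        _ = _ := by ring
    exact add_right_cancel this

/-- the ring of differences -/
def ZM (M : Type u) [CommSemiring M] [LinearOrder M] [IsStrictOrderedRing M] : Type u :=
  Quotient (zSetoid M)

namespace ZM

/-- the difference `a - b` -/
def mk (a b : M) : ZM M := Quotient.mk (zSetoid M) (a, b)

theorem ind {p : ZM M → Prop} (h : ∀ a b, p (mk a b)) (x : ZM M) : p x :=
  Quotient.ind (fun ab => h ab.1 ab.2) x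

theorem eq_iff {a b c d : M} : mk a b = mk c d ↔ a + d = c + b := by
  constructor
  · intro h
    exact Quotient.exact h
  · intro h
    exact Quotient.sound h

instance : Zero (ZM M) := ⟨mk 0 0⟩
instance : One (ZM M) := ⟨mk 1 0⟩

instance : Add (ZM M) := ⟨Quotient.lift₂ (fun a b => mk (a.1 + b.1) (a.2 + b.2)) (by
  rintro ⟨a, a'⟩ ⟨b, b'⟩ ⟨c, c'⟩ ⟨d, d'⟩ (h : a + c' = c + a') (h' : b + d' = d + b')
  apply eq_iff.2
  calc (a + b) + (c' + d') = (a + c') + (b + d') := by ring
    _ = (c + a') + (d + b') := by rw [h, h']
    _ = _ := by ring)⟩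

instance : Neg (ZM M) := ⟨Quotient.lift (fun a => mk a.2 a.1) (by
  rintro ⟨a, a'⟩ ⟨c, c'⟩ (h : a + c' = c + a')
  apply eq_iff.2
  rw [add_comm a' c, add_comm c' a, h])⟩

instance : Mul (ZM M) := ⟨Quotient.lift₂ (fun a b => mk (a.1 * b.1 + a.2 * b.2)
    (a.1 * b.2 + a.2 * b.1)) (by
  rintro ⟨a, a'⟩ ⟨b, b'⟩ ⟨c, c'⟩ ⟨d, d'⟩ (h : a + c' = c + a') (h' : b + d' = d + b')
  apply eq_iff.2
  have : (a * b + a' * b' + (c * d' + c' * d)) + (c' * b + c * b') =
      (c * d + c' * d' + (a * b' + a' * b)) + (c' * b + c * b') := by
    calc (a * b + a' * b' + (c * d' + c' * d)) + (c' * b + c * b')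
        = (a + c') * b + (c + a') * b' + c * d' + c' * d := by ring
      _ = (c + a') * b + (a + c') * b' + c * d' + c' * d := by rw [h]
      _ = a * b' + a' * b + c * (b + d') + c' * (d + b') := by ring
      _ = a * b' + a' * b + c * (d + b') + c' * (b + d') := by rw [h']
      _ = _ := by ring
  exact add_right_cancel this)⟩

theorem zero_def : (0 : ZM M) = mk 0 0 := rfl
theorem one_def : (1 : ZM M) = mk 1 0 := rfl
theorem mk_add (a b c d : M) : mk a b + mk c d = mk (a + c) (b + d) := rfl
theorem mk_mul (a b c d : M) : mk a b * mk c d = mk (a * c + b * d) (a * d + b * c) := rfl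
theorem mk_neg (a b : M) : -mk a b = mk b a := rfl

instance instCommRing : CommRing (ZM M) where
  add_assoc x y z := by
    induction x using ind; induction y using ind; induction z using ind
    simp only [mk_add, eq_iff]; ring
  zero_add x := by
    induction x using ind
    simp only [zero_def, mk_add, eq_iff]; ring
  add_zero x := by
    induction x using ind
    simp only [zero_def, mk_add, eq_iff]; ring
  nsmul := nsmulRec
  zsmul := zsmulRec
  add_comm x y := by
    induction x using ind; induction y using ind
    simp only [mk_add, eq_iff]; ring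
  left_distrib x y z := by
    induction x using ind; induction y using ind; induction z using ind
    simp only [mk_add, mk_mul, eq_iff]; ring
  right_distrib x y z := by
    induction x using ind; induction y using ind; induction z using ind
    simp only [mk_add, mk_mul, eq_iff]; ring
  zero_mul x := by
    induction x using ind
    simp only [zero_def, mk_mul, eq_iff]; ring
  mul_zero x := by
    induction x using ind
    simp only [zero_def, mk_mul, eq_iff]; ring
  mul_assoc x y z := by
    induction x using ind; induction y using ind; induction z using ind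
    simp only [mk_mul, eq_iff]; ring
  one_mul x := by
    induction x using ind
    simp only [one_def, mk_mul, eq_iff]; ring
  mul_one x := by
    induction x using ind
    simp only [one_def, mk_mul, eq_iff]; ring
  neg_add_cancel x := by
    induction x using ind
    simp only [mk_neg, mk_add, zero_def, eq_iff]; ring
  mul_comm x y := by
    induction x using ind; induction y using ind
    simp only [mk_mul, eq_iff]; ring

instance : LE (ZM M) := ⟨Quotient.lift₂ (fun a b => a.1 + b.2 ≤ b.1 + a.2) (by
  rintro ⟨a, a'⟩ ⟨b, b'⟩ ⟨c, c'⟩ ⟨d, d'⟩ (h : a + c' = c + a') (h' : b + d' = d + b')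
  apply propext
  show a + b' ≤ b + a' ↔ c + d' ≤ d + c'
  have e1 : a + b' + (c' + d') = c + d' + (a' + b') := by
    calc a + b' + (c' + d') = (a + c') + (b' + d') := by ring
      _ = (c + a') + (b' + d') := by rw [h]
      _ = _ := by ring
  have e2 : b + a' + (c' + d') = d + c' + (a' + b') := by
    calc b + a' + (c' + d') = (b + d') + (a' + c') := by ring
      _ = (d + b') + (a' + c') := by rw [h']
      _ = _ := by ring
  rw [← add_le_add_iff_right (c' + d'), e1, e2, add_le_add_iff_right])⟩

theorem mk_le {a b c d : M} : mk a b ≤ mk c d ↔ a + d ≤ c + b := Iff.rfl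

noncomputable instance instLinearOrder : LinearOrder (ZM M) where
  le_refl x := by
    induction x using ind
    rw [mk_le]
  le_trans x y z h h' := by
    induction x using ind with | _ a a' => ?_
    induction y using ind with | _ b b' => ?_
    induction z using ind with | _ c c' => ?_
    rw [mk_le] at *
    have : a + c' + (b + b') ≤ c + a' + (b + b') := by
      calc a + c' + (b + b') = (a + b') + (b + c') := by ring
        _ ≤ (b + a') + (c + b') := add_le_add h h'
        _ = _ := by ring
    exact le_of_add_le_add_right this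
  le_antisymm x y h h' := by
    induction x using ind
    induction y using ind
    rw [mk_le] at *
    rw [eq_iff]
    exact le_antisymm h h'
  le_total x y := by
    induction x using ind
    induction y using ind
    rw [mk_le, mk_le]
    exact le_total _ _
  toDecidableLE := Classical.decRel _
  toDecidableEq := Classical.decEq _

theorem mk_lt {a b c d : M} : mk a b < mk c d ↔ a + d < c + b := by
  rw [← not_le, ← not_le, mk_le]

instance [ExistsAddOfLE M] : IsStrictOrderedRing (ZM M) := by
  have h1 : ∀ x y : ZM M, x ≤ y → ∀ z : ZM M, z + x ≤ z + y := by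
    intro x y h z
    induction x using ind with | _ a a' => ?_
    induction y using ind with | _ b b' => ?_
    induction z using ind with | _ c c' => ?_
    rw [mk_add, mk_add]
    rw [mk_le] at *
    calc c + a + (c' + b') = (a + b') + (c + c') := by ring
      _ ≤ (b + a') + (c + c') := by gcongr
      _ = _ := by ring
  have : Nontrivial (ZM M) := by
    refine ⟨⟨0, 1, ?_⟩⟩
    rw [zero_def, one_def, Ne, eq_iff]
    simp
  have : IsOrderedAddMonoid (ZM M) := 
    { add_le_add_left := fun x y h z => by
        have := h1 x y h z
        rw [add_comm z x, add_comm z y] at this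
        exact this
      add_le_add_right := fun x y h z => h1 x y h z }
  have : ZeroLEOneClass (ZM M) := ⟨by
    rw [zero_def, one_def, mk_le]; simp⟩
  refine IsStrictOrderedRing.of_mul_pos (fun x y hx hy => ?_)
  induction x using ind with | _ a a' => ?_
  induction y using ind with | _ b b' => ?_
  rw [zero_def, mk_lt] at hx hy
  rw [mk_mul, zero_def, mk_lt]
  have hx' : a' < a := by simpa using hx
  have hy' : b' < b := by simpa using hy
  have := mul_add_mul_lt_mul_add_mul hx' hy'
  rw [zero_add, add_zero]
  calc a * b' + a' * b = a' * b + a * b' := by ring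
    _ < a' * b' + a * b := this
    _ = _ := by ring

end ZM

/-- the embedding -/
@[coe] def toZ (a : M) : ZM M := ZM.mk a 0

instance : Coe M (ZM M) := ⟨toZ⟩

@[simp, norm_cast] theorem toZ_zero : toZ (0 : M) = 0 := rfl
@[simp, norm_cast] theorem toZ_one : toZ (1 : M) = 1 := rfl
@[simp, norm_cast] theorem toZ_add (a b : M) : toZ (a + b) = toZ a + toZ b := by
  simp [toZ, ZM.mk_add]
@[simp, norm_cast] theorem toZ_mul (a b : M) : toZ (a * b) = toZ a * toZ b := by
  simp [toZ, ZM.mk_mul]
@[simp, norm_cast] theorem toZ_inj {a b : M} : toZ a = toZ b ↔ a = b := by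
  simp [toZ, ZM.eq_iff]
@[simp, norm_cast] theorem toZ_le {a b : M} : toZ a ≤ toZ b ↔ a ≤ b := by
  simp [toZ, ZM.mk_le]
@[simp, norm_cast] theorem toZ_lt {a b : M} : toZ a < toZ b ↔ a < b := by
  simp [toZ, ZM.mk_lt]
theorem toZ_nonneg [CanonicallyOrderedAdd M] (a : M) : 0 ≤ toZ a := by
  rw [← toZ_zero, toZ_le]
  exact zero_le

end Pool.Agent.RM
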