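import Pool.Agent.RM.Defs
import Pool.Agent.RM.ZRing

/-!
# A calculus of `Δ⁰₀`, `Σ⁰₁`, `Δ⁰₁` predicates in a model of `RCA₀`
-/

set_option linter.unusedSectionVars false
set_option linter.unusedVariables false

namespace Pool.Agent.RM

universe u

/-- Contexts: types whose elements encode finite tuples of elements of `M`. -/
class Ctx (M : Type u) (Γ : Type u) where
  enc : Γ → (ℕ → M) → ℕ → M

instance instCtxUnit (M : Type u) : Ctx M PUnit.{u + 1} := ⟨fun _ v => v⟩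

instance instCtxProd (M : Type u) (Γ : Type u) [Ctx M Γ] : Ctx M (Γ × M) :=
  ⟨fun p v => cons p.2 (Ctx.enc p.1 v)⟩

/-! ### renaming of variables -/

def Tm.rename {M : Type u} (r : ℕ → ℕ) : Tm M → Tm M
  | .var n => .var (r n)
  | .const a => .const a
  | .add s t => .add (s.rename r) (t.rename r)
  | .mul s t => .mul (s.rename r) (t.rename r)

def liftR (r : ℕ → ℕ) : ℕ → ℕ
  | 0 => 0
  | n + 1 => r n + 1

def Bd.rename {M : Type u} {S : Set (Set M)} : Bd M S → (ℕ → ℕ) → Bd M S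
  | .eq s t, r => .eq (s.rename r) (t.rename r)
  | .lt s t, r => .lt (s.rename r) (t.rename r)
  | .mem t X, r => .mem (t.rename r) X
  | .neg φ, r => .neg (φ.rename r)
  | .and φ ψ, r => .and (φ.rename r) (ψ.rename r)
  | .ball t φ, r => .ball (t.rename r) (φ.rename (liftR r))

section

variable {M : Type u} [CommSemiring M] [LinearOrder M]

theorem Tm.eval_rename (r : ℕ → ℕ) (v : ℕ → M) (t : Tm M) :
    (t.rename r).eval v = t.eval (fun i => v (r i)) := by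
  induction t with
  | var n => rfl
  | const a => rfl
  | add s t hs ht => simp [Tm.rename, Tm.eval, hs, ht]
  | mul s t hs ht => simp [Tm.rename, Tm.eval, hs, ht]

theorem cons_liftR (x : M) (v : ℕ → M) (r : ℕ → ℕ) :
    (fun i => cons x v (liftR r i)) = cons x (fun i => v (r i)) := by
  funext i
  cases i <;> rfl

theorem Bd.holds_rename {S : Set (Set M)} (φ : Bd M S) (r : ℕ → ℕ) (v : ℕ → M) :
    (φ.rename r).Holds v ↔ φ.Holds (fun i => v (r i)) := by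
  induction φ generalizing r v with
  | eq s t => simp [Bd.rename, Bd.Holds, Tm.eval_rename]
  | lt s t => simp [Bd.rename, Bd.Holds, Tm.eval_rename]
  | mem t X => simp [Bd.rename, Bd.Holds, Tm.eval_rename]
  | neg φ ih => simp [Bd.rename, Bd.Holds, ih]
  | and φ ψ ih ih' => simp [Bd.rename, Bd.Holds, ih, ih']
  | ball t φ ih => simp [Bd.rename, Bd.Holds, ih, Tm.eval_rename, cons_liftR]

end

/-! ### variables and maps of contexts -/

section

variable {M : Type u} {Γ Δ : Type u} [Ctx M Γ] [Ctx M Δ]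

def IsVar (f : Γ → M) : Prop := ∃ i : ℕ, ∀ (d : Γ) (v : ℕ → M), Ctx.enc d v i = f d

theorem IsVar.last : IsVar (fun p : Γ × M => p.2) := ⟨0, fun _ _ => rfl⟩

theorem IsVar.prev {f : Γ → M} (h : IsVar f) : IsVar (fun p : Γ × M => f p.1) := by
  obtain ⟨i, hi⟩ := h
  exact ⟨i + 1, fun p v => hi p.1 v⟩

variable (M) in
def CMap (g : Δ → Γ) : Prop :=
  ∃ r : ℕ → ℕ, ∀ (d : Δ) (v : ℕ → M), ∃ v' : ℕ → M, ∀ i, Ctx.enc d v (r i) = Ctx.enc (g d) v' i

theorem CMap.unit : CMap M (fun _ : Δ => PUnit.unit.{u + 1}) :=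
  ⟨id, fun d v => ⟨Ctx.enc d v, fun _ => rfl⟩⟩

theorem CMap.pair {g : Δ → Γ} {x : Δ → M} (hg : CMap M g) (hx : IsVar x) :
    CMap M (fun d => (g d, x d)) := by
  obtain ⟨r, hr⟩ := hg
  obtain ⟨j, hj⟩ := hx
  refine ⟨fun n => Nat.casesOn n j r, fun d v => ?_⟩
  obtain ⟨v', hv'⟩ := hr d v
  refine ⟨v', fun i => ?_⟩
  cases i with
  | zero => exact hj d v
  | succ i => exact hv' i

theorem CMap.id : CMap M (fun d : Γ => d) := ⟨fun i => i, fun d v => ⟨v, fun _ => rfl⟩⟩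

theorem CMap.prev {g : Δ → Γ} (hg : CMap M g) : CMap M (fun p : Δ × M => g p.1) := by
  obtain ⟨r, hr⟩ := hg
  refine ⟨fun i => r i + 1, fun d v => ?_⟩
  obtain ⟨v', hv'⟩ := hr d.1 v
  exact ⟨v', fun i => hv' i⟩

theorem CMap.fst : CMap M (fun p : Γ × M => p.1) := CMap.id.prev

end

/-! ### `Δ⁰₀` predicates and terms -/

section

variable {M : Type u} [CommSemiring M] [LinearOrder M] {S : Set (Set M)}
variable {Γ Δ : Type u} [Ctx M Γ] [Ctx M Δ]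

def D0 (S : Set (Set M)) (P : Γ → Prop) : Prop :=
  ∃ φ : Bd M S, ∀ (e : Γ) (v : ℕ → M), φ.Holds (Ctx.enc e v) ↔ P e

def T0 (f : Γ → M) : Prop :=
  ∃ t : Tm M, ∀ (e : Γ) (v : ℕ → M), t.eval (Ctx.enc e v) = f e

theorem T0.ofVar {f : Γ → M} (h : IsVar f) : T0 f := by
  obtain ⟨i, hi⟩ := h
  exact ⟨.var i, fun e v => hi e v⟩

theorem T0.const (a : M) : T0 (fun _ : Γ => a) := ⟨.const a, fun _ _ => rfl⟩

theorem T0.add {f g : Γ → M} (hf : T0 f) (hg : T0 g) : T0 (fun e => f e + g e) := by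
  obtain ⟨s, hs⟩ := hf
  obtain ⟨t, ht⟩ := hg
  exact ⟨.add s t, fun e v => by simp [Tm.eval, hs, ht]⟩

theorem T0.mul {f g : Γ → M} (hf : T0 f) (hg : T0 g) : T0 (fun e => f e * g e) := by
  obtain ⟨s, hs⟩ := hf
  obtain ⟨t, ht⟩ := hg
  exact ⟨.mul s t, fun e v => by simp [Tm.eval, hs, ht]⟩

theorem T0.comap {f : Γ → M} (h : T0 f) {g : Δ → Γ} (hg : CMap M g) : T0 (fun d => f (g d)) := by
  obtain ⟨t, ht⟩ := h
  obtain ⟨r, hr⟩ := hg
  refine ⟨t.rename r, fun e v => ?_⟩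
  obtain ⟨v', hv'⟩ := hr e v
  have : (fun i => Ctx.enc e v (r i)) = Ctx.enc (g e) v' := by
    funext i
    exact hv' i
  rw [Tm.eval_rename, this, ht]

theorem D0.comap {P : Γ → Prop} (h : D0 S P) {g : Δ → Γ} (hg : CMap M g) :
    D0 S (fun d => P (g d)) := by
  obtain ⟨φ, hφ⟩ := h
  obtain ⟨r, hr⟩ := hg
  refine ⟨φ.rename r, fun e v => ?_⟩
  obtain ⟨v', hv'⟩ := hr e v
  have : (fun i => Ctx.enc e v (r i)) = Ctx.enc (g e) v' := by
    funext i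
    exact hv' i
  rw [Bd.holds_rename, this, hφ]

theorem D0.congr {P Q : Γ → Prop} (h : D0 S P) (hPQ : ∀ e, P e ↔ Q e) : D0 S Q := by
  obtain ⟨φ, hφ⟩ := h
  exact ⟨φ, fun e v => (hφ e v).trans (hPQ e)⟩

theorem D0.not {P : Γ → Prop} (h : D0 S P) : D0 S (fun e => ¬ P e) := by
  obtain ⟨φ, hφ⟩ := h
  exact ⟨φ.neg, fun e v => by simp [Bd.Holds, hφ]⟩

theorem D0.and {P Q : Γ → Prop} (h : D0 S P) (h' : D0 S Q) : D0 S (fun e => P e ∧ Q e) := by
  obtain ⟨φ, hφ⟩ := h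
  obtain ⟨ψ, hψ⟩ := h'
  exact ⟨φ.and ψ, fun e v => by simp [Bd.Holds, hφ, hψ]⟩

theorem D0.or {P Q : Γ → Prop} (h : D0 S P) (h' : D0 S Q) : D0 S (fun e => P e ∨ Q e) :=
  (D0.not (D0.and h.not h'.not)).congr (fun e => by tauto)

theorem D0.imp {P Q : Γ → Prop} (h : D0 S P) (h' : D0 S Q) : D0 S (fun e => P e → Q e) :=
  (D0.or h.not h').congr (fun e => by tauto)

theorem D0.iff {P Q : Γ → Prop} (h : D0 S P) (h' : D0 S Q) : D0 S (fun e => P e ↔ Q e) :=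
  (D0.and (h.imp h') (h'.imp h)).congr (fun e => by tauto)

theorem D0.eq {f g : Γ → M} (hf : T0 f) (hg : T0 g) : D0 S (fun e => f e = g e) := by
  obtain ⟨s, hs⟩ := hf
  obtain ⟨t, ht⟩ := hg
  exact ⟨.eq s t, fun e v => by simp [Bd.Holds, hs, ht]⟩

theorem D0.lt {f g : Γ → M} (hf : T0 f) (hg : T0 g) : D0 S (fun e => f e < g e) := by
  obtain ⟨s, hs⟩ := hf
  obtain ⟨t, ht⟩ := hg
  exact ⟨.lt s t, fun e v => by simp [Bd.Holds, hs, ht]⟩

theorem D0.le {f g : Γ → M} (hf : T0 f) (hg : T0 g) : D0 S (fun e => f e ≤ g e) :=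
  (D0.lt hg hf).not.congr (fun e => by simp)

theorem D0.mem {f : Γ → M} (hf : T0 f) {X : Set M} (hX : X ∈ S) : D0 S (fun e => f e ∈ X) := by
  obtain ⟨s, hs⟩ := hf
  exact ⟨.mem s ⟨X, hX⟩, fun e v => by simp [Bd.Holds, hs]⟩

theorem D0.ball {P : Γ → M → Prop} {b : Γ → M} (hb : T0 b)
    (h : D0 S (fun p : Γ × M => P p.1 p.2)) : D0 S (fun e => ∀ x, x < b e → P e x) := by
  obtain ⟨φ, hφ⟩ := h
  obtain ⟨t, ht⟩ := hb
  refine ⟨.ball t φ, fun e v => ?_⟩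
  simp only [Bd.Holds, ht]
  exact forall_congr' fun x => imp_congr_right fun _ => hφ (e, x) v

theorem D0.bex {P : Γ → M → Prop} {b : Γ → M} (hb : T0 b)
    (h : D0 S (fun p : Γ × M => P p.1 p.2)) : D0 S (fun e => ∃ x, x < b e ∧ P e x) :=
  (D0.not (D0.ball (P := fun e x => ¬ P e x) hb h.not)).congr (fun e => by push Not; rfl)

theorem D0.true : D0 S (fun _ : Γ => True) :=
  (D0.eq (T0.const 0) (T0.const 0)).congr (fun _ => by simp)

/-! ### `Σ⁰₁` predicates -/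

def Sg (S : Set (Set M)) (P : Γ → Prop) : Prop :=
  ∃ Q : Γ → M → Prop, D0 S (fun p : Γ × M => Q p.1 p.2) ∧ ∀ e, P e ↔ ∃ y, Q e y

theorem Sg.congr {P Q : Γ → Prop} (h : Sg S P) (hPQ : ∀ e, P e ↔ Q e) : Sg S Q := by
  obtain ⟨R, hR, h⟩ := h
  exact ⟨R, hR, fun e => (hPQ e).symm.trans (h e)⟩

theorem Sg.of0 {P : Γ → Prop} (h : D0 S P) : Sg S P :=
  ⟨fun e _ => P e, h.comap CMap.fst, fun e => ⟨fun h => ⟨0, h⟩, fun ⟨_, h⟩ => h⟩⟩

theorem Sg.comap {P : Γ → Prop} (h : Sg S P) {g : Δ → Γ} (hg : CMap M g) :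
    Sg S (fun d => P (g d)) := by
  obtain ⟨Q, hQ, h⟩ := h
  exact ⟨fun d y => Q (g d) y, hQ.comap (hg.prev.pair IsVar.last), fun e => h (g e)⟩

end

section

variable {M : Type u} [CommSemiring M] [LinearOrder M] [IsStrictOrderedRing M]
  [CanonicallyOrderedAdd M] {S : Set (Set M)} [RCA0 M S]
variable {Γ Δ : Type u} [Ctx M Γ] [Ctx M Δ]

theorem lt_add_one_self (x : M) : x < x + 1 := by
  have : (0 : M) < 1 := zero_lt_one
  grind

theorem lt_add_one_of_le' {x y : M} (h : x ≤ y) : x < y + 1 := lt_of_le_of_lt h (lt_add_one_self y)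

theorem Sg.and {P Q : Γ → Prop} (h : Sg S P) (h' : Sg S Q) : Sg S (fun e => P e ∧ Q e) := by
  obtain ⟨A, hA, h⟩ := h
  obtain ⟨B, hB, h'⟩ := h'
  refine ⟨fun e z => (∃ y, y < z + 1 ∧ A e y) ∧ ∃ y, y < z + 1 ∧ B e y, ?_, fun e => ?_⟩
  · refine D0.and ?_ ?_
    · exact D0.bex ((T0.ofVar IsVar.last).add (T0.const 1))
        (hA.comap (CMap.fst.prev.pair IsVar.last))
    · exact D0.bex ((T0.ofVar IsVar.last).add (T0.const 1))
        (hB.comap (CMap.fst.prev.pair IsVar.last))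
  · show P e ∧ Q e ↔ _
    rw [h, h']
    constructor
    · rintro ⟨⟨y, hy⟩, ⟨z, hz⟩⟩
      exact ⟨max y z, ⟨y, lt_add_one_of_le' (le_max_left _ _), hy⟩,
        ⟨z, lt_add_one_of_le' (le_max_right _ _), hz⟩⟩
    · rintro ⟨w, ⟨y, _, hy⟩, ⟨z, _, hz⟩⟩
      exact ⟨⟨y, hy⟩, ⟨z, hz⟩⟩

theorem Sg.or {P Q : Γ → Prop} (h : Sg S P) (h' : Sg S Q) : Sg S (fun e => P e ∨ Q e) := by
  obtain ⟨A, hA, h⟩ := h
  obtain ⟨B, hB, h'⟩ := h'
  refine ⟨fun e z => A e z ∨ B e z, hA.or hB, fun e => ?_⟩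
  show P e ∨ Q e ↔ _
  rw [h, h', exists_or]

theorem Sg.ex {P : Γ → M → Prop} (h : Sg S (fun p : Γ × M => P p.1 p.2)) :
    Sg S (fun e => ∃ x, P e x) := by
  obtain ⟨A, hA, h⟩ := h
  refine ⟨fun e z => ∃ x, x < z + 1 ∧ ∃ y, y < z + 1 ∧ A (e, x) y, ?_, fun e => ?_⟩
  · refine D0.bex ((T0.ofVar IsVar.last).add (T0.const 1)) ?_
    refine D0.bex ((T0.ofVar IsVar.last.prev).add (T0.const 1)) ?_
    exact hA.comap (((CMap.fst.prev.prev).pair IsVar.last.prev).pair IsVar.last)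
  · constructor
    · rintro ⟨x, hx⟩
      obtain ⟨y, hy⟩ := (h (e, x)).1 hx
      exact ⟨max x y, x, lt_add_one_of_le' (le_max_left _ _), y,
        lt_add_one_of_le' (le_max_right _ _), hy⟩
    · rintro ⟨w, x, _, y, _, hy⟩
      exact ⟨x, (h (e, x)).2 ⟨y, hy⟩⟩

/-- `Σ⁰₁`-induction -/
theorem Sg.induct {P : Γ → M → Prop} (h : Sg S (fun p : Γ × M => P p.1 p.2)) (e : Γ)
    (h0 : P e 0) (hs : ∀ x, P e x → P e (x + 1)) : ∀ x, P e x := by
  obtain ⟨Q, ⟨φ, hφ⟩, h⟩ := h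
  have key : ∀ x, P e x ↔ ∃ y, φ.Holds (cons y (cons x (Ctx.enc e (fun _ => (0 : M))))) := by
    intro x
    exact (h (e, x)).trans (exists_congr fun y => (hφ ((e, x), y) _).symm)
  intro x
  rw [key]
  refine RCA0.induction (S := S) φ _ ?_ ?_ x
  · rw [← key]; exact h0
  · intro x
    rw [← key, ← key]
    exact hs x

/-- `Δ⁰₁`-comprehension -/
theorem Sg.compr {P : Γ → M → Prop} (h : Sg S (fun p : Γ × M => P p.1 p.2))
    (h' : Sg S (fun p : Γ × M => ¬ P p.1 p.2)) (e : Γ) : {x | P e x} ∈ S := by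
  obtain ⟨Q, ⟨φ, hφ⟩, h⟩ := h
  obtain ⟨Q', ⟨ψ, hψ⟩, h'⟩ := h'
  have key : ∀ x, P e x ↔ ∃ y, φ.Holds (cons y (cons x (Ctx.enc e (fun _ => (0 : M))))) := by
    intro x
    exact (h (e, x)).trans (exists_congr fun y => (hφ ((e, x), y) _).symm)
  have key' : ∀ x, ¬ P e x ↔ ∃ y, ψ.Holds (cons y (cons x (Ctx.enc e (fun _ => (0 : M))))) := by
    intro x
    exact (h' (e, x)).trans (exists_congr fun y => (hψ ((e, x), y) _).symm)
  have := RCA0.comprehension (S := S) φ ψ.neg (Ctx.enc e (fun _ => (0 : M))) (fun x => by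
    rw [← key]
    simp only [Bd.Holds]
    rw [← not_exists, ← key', not_not])
  simp only [← key] at this
  exact this

end

end Pool.Agent.RM
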