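import Pool.Agent.RM.Defs

/-!
# Sanity check: the full model `(ℕ, all sets)` is a model of `RCA₀`
-/

namespace Pool.Agent.RM

theorem rca0_nat : RCA0 ℕ Set.univ where
  discrete := fun x hx => hx
  induction := fun φ v h0 hs x => by
    induction x with
    | zero => exact h0
    | succ n ih => exact hs n ih
  comprehension := fun _ _ _ _ => Set.mem_univ _

end Pool.Agent.RM
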