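import Pool.Agent.RM.Sigma

/-!
# Coding of finite sequences and primitive recursion in a model of `RCA₀`
-/

set_option linter.unusedSectionVars false
set_option linter.unusedVariables false

namespace Pool.Agent.RM

universe u

section

variable {M : Type u} [CommSemiring M] [LinearOrder M] [IsStrictOrderedRing M]
  [CanonicallyOrderedAdd M]
variable {Γ Δ : Type u} [Ctx M Γ] [Ctx M Δ]

/-! ### the pairing function -/

theorem le_pair_left (x y : M) : x ≤ pair x y := le_add_self

theorem le_pair_right (S : Set (Set M)) [RCA0 M S] (x y : M) : y ≤ pair x y := by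
  rcases eq_zero_or_succ S (x + y) with h | ⟨z, h⟩
  · have : y = 0 := le_antisymm (h ▸ le_add_self) zero_le
    rw [this]
    exact zero_le
  · unfold pair
    have h1 : x + y ≤ (x + y) * (x + y) := by
      have h2 : 1 ≤ x + y := h ▸ le_add_self
      calc x + y = 1 * (x + y) := by ring
        _ ≤ (x + y) * (x + y) := by gcongr
    exact (le_add_self.trans h1).trans le_self_add

theorem pair_lt_aux (S : Set (Set M)) [RCA0 M S] {x y x' y' : M} (h : x + y < x' + y') :
    pair x y < pair x' y' := by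
  have h1 : x + y + 1 ≤ x' + y' := (add_one_le_iff' S).2 h
  have hx := toZ_nonneg x
  have hy := toZ_nonneg y
  have hx' := toZ_nonneg x'
  have hy' := toZ_nonneg y'
  rw [← toZ_le] at h1
  rw [← toZ_lt]
  unfold pair
  push_cast at *
  nlinarith [mul_self_nonneg (toZ x + toZ y), mul_le_mul h1 h1 (by positivity) (by positivity)]

theorem pair_inj (S : Set (Set M)) [RCA0 M S] {x y x' y' : M} (h : pair x y = pair x' y') :
    x = x' ∧ y = y' := by
  have hs : x + y = x' + y' := by
    rcases lt_trichotomy (x + y) (x' + y') with h1 | h1 | h1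
    · exact absurd h (pair_lt_aux S h1).ne
    · exact h1
    · exact absurd h (pair_lt_aux S h1).ne'
  unfold pair at h
  rw [hs] at h
  have hx : x = x' := add_left_cancel h
  subst hx
  exact ⟨rfl, add_left_cancel hs⟩

theorem mem_graph (S : Set (Set M)) [RCA0 M S] {F : M → M} {x y : M} :
    pair x y ∈ graph F ↔ y = F x := by
  constructor
  · rintro ⟨x', h⟩
    obtain ⟨rfl, rfl⟩ := pair_inj S h
    rfl
  · rintro rfl
    exact ⟨x, rfl⟩

theorem T0.pair {f g : Γ → M} (hf : T0 f) (hg : T0 g) : T0 (fun e => pair (f e) (g e)) :=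
  ((hf.add hg).mul (hf.add hg)).add hf

variable {S : Set (Set M)} [RCA0 M S]

theorem Tf.pair {f g : Γ → M} (hf : Tf S f) (hg : Tf S g) : Tf S (fun e => pair (f e) (g e)) :=
  ((hf.add hg).mul (hf.add hg)).add hf

theorem De.rel {R : Set M} (hR : R ∈ S) {f g : Γ → M} (hf : Tf S f) (hg : Tf S g) :
    De S (fun e => Rel R (f e) (g e)) := De.mem (hf.pair hg) hR

theorem Tf.app {F : M → M} (hF : graph F ∈ S) {f : Γ → M} (hf : Tf S f) :
    Tf S (fun e => F (f e)) := by
  have h : De S (fun p : Γ × M => RM.pair (f p.1) p.2 ∈ graph F) :=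
    De.mem (Tf.pair hf.weak Tf.v0) hF
  exact h.1.congr (fun p => mem_graph S)

theorem graph_mem {F : Γ → M → M} (hF : Tf S (fun p : Γ × M => F p.1 p.2)) (e : Γ) :
    graph (F e) ∈ S := by
  have h : De S (fun p : Γ × M => ∃ x, x < p.2 + 1 ∧ p.2 = RM.pair x (F p.1 x)) := by
    refine De.bex (Tf.v0.add (Tf.const 1)) (De.eq Tf.v1 (Tf.pair Tf.v0 ?_))
    exact hF.comap (CMap.fst.prev.pair IsVar.last)
  have := De.compr (P := fun (e : Γ) z => ∃ x, x < z + 1 ∧ z = RM.pair x (F e x)) h e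
  convert this using 1
  ext z
  constructor
  · rintro ⟨x, hx⟩
    exact ⟨x, lt_add_one_of_le' (hx ▸ le_pair_left _ _), hx⟩
  · rintro ⟨x, _, hx⟩
    exact ⟨x, hx⟩

/-! ### remainders -/

/-- the remainder of the division of `a` by `q` -/
noncomputable def rem (a q : M) : M :=
  open Classical in
  if h : ∃ r, r < q ∧ ∃ c, a = q * c + r then Classical.choose h else 0

theorem rem_unique (S : Set (Set M)) [RCA0 M S] {q c r c' r' : M} (h : q * c + r = q * c' + r')
    (hr : r < q) (hr' : r' < q) : c = c' ∧ r = r' := by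
  have key : ∀ {c r c' r' : M}, q * c + r = q * c' + r' → r < q → r' < q → ¬ c < c' := by
    intro c r c' r' h hr hr' hc
    have h1 := (add_one_le_iff' S).2 hc
    have : q * c + r < q * c' + r' := by
      calc q * c + r < q * c + q := by gcongr
        _ = q * (c + 1) := by ring
        _ ≤ q * c' := by gcongr
        _ ≤ q * c' + r' := le_self_add
    exact absurd h this.ne
  have hc : c = c' := le_antisymm (not_lt.1 (key h.symm hr' hr)) (not_lt.1 (key h hr hr'))
  subst hc
  exact ⟨rfl, add_left_cancel h⟩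

theorem exists_rem (S : Set (Set M)) [RCA0 M S] (a : M) {q : M} (hq : 0 < q) :
    ∃ r, r < q ∧ ∃ c, a = q * c + r := by
  refine Sg.induct (S := S) (Γ := PUnit)
    (P := fun _ a => ∃ r, r < q ∧ ∃ c, a = q * c + r) ?_ PUnit.unit ?_ ?_ a
  · refine Sg.ex (Sg.and (Sg.of0 (D0.lt T0.v0 (T0.const q))) (Sg.ex (Sg.of0 ?_)))
    exact D0.eq T0.v2 (((T0.const q).mul T0.v0).add T0.v1)
  · exact ⟨0, hq, 0, by simp⟩
  · rintro x ⟨r, hr, c, rfl⟩
    rcases lt_or_eq_of_le ((add_one_le_iff' S).2 hr) with h | h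
    · exact ⟨r + 1, h, c, by ring⟩
    · refine ⟨0, hq, c + 1, ?_⟩
      calc q * c + r + 1 = q * c + (r + 1) := by ring
        _ = q * c + q := by rw [h]
        _ = _ := by ring

theorem rem_spec (S : Set (Set M)) [RCA0 M S] (a : M) {q : M} (hq : 0 < q) :
    rem a q < q ∧ ∃ c, a = q * c + rem a q := by
  have h := exists_rem S a hq
  unfold rem
  rw [dif_pos h]
  exact Classical.choose_spec h

theorem rem_eq (S : Set (Set M)) [RCA0 M S] {a q c r : M} (h : a = q * c + r) (hr : r < q) :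
    rem a q = r := by
  obtain ⟨h1, c', h2⟩ := rem_spec S a (lt_of_le_of_lt zero_le hr)
  exact (rem_unique S (h2.symm.trans h) h1 hr).2

theorem rem_zero (a : M) : rem a (0 : M) = 0 := by
  unfold rem
  rw [dif_neg]
  rintro ⟨r, hr, _⟩
  exact absurd hr (not_lt.2 zero_le)

theorem rem_graph (S : Set (Set M)) [RCA0 M S] (a q r : M) :
    ((r < q ∧ ∃ c, a = q * c + r) ∨ (q = 0 ∧ r = 0)) ↔ r = rem a q := by
  rcases eq_or_ne q 0 with rfl | hq
  · simp [rem_zero]
  · have hq' : 0 < q := lt_of_le_of_ne zero_le hq.symm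
    constructor
    · rintro (⟨hr, c, h⟩ | ⟨h, _⟩)
      · exact (rem_eq S h hr).symm
      · exact absurd h hq
    · rintro rfl
      exact Or.inl (rem_spec S a hq')

theorem Tf.rem {f g : Γ → M} (hf : Tf S f) (hg : Tf S g) : Tf S (fun e => rem (f e) (g e)) := by
  refine Tf.of_graph (R := fun e r => (r < g e ∧ ∃ c, f e = g e * c + r) ∨ (g e = 0 ∧ r = 0))
    ?_ (fun e x => rem_graph S _ _ _)
  refine Sg.or (Sg.and (De.lt Tf.v0 hg.weak).1 (Sg.ex ?_))
    (Sg.and (De.eq hg.weak (Tf.const 0)).1 (De.eq Tf.v0 (Tf.const 0)).1)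
  exact (De.eq hf.weak.weak ((hg.weak.weak.mul Tf.v0).add Tf.v1)).1

/-- Gödel's function -/
noncomputable def bet (u b i : M) : M := rem u (1 + (i + 1) * b)

theorem Tf.bet {f g h : Γ → M} (hf : Tf S f) (hg : Tf S g) (hh : Tf S h) :
    Tf S (fun e => bet (f e) (g e) (h e)) :=
  Tf.rem hf ((Tf.const 1).add ((hh.add (Tf.const 1)).mul hg))

/-- a total function is bounded on an initial segment -/
theorem exists_bound {F : Γ → M → M} (hF : Tf S (fun p : Γ × M => F p.1 p.2)) (e : Γ) (n : M) :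
    ∃ B, ∀ i, i < n → F e i < B := by
  refine Sg.induct (S := S) (P := fun e n => ∃ B, ∀ i, i < n → F e i < B) ?_ e ?_ ?_ n
  · refine Sg.ex (Sg.ball T0.v1 (De.lt ?_ Tf.v1).1)
    exact hF.comap (CMap.fst.prev.prev.pair IsVar.last)
  · exact ⟨0, fun i hi => absurd hi (not_lt.2 zero_le)⟩
  · rintro n ⟨B, hB⟩
    refine ⟨max B (F e n + 1), fun i hi => ?_⟩
    rcases lt_or_eq_of_le ((lt_add_one_iff' S).1 hi) with h1 | rfl
    · exact lt_of_lt_of_le (hB i h1) (le_max_left _ _)
    · exact lt_of_lt_of_le (lt_add_one_self _) (le_max_right _ _)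

theorem exists_common (S : Set (Set M)) [RCA0 M S] (n : M) :
    ∃ b, 0 < b ∧ ∀ d, d < n → ∃ c, b = (d + 1) * c := by
  refine Sg.induct (S := S) (Γ := PUnit)
    (P := fun _ n => ∃ b, 0 < b ∧ ∀ d, d < n → ∃ c, b = (d + 1) * c) ?_ PUnit.unit ?_ ?_ n
  · refine Sg.ex (Sg.and (Sg.of0 (D0.lt (T0.const 0) T0.v0)) (Sg.ball T0.v1 (Sg.ex ?_)))
    exact Sg.of0 (D0.eq T0.v2 ((T0.v1.add (T0.const 1)).mul T0.v0))
  · exact ⟨1, zero_lt_one, fun i hi => absurd hi (not_lt.2 zero_le)⟩
  · rintro n ⟨b, hb0, hb⟩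
    refine ⟨b * (n + 1), by positivity, fun i hi => ?_⟩
    rcases lt_or_eq_of_le ((lt_add_one_iff' S).1 hi) with h1 | rfl
    · obtain ⟨c, hc⟩ := hb i h1
      exact ⟨c * (n + 1), by rw [hc]; ring⟩
    · exact ⟨b, by ring⟩

/-- `x` is invertible modulo `q` -/
def Inv (x q : M) : Prop := ∃ w m, x * w = 1 + q * m

theorem Inv.mul {x y q : M} (hx : Inv x q) (hy : Inv y q) : Inv (x * y) q := by
  obtain ⟨w, m, h⟩ := hx
  obtain ⟨w', m', h'⟩ := hy
  refine ⟨w * w', m + m' + q * m * m', ?_⟩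
  calc x * y * (w * w') = (x * w) * (y * w') := by ring
    _ = (1 + q * m) * (1 + q * m') := by rw [h, h']
    _ = _ := by ring

theorem inv_aux (S : Set (Set M)) [RCA0 M S] {i d b c : M} (hb : b = d * c) (hb0 : 0 < b) :
    Inv (1 + (i + 1) * b) (1 + (i + d + 1) * b) := by
  -- `X + 1 = q_j * Y`, and `X² = 1 + q_j * Y * (X - 1)`
  have hc : 0 < c := by
    by_contra h
    have : c = 0 := le_antisymm (not_lt.1 h) zero_le
    subst this
    simp [hb] at hb0
  have hX0 : 0 < (1 + (i + 1) * b) * (c * ((i + d + 1) * (i + d + 1))) := by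
    have h1 : 0 < i + d + 1 := lt_of_le_of_lt zero_le (lt_add_one_self _)
    have h2 : 0 < 1 + (i + 1) * b := by
      have : 0 < (i + 1) * b + 1 := lt_of_le_of_lt zero_le (lt_add_one_self _)
      rwa [add_comm] at this
    positivity
  rcases eq_zero_or_succ S ((1 + (i + 1) * b) * (c * ((i + d + 1) * (i + d + 1)))) with h | ⟨X', h⟩
  · exact absurd h hX0.ne'
  · refine ⟨c * ((i + d + 1) * (i + d + 1)) * (X' + 1),
      (1 + c * ((i + 1) * (i + d + 1))) * X', ?_⟩
    have h1 : X' + 1 + 1 = (1 + (i + d + 1) * b) * (1 + c * ((i + 1) * (i + d + 1))) := by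
      rw [← h, hb]; ring
    calc (1 + (i + 1) * b) * (c * ((i + d + 1) * (i + d + 1)) * (X' + 1))
        = ((1 + (i + 1) * b) * (c * ((i + d + 1) * (i + d + 1)))) * (X' + 1) := by ring
      _ = (X' + 1) * (X' + 1) := by rw [h]
      _ = 1 + (X' + 1 + 1) * X' := by ring
      _ = 1 + ((1 + (i + d + 1) * b) * (1 + c * ((i + 1) * (i + d + 1)))) * X' := by rw [h1]
      _ = _ := by ring

/-- finite sequences have codes -/
theorem exists_code {F : Γ → M → M} (hF : Tf S (fun p : Γ × M => F p.1 p.2)) (e : Γ) (n : M) :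
    ∃ u b, ∀ i, i < n → bet u b i = F e i := by
  obtain ⟨B, hB⟩ := exists_bound hF e n
  obtain ⟨b', hb'0, hb'⟩ := exists_common S n
  obtain ⟨b, hb0, hb, hBb⟩ : ∃ b, 0 < b ∧ (∀ d, d < n → ∃ c, b = (d + 1) * c) ∧ B ≤ b := by
    refine ⟨b' * (B + 1), ?_, fun d hd => ?_, ?_⟩
    · have : 0 < B + 1 := lt_of_le_of_lt zero_le (lt_add_one_self _)
      positivity
    · obtain ⟨c, hc⟩ := hb' d hd
      exact ⟨c * (B + 1), by rw [hc]; ring⟩
    · have h1 : 1 ≤ b' := by
        have := (add_one_le_iff' S).2 hb'0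
        rwa [zero_add] at this
      calc B ≤ B + 1 := le_self_add
        _ = 1 * (B + 1) := by ring
        _ ≤ b' * (B + 1) := by gcongr
  have hlt : ∀ i, i < n → F e i < 1 + (i + 1) * b := by
    intro i hi
    calc F e i < B := hB i hi
      _ ≤ b := hBb
      _ ≤ b + (1 + i * b) := le_self_add
      _ = _ := by ring
  have key : ∀ k : M, ∃ u P, 0 < P ∧
      (∀ i, i < k → i < n → bet u b i = F e i ∧ ∃ c, P = (1 + (i + 1) * b) * c) ∧
      (∀ j, j < n → k ≤ j → Inv P (1 + (j + 1) * b)) := by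
    refine Sg.induct (S := S) (P := fun e k => ∃ u P, 0 < P ∧
      (∀ i, i < k → i < n → bet u b i = F e i ∧ ∃ c, P = (1 + (i + 1) * b) * c) ∧
      (∀ j, j < n → k ≤ j → Inv P (1 + (j + 1) * b))) ?_ e ?_ ?_
    · refine Sg.ex (Sg.ex (Sg.and (Sg.of0 (D0.lt (T0.const 0) T0.v0)) (Sg.and ?_ ?_)))
      · refine Sg.ball T0.v2 (Sg.imp (De.lt Tf.v0 (Tf.const n)) (Sg.and ?_ (Sg.ex ?_)))
        · exact (De.eq (Tf.bet Tf.v2 (Tf.const b) Tf.v0)
            (hF.comap (CMap.fst.prev.prev.prev.pair IsVar.last))).1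
        · exact (De.eq Tf.v2 (((Tf.const 1).add ((Tf.v1.add (Tf.const 1)).mul
            (Tf.const b))).mul Tf.v0)).1
      · refine Sg.ball (T0.const n) (Sg.imp (De.le Tf.v3 Tf.v0) (Sg.ex (Sg.ex ?_)))
        exact (De.eq (Tf.v3.mul Tf.v1) ((Tf.const 1).add (((Tf.const 1).add
          ((Tf.v2.add (Tf.const 1)).mul (Tf.const b))).mul Tf.v0))).1
    · refine ⟨0, 1, zero_lt_one, fun i hi => absurd hi (not_lt.2 zero_le), fun j hj _ => ?_⟩
      exact ⟨1, 0, by simp⟩
    · rintro k ⟨u, P, hP0, h1, h2⟩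
      by_cases hk : k < n
      · obtain ⟨w, m, hw⟩ := h2 k hk le_rfl
        refine ⟨u + P * w * (F e k + (k + 1) * b * u), P * (1 + (k + 1) * b), ?_, ?_, ?_⟩
        · have : 0 < 1 + (k + 1) * b := by
            have : 0 < (k + 1) * b + 1 := lt_of_le_of_lt zero_le (lt_add_one_self _)
            rwa [add_comm] at this
          positivity
        · intro i hi hin
          rcases lt_or_eq_of_le ((lt_add_one_iff' S).1 hi) with h3 | rfl
          · obtain ⟨h4, c, hc⟩ := h1 i h3 hin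
            have hpos : (0 : M) < 1 + (i + 1) * b := lt_of_le_of_lt zero_le (hlt i hin)
            obtain ⟨_, c', hc'⟩ := rem_spec S u hpos
            have h5 : rem u (1 + (i + 1) * b) = F e i := h4
            rw [h5] at hc'
            refine ⟨?_, c * (1 + (k + 1) * b), by rw [hc]; ring⟩
            refine rem_eq S (c := c' + c * w * (F e k + (k + 1) * b * u)) ?_ (hlt i hin)
            calc u + P * w * (F e k + (k + 1) * b * u)
                = ((1 + (i + 1) * b) * c' + F e i) +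
                  ((1 + (i + 1) * b) * c) * w * (F e k + (k + 1) * b * u) := by
                    rw [← hc', ← hc]
              _ = _ := by ring
          · refine ⟨?_, P, by ring⟩
            refine rem_eq S (c := u + m * (F e i + (i + 1) * b * u)) ?_ (hlt i hin)
            rw [hw]
            ring
        · intro j hj hkj
          have hkj' : k < j := lt_of_lt_of_le (lt_add_one_self k) hkj
          refine (h2 j hj hkj'.le).mul ?_
          obtain ⟨d, hd⟩ := exists_add_of_le hkj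
          have hdn : d < n := lt_of_le_of_lt (hd ▸ le_add_self) hj
          obtain ⟨c, hc⟩ := hb d hdn
          have := inv_aux S (i := k) hc hb0
          have e1 : k + (d + 1) + 1 = j + 1 := by rw [hd]; ring
          rwa [e1] at this
      · refine ⟨u, P, hP0, fun i hi hin => ?_, fun j hj hkj => ?_⟩
        · exact h1 i (lt_of_lt_of_le hin (not_lt.1 hk)) hin
        · exact h2 j hj (le_self_add.trans hkj)
  obtain ⟨u, P, _, h, _⟩ := key n
  exact ⟨u, b, fun i hi => (h i hi hi).1⟩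

/-- primitive recursion -/
theorem exists_prec {a : Γ → M} (ha : Tf S a) {F : Γ → M → M → M}
    (hF : Tf S (fun p : (Γ × M) × M => F p.1.1 p.1.2 p.2)) :
    ∃ G : Γ → M → M, Tf S (fun p : Γ × M => G p.1 p.2) ∧
      ∀ e, G e 0 = a e ∧ ∀ n, G e (n + 1) = F e n (G e n) := by
  set R : Γ → M → M → Prop := fun e n y => ∃ u b, bet u b 0 = a e ∧
    (∀ i, i < n → bet u b (i + 1) = F e i (bet u b i)) ∧ y = bet u b n with hR
  have hRS : Sg S (fun p : (Γ × M) × M => R p.1.1 p.1.2 p.2) := by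
    refine Sg.ex (Sg.ex (Sg.and ?_ (Sg.and ?_ ?_)))
    · exact (De.eq (Tf.bet Tf.v1 Tf.v0 (Tf.const 0))
        (ha.comap CMap.fst.prev.prev.prev)).1
    · refine Sg.ball T0.v3 (De.eq (Tf.bet Tf.v2 Tf.v1 (Tf.v0.add (Tf.const 1))) ?_).1
      exact Tf.subst (F := fun (p : ((((Γ × M) × M) × M) × M) × M) y => F p.1.1.1.1.1 p.2 y)
        (hF.comap ((CMap.fst.prev.prev.prev.prev.prev.pair IsVar.last.prev).pair IsVar.last))
        (Tf.bet Tf.v2 Tf.v1 Tf.v0)
    · exact (De.eq Tf.v2 (Tf.bet Tf.v1 Tf.v0 Tf.v3)).1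
  have hex : ∀ e n, ∃ y, R e n y := by
    intro e
    refine Sg.induct (S := S) (P := fun e n => ∃ y, R e n y) (Sg.ex hRS) e ?_ ?_
    · obtain ⟨u, b, h⟩ := exists_code (S := S) (F := fun e _ => a e)
        (ha.comap CMap.fst) e 1
      exact ⟨_, u, b, h 0 zero_lt_one, fun i hi => absurd hi (not_lt.2 zero_le), rfl⟩
    · rintro n ⟨y, u, b, h0, h1, rfl⟩
      -- the prolonged sequence
      obtain ⟨f, hf1, hf2⟩ : ∃ f : Γ → M → M, (∀ e i, i ≤ n → f e i = bet u b i) ∧
          (∀ e i, ¬ i ≤ n → f e i = F e n (bet u b n)) := by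
        classical
        exact ⟨fun e i => if i ≤ n then bet u b i else F e n (bet u b n),
          fun e i hi => if_pos hi, fun e i hi => if_neg hi⟩
      have hf : Tf S (fun p : Γ × M => f p.1 p.2) := by
        refine Tf.ite (P := fun (p : Γ × M) => p.2 ≤ n) (De.le Tf.v0 (Tf.const n))
          (f := fun (p : Γ × M) => bet u b p.2) (g := fun (p : Γ × M) => F p.1 n (bet u b n))
          (Tf.bet (Tf.const u) (Tf.const b) Tf.v0) ?_ _ (fun p hp => hf1 _ _ hp)
          (fun p hp => hf2 _ _ hp)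
        have h1 : Tf S (fun p : (Γ × M) × M => F p.1.1 n p.2) :=
          Tf.subst (F := fun (p : (Γ × M) × M) x => F p.1.1 x p.2)
            (hF.comap ((CMap.fst.prev.prev.pair IsVar.last).pair IsVar.last.prev))
            (Tf.const n)
        exact Tf.subst (F := fun (p : Γ × M) y => F p.1 n y) h1 (Tf.const (bet u b n))
      obtain ⟨u', b', h'⟩ := exists_code hf e (n + 2)
      have hn2 : ∀ i, i ≤ n + 1 → i < n + 2 := by
        intro i hi
        have : n + 2 = n + 1 + 1 := by ring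
        rw [this]
        exact lt_add_one_of_le' hi
      have h'1 : ∀ i, i ≤ n → bet u' b' i = bet u b i := fun i hi =>
        (h' i (hn2 i (hi.trans le_self_add))).trans (hf1 e i hi)
      refine ⟨_, u', b', ?_, ?_, rfl⟩
      · rw [h'1 0 zero_le, h0]
      · intro i hi
        rw [lt_add_one_iff' S] at hi
        rcases lt_or_eq_of_le hi with h2 | rfl
        · rw [h'1 i hi, h'1 (i + 1) ((add_one_le_iff' S).2 h2), h1 i h2]
        · rw [h'1 i le_rfl, h' (i + 1) (hn2 _ le_rfl),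
            hf2 e (i + 1) (not_le.2 (lt_add_one_self i))]
  have huniq : ∀ e n y y', R e n y → R e n y' → y = y' := by
    rintro e n y y' ⟨u, b, h0, h1, rfl⟩ ⟨u', b', h0', h1', rfl⟩
    have : ∀ i, i ≤ n → bet u b i = bet u' b' i := by
      refine Sg.induct (S := S) (Γ := PUnit) (P := fun _ i => i ≤ n → bet u b i = bet u' b' i)
        ?_ PUnit.unit ?_ ?_
      · exact Sg.imp (De.le Tf.v0 (Tf.const n)) (De.eq (Tf.bet (Tf.const u) (Tf.const b) Tf.v0)
          (Tf.bet (Tf.const u') (Tf.const b') Tf.v0)).1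
      · intro _
        rw [h0, h0']
      · intro i ih hi
        have hi' : i < n := (add_one_le_iff' S).1 hi
        rw [h1 i hi', h1' i hi', ih hi'.le]
    exact this n le_rfl
  choose G hG using hex
  refine ⟨G, Tf.of_graph (R := fun p y => R p.1 p.2 y) hRS (fun p y => ⟨fun h => ?_, ?_⟩),
    fun e => ⟨?_, fun n => ?_⟩⟩
  · exact huniq _ _ _ _ h (hG _ _)
  · rintro rfl
    exact hG _ _
  · obtain ⟨u, b, h0, _, h⟩ := hG e 0
    rw [h, h0]
  · obtain ⟨u, b, h0, h1, h⟩ := hG e (n + 1)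
    rw [h, h1 n (lt_add_one_self n)]
    congr 1
    refine huniq e n _ _ ⟨u, b, h0, fun i hi => h1 i (hi.trans (lt_add_one_self n)), rfl⟩ (hG e n)

end

end Pool.Agent.RM
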