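import Mathlib

/-!
# Models of `RCA₀` and the principles `SADS` and `P`

A structure for the language of second-order arithmetic is given by a discretely ordered
commutative semiring `M` (the numbers) and a family `S` of subsets of `M` (the sets).
-/

namespace Pool.Agent.RM

universe u

/-- Number terms with parameters from `M`; `var n` is the number variable with (de Bruijn)
index `n`. -/
inductive Tm (M : Type u) : Type u
  | var : ℕ → Tm M
  | const : M → Tm M
  | add : Tm M → Tm M → Tm M
  | mul : Tm M → Tm M → Tm M

/-- Bounded (that is, `Δ⁰₀`) formulas with number parameters from `M` and set parameters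
from `S`.  The formula `ball t φ` is the bounded quantification `∀ x < t, φ`. -/
inductive Bd (M : Type u) (S : Set (Set M)) : Type u
  | eq : Tm M → Tm M → Bd M S
  | lt : Tm M → Tm M → Bd M S
  | mem : Tm M → S → Bd M S
  | neg : Bd M S → Bd M S
  | and : Bd M S → Bd M S → Bd M S
  | ball : Tm M → Bd M S → Bd M S

/-- The assignment which gives the variable `0` the value `x` and the variable `n + 1` the
value `v n`. -/
def cons {M : Type u} (x : M) (v : ℕ → M) : ℕ → M
  | 0 => x
  | n + 1 => v n

section

variable {M : Type u} [CommSemiring M] [LinearOrder M]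

/-- The value of a term. -/
def Tm.eval (v : ℕ → M) : Tm M → M
  | .var n => v n
  | .const a => a
  | .add s t => s.eval v + t.eval v
  | .mul s t => s.eval v * t.eval v

/-- Truth of a bounded formula under an assignment. -/
def Bd.Holds {S : Set (Set M)} : Bd M S → (ℕ → M) → Prop
  | .eq s t, v => s.eval v = t.eval v
  | .lt s t, v => s.eval v < t.eval v
  | .mem t X, v => t.eval v ∈ X.1
  | .neg φ, v => ¬ φ.Holds v
  | .and φ ψ, v => φ.Holds v ∧ ψ.Holds v
  | .ball t φ, v => ∀ x, x < t.eval v → φ.Holds (cons x v)

end

/-- `(M, S)` is a model of `RCA₀`: the numbers `M` form a discretely ordered commutative semiring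
(the ordering is canonical: `x ≤ y` iff `x + z = y` for some `z`), and `(M, S)` satisfies
`Σ⁰₁`-induction and `Δ⁰₁`-comprehension.  A `Σ⁰₁` formula is `∃ y, φ` with `φ` bounded. -/
class RCA0 (M : Type u) [CommSemiring M] [LinearOrder M] [IsStrictOrderedRing M]
    [CanonicallyOrderedAdd M] (S : Set (Set M)) : Prop where
  /-- there is no number strictly between `0` and `1` -/
  discrete : ∀ x : M, 0 < x → 1 ≤ x
  /-- `Σ⁰₁`-induction -/
  induction : ∀ (φ : Bd M S) (v : ℕ → M),
    (∃ y, φ.Holds (cons y (cons 0 v))) →
    (∀ x, (∃ y, φ.Holds (cons y (cons x v))) → ∃ y, φ.Holds (cons y (cons (x + 1) v))) →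
    ∀ x, ∃ y, φ.Holds (cons y (cons x v))
  /-- `Δ⁰₁`-comprehension -/
  comprehension : ∀ (φ ψ : Bd M S) (v : ℕ → M),
    (∀ x, (∃ y, φ.Holds (cons y (cons x v))) ↔ ∀ y, ψ.Holds (cons y (cons x v))) →
    {x | ∃ y, φ.Holds (cons y (cons x v))} ∈ S

section

variable {M : Type u} [CommSemiring M] [LinearOrder M]

/-- The pairing function `(x + y)² + x`. -/
def pair (x y : M) : M := (x + y) * (x + y) + x

/-- The binary relation coded by the set `R`. -/
def Rel (R : Set M) (x y : M) : Prop := pair x y ∈ R

/-- The graph of a function, as a set of codes of pairs. -/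
def graph (f : M → M) : Set M := {z | ∃ x, z = pair x (f x)}

/-- Only finitely many elements `y` of `X` satisfy `p`. -/
def FinMany (X : Set M) (p : M → Prop) : Prop := ∃ b, ∀ y ∈ X, p y → y ≤ b

/-- All but finitely many elements `y` of `X` satisfy `p`. -/
def AlmostAll (X : Set M) (p : M → Prop) : Prop := FinMany X (fun y => ¬ p y)

/-- The set `X` is infinite (in the sense of the model). -/
def InfiniteSet (X : Set M) : Prop := ∀ b, ∃ x ∈ X, b < x

/-- The relation coded by `R` is a partial order on the set `P`. -/
structure IsPO (P R : Set M) : Prop where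
  refl : ∀ x ∈ P, Rel R x x
  antisymm : ∀ x ∈ P, ∀ y ∈ P, Rel R x y → Rel R y x → x = y
  trans : ∀ x ∈ P, ∀ y ∈ P, ∀ z ∈ P, Rel R x y → Rel R y z → Rel R x z

/-- The relation coded by `R` is a linear order on the set `P`. -/
def IsLO (P R : Set M) : Prop := IsPO P R ∧ ∀ x ∈ P, ∀ y ∈ P, Rel R x y ∨ Rel R y x

/-- `x` is small in the partial order `(P, R)`. -/
def Small (P R : Set M) (x : M) : Prop := AlmostAll P (fun y => Rel R x y)

/-- `x` is large in the partial order `(P, R)`. -/
def Large (P R : Set M) (x : M) : Prop := AlmostAll P (fun y => Rel R y x)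

/-- `x` is isolated in the partial order `(P, R)`. -/
def Isolated (P R : Set M) (x : M) : Prop := AlmostAll P (fun y => ¬ Rel R x y ∧ ¬ Rel R y x)

/-- The partial order `(P, R)` is stable. -/
def Stable (P R : Set M) : Prop :=
  (∀ x ∈ P, Small P R x ∨ Isolated P R x) ∨ (∀ x ∈ P, Large P R x ∨ Isolated P R x)

/-- The partial order `(P, R)` is weakly stable. -/
def WeaklyStable (P R : Set M) : Prop := ∀ x ∈ P, Small P R x ∨ Large P R x ∨ Isolated P R x

/-- `(M, S)` satisfies the principle `P`: each infinite weakly stable partial order has an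
infinite stable suborder. -/
def PrincipleP (S : Set (Set M)) : Prop :=
  ∀ P ∈ S, ∀ R ∈ S, IsPO P R → InfiniteSet P → WeaklyStable P R →
    ∃ T ∈ S, T ⊆ P ∧ InfiniteSet T ∧ Stable T R

/-- `(M, S)` satisfies `SADS`: each infinite linear order in which every element has only finitely
many predecessors or only finitely many successors has an infinite ascending sequence or an
infinite descending sequence. -/
def SADS (S : Set (Set M)) : Prop :=
  ∀ X ∈ S, ∀ R ∈ S, IsLO X R → InfiniteSet X →
    (∀ x ∈ X, FinMany X (fun y => Rel R y x) ∨ FinMany X (fun y => Rel R x y)) →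
    ∃ f : M → M, graph f ∈ S ∧ (∀ n, f n ∈ X) ∧
      ((∀ m n, m < n → f m ≠ f n ∧ Rel R (f m) (f n)) ∨
        (∀ m n, m < n → f m ≠ f n ∧ Rel R (f n) (f m)))

end

end Pool.Agent.RM
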