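import Pool.Agent.RM.Univ

/-!
# The definable sets of a saturated nonstandard model: choice holds, `ABW₀` fails
-/

set_option linter.unusedSectionVars false
set_option linter.unusedVariables false

namespace Pool.Agent.RM

universe u

section

variable {M : Type u} [CommSemiring M] [LinearOrder M] [IsStrictOrderedRing M]
  [CanonicallyOrderedAdd M]

theorem lev_mem (hM : Good M) (n : ℕ) : Lev n ∈ defS M := by
  have := hM.rca0
  induction n with
  | zero =>
    exact (FO.eq (FOF.const (0 : M)) (FOF.const 1)).congr (fun e => by simp [Lev])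
  | succ n ih =>
    have h := FO.ofAD (M := M) (Γ := PUnit.{u + 1} × M) EncF.unit.prod
      (AD.Jset' (M := M) (S := defS M)) (X := fun _ => Lev n)
      (FO.comap (P := fun p : PUnit.{u + 1} × M => p.2 ∈ Lev n) ih (CMap.unit.pair IsVar.last))
    exact h

/-- numbers below a standard number are standard -/
theorem std_of_le (hM : Good M) {x : M} : ∀ {n : ℕ}, x ≤ (n : M) → ∃ k : ℕ, k ≤ n ∧ x = (k : M) := by
  have := hM.rca0
  intro n
  induction n with
  | zero =>
    intro h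
    exact ⟨0, le_rfl, le_antisymm (by simpa using h) (by simp)⟩
  | succ n ih =>
    intro h
    rcases lt_or_eq_of_le h with h1 | h1
    · push_cast at h1
      obtain ⟨k, hk, hx⟩ := ih ((lt_add_one_iff' (defS M)).1 h1)
      exact ⟨k, by omega, hx⟩
    · exact ⟨n + 1, le_rfl, h1⟩

/-- the code of the first `n` levels, for standard `n` -/
def stdSol (n : ℕ) : Set M :=
  {x | x = (n : M) ∨ ∃ i : ℕ, i < n + 1 ∧ ∃ z ∈ Lev i, x = (n : M) + 1 + pair (i : M) z}

theorem stdSol_mem (hM : Good M) (n : ℕ) : stdSol (M := M) n ∈ defS M := by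
  refine FO.or (FO.eq FOF.v0 (FOF.const _)) (FO.finOr
    (P := fun i (p : PUnit.{u + 1} × M) => ∃ z ∈ Lev i, p.2 = (n : M) + 1 + pair (i : M) z) ?_ _)
  intro i
  exact FO.ex (FO.and (FO.mem FOF.v0 (lev_mem hM i))
    (FO.eq FOF.v1 ((FOF.const _).add ((FOF.const _).pair FOF.v0))))

theorem mem_stdSol (hM : Good M) (n : ℕ) {i : ℕ} {z : M} (hi : i ≤ n) :
    (n : M) + 1 + pair (i : M) z ∈ stdSol (M := M) n ↔ z ∈ Lev i := by
  have := hM.rca0
  constructor
  · rintro (h | ⟨j, hj, w, hw, h⟩)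
    · exfalso
      have h1 : (n : M) < (n : M) + 1 + pair (i : M) z :=
        lt_of_lt_of_le (lt_add_one_self _) le_self_add
      exact h1.ne' h
    · obtain ⟨h1, rfl⟩ := pair_inj (defS M) (add_left_cancel h)
      have : i = j := by exact_mod_cast h1
      rw [this]
      exact hw
  · intro h
    exact Or.inr ⟨i, by omega, z, h, rfl⟩

theorem stdSol_sol (hM : Good M) (n : ℕ) : Sol (n : M) (stdSol (M := M) n) := by
  have := hM.rca0
  refine ⟨?_, Or.inl rfl, ?_, ?_, ?_⟩
  · rintro x hx (rfl | ⟨i, _, z, _, rfl⟩)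
    · exact lt_irrefl _ hx
    · have h1 : (n : M) < (n : M) + 1 + pair (i : M) z :=
        lt_of_lt_of_le (lt_add_one_self _) le_self_add
      exact hx.asymm h1
  · rintro x (rfl | ⟨i, hi, z, _, rfl⟩) hx
    · exact absurd hx (lt_irrefl _)
    · refine ⟨i, z, ?_, rfl⟩
      have : i ≤ n := by omega
      exact_mod_cast this
  · intro z h
    have h1 := (mem_stdSol hM n (i := 0) (z := z) (Nat.zero_le _)).1 (by simpa using h)
    exact h1
  · intro i hi z
    obtain ⟨k, hk, rfl⟩ := std_of_le hM hi.le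
    have hk' : k < n := by exact_mod_cast hi
    have h1 := mem_stdSol hM n (i := k + 1) (z := z) (by omega)
    push_cast at h1
    rw [h1]
    have h2 : (fun z' => (n : M) + 1 + pair (k : M) z' ∈ stdSol (M := M) n) =
        fun z' => z' ∈ Lev k := by
      funext z'
      exact propext (mem_stdSol hM n hk)
    rw [h2]
    rfl

/-- in a solution the standard levels are right -/
theorem sol_lev (hM : Good M) {n : M} {X : Set M} (h : Sol n X) :
    ∀ {i : ℕ}, (i : M) ≤ n → ∀ z, (n + 1 + pair (i : M) z ∈ X ↔ z ∈ Lev i) := by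
  intro i
  induction i with
  | zero =>
    intro _ z
    refine ⟨fun h' => ?_, fun h' => h'.elim⟩
    exact h.2.2.2.1 z (by simpa using h')
  | succ i ih =>
    intro hi z
    have hi' : (i : M) < n := by
      push_cast at hi
      exact lt_of_lt_of_le (lt_add_one_self _) hi
    have h1 := h.2.2.2.2 (i : M) hi' z
    push_cast
    rw [h1]
    have h2 : (fun z' => n + 1 + pair (i : M) z' ∈ X) = fun z' => z' ∈ Lev i := by
      funext z'
      exact propext (ih hi'.le z')
    rw [h2]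
    rfl

/-- `n` is standard if there is a solution for `n` in the model -/
theorem sol_std (hM : Good M) {n : M} {X : Set M} (hX : X ∈ defS M) (h : Sol n X) :
    ∃ k : ℕ, n = (k : M) := by
  have := hM.rca0
  by_contra hc
  push Not at hc
  have hbig : ∀ k : ℕ, (k : M) ≤ n := by
    intro k
    by_contra hk
    obtain ⟨j, _, hj⟩ := std_of_le hM (not_le.1 hk).le
    exact hc j hj
  -- the diagonal predicate
  let Φ : M → Prop := fun x => ∃ u b, bet u b 0 = x ∧ ∃ i c, x = pair i c ∧ i ≤ n ∧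
    ¬ (n + 1 + pair i (trip c u b) ∈ X)
  have hΦ : FO M (fun p : PUnit.{u + 1} × M => Φ p.2) := by
    refine FO.ofAD (M := M) (Γ := PUnit.{u + 1} × M) EncF.unit.prod
      (P := fun (p : PUnit.{u + 1} × M) X => ∃ u b, bet u b 0 = p.2 ∧ ∃ i c, p.2 = pair i c ∧
        i ≤ n ∧ ¬ (n + 1 + pair i (trip c u b) ∈ X)) ?_ (X := fun _ => X)
      (FO.comap (P := fun p : PUnit.{u + 1} × M => p.2 ∈ X) hX (CMap.unit.pair IsVar.last))
    refine AD.ex (AD.ex (AD.and (AD.bet T0.v1 T0.v0 (T0.const 0) T0.v2) (AD.ex (AD.ex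
      (AD.and ?_ (AD.and (AD.le T0.v1 (T0.const n)) (AD.not ?_)))))))
    · exact AD.eq T0.v4 (T0.v1.pair T0.v0)
    · exact AD.memv ((T0.const _).add (T0.v1.pair (T0.v0.trip T0.v3 T0.v2)))
  obtain ⟨φ, hφ⟩ := hΦ
  obtain ⟨k, c, hk⟩ := exists_lev (defS M) φ
  have hk' : ∀ u b, n + 1 + pair (k : M) (trip c u b) ∈ X ↔ Φ (bet u b 0) := by
    intro u b
    rw [sol_lev hM h (hbig k), hk]
    have h1 := hφ (PUnit.unit, bet u b 0) (fun j => bet u b ((j : M) + 1))
    have h2 : Ctx.enc (M := M) ((PUnit.unit, bet u b 0) : PUnit.{u + 1} × M)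
        (fun j => bet u b ((j : M) + 1)) = asg u b := by
      funext j
      cases j with
      | zero =>
        show bet u b 0 = asg u b 0
        simp [asg]
      | succ j =>
        show bet u b ((j : M) + 1) = asg u b (j + 1)
        simp [asg]
    rw [h2] at h1
    exact h1
  by_cases hd : Φ (pair (k : M) c)
  · obtain ⟨u, b, hub, i, c', hic, _, hni⟩ := hd
    obtain ⟨rfl, rfl⟩ := pair_inj (defS M) hic
    rw [hk', hub] at hni
    exact hni ⟨u, b, hub, (k : M), c, rfl, hbig k, by rw [hk', hub]; exact hni⟩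
  · obtain ⟨u, b, hub⟩ := exists_code (S := defS M) (F := fun (_ : PUnit.{u + 1}) _ => pair (k : M) c)
      (Tf.const _) PUnit.unit 1
    have hub0 := hub 0 zero_lt_one
    refine hd ⟨u, b, hub0, (k : M), c, rfl, hbig k, ?_⟩
    rw [hk', hub0]
    exact hd

/-- solutions are unique -/
theorem sol_unique (hM : Good M) {n : M} {X X' : Set M} (hX : X ∈ defS M) (hX' : X' ∈ defS M)
    (h : Sol n X) (h' : Sol n X') : X = X' := by
  have := hM.rca0
  obtain ⟨k, rfl⟩ := sol_std hM hX h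
  have key : ∀ i z, i ≤ (k : M) → ((k : M) + 1 + pair i z ∈ X ↔ (k : M) + 1 + pair i z ∈ X') := by
    intro i z hi
    obtain ⟨j, hj, rfl⟩ := std_of_le hM hi
    rw [sol_lev hM h hi, sol_lev hM h' hi]
  ext x
  rcases lt_trichotomy x (k : M) with hx | rfl | hx
  · exact ⟨fun h1 => absurd h1 (h.1 x hx), fun h1 => absurd h1 (h'.1 x hx)⟩
  · exact ⟨fun _ => h'.2.1, fun _ => h.2.1⟩
  · constructor
    · intro h1
      obtain ⟨i, z, hi, rfl⟩ := h.2.2.1 x h1 hx
      exact (key i z hi).1 h1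
    · intro h1
      obtain ⟨i, z, hi, rfl⟩ := h'.2.2.1 x h1 hx
      exact (key i z hi).2 h1

theorem not_abw (hM : Good M) : ¬ ABW (defS M) := by
  have := hM.rca0
  intro hA
  obtain ⟨φ, hφ⟩ : AD (defS M) (fun (_ : PUnit.{u + 1}) X => ∃ n : M, Sol n X) :=
    AD.ex (P := fun (_ : PUnit.{u + 1}) n X => Sol n X) AD.sol
  have hφ' : ∀ (X : Set M) (v : ℕ → M), φ.Holds X v ↔ ∃ n : M, Sol n X :=
    fun X v => hφ PUnit.unit v X
  obtain ⟨a, ha⟩ := hM.hns
  rcases hA φ (fun _ => 0) with ⟨Z, hZ, j, hj⟩ | ⟨X, hX, hacc⟩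
  · -- the standard cut would be definable
    have hcolS : ∀ i, col Z i ∈ defS M := fun i => FO.mem ((FOF.const i).pair FOF.v0) hZ
    have hC : FO M (fun p : PUnit.{u + 1} × M => ∃ i, i < j ∧ Sol p.2 (col Z i)) := by
      refine FO.ex (FO.and (FO.lt FOF.v0 (FOF.const j)) ?_)
      refine FO.ofAD (M := M) (Γ := (PUnit.{u + 1} × M) × M) EncF.unit.prod.prod
        (P := fun p X => Sol p.1.2 X) (X := fun p => col Z p.2)
        (AD.comap (P := fun (p : PUnit.{u + 1} × M) X => Sol p.2 X) AD.sol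
          (CMap.unit.pair IsVar.last.prev)) ?_
      exact FO.mem (FOF.v1.pair FOF.v0) hZ
    have hstd : ∀ n : M, (∃ i, i < j ∧ Sol n (col Z i)) ↔ ∃ k : ℕ, n = (k : M) := by
      intro n
      constructor
      · rintro ⟨i, _, hs⟩
        exact sol_std hM (hcolS i) hs
      · rintro ⟨k, rfl⟩
        obtain ⟨i, hi, hi'⟩ := hj _ (stdSol_mem hM k) ((hφ' _ _).2 ⟨_, stdSol_sol hM k⟩)
        exact ⟨i, hi, hi' ▸ stdSol_sol hM k⟩
    have hall := hM.ind (P := fun n => ∃ i, i < j ∧ Sol n (col Z i)) hC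
      ((hstd 0).2 ⟨0, by simp⟩) (fun n hn => by
        obtain ⟨k, rfl⟩ := (hstd n).1 hn
        exact (hstd _).2 ⟨k + 1, by push_cast; rfl⟩)
    obtain ⟨k, hk⟩ := (hstd a).1 (hall a)
    exact absurd (ha k) (by rw [hk]; exact lt_irrefl _)
  · by_cases hne : X.Nonempty
    · obtain ⟨m, hm, hmin⟩ := hM.hmin X hX hne
      obtain ⟨Y, hY, Y', hY', hYY', h1, h1', h2, h2'⟩ := hacc (m + 1)
      have key : ∀ Y : Set M, (∃ n : M, Sol n Y) → Agree (m + 1) X Y → Sol m Y := by
        rintro Y ⟨n, hn⟩ hag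
        have hmY : m ∈ Y := (hag m (lt_add_one_self m)).1 hm
        have hnm : n ≤ m := by
          by_contra hc
          exact hn.1 m (not_le.1 hc) hmY
        rcases lt_or_eq_of_le hnm with h3 | rfl
        · have h4 : n ∈ X := (hag n (h3.trans (lt_add_one_self m))).2 hn.2.1
          exact absurd (hmin n h4) (not_le.2 h3)
        · exact hn
      exact hYY' (sol_unique hM hY hY' (key Y ((hφ' _ _).1 h1) h2) (key Y' ((hφ' _ _).1 h1') h2'))
    · obtain ⟨Y, hY, Y', hY', hYY', h1, h1', h2, h2'⟩ := hacc a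
      obtain ⟨n, hn⟩ := (hφ' _ _).1 h1
      obtain ⟨k, rfl⟩ := sol_std hM hY hn
      exact hne ⟨_, (h2 _ (ha k)).2 hn.2.1⟩

/-- the universal family of definable sets -/
def UU (k : ℕ) (c : M) : Set M := {x | ∃ u b, bet u b 0 = x ∧ trip c u b ∈ Lev k}

theorem UU_fo (hM : Good M) (k : ℕ) {Γ : Type u} [Ctx M Γ] {f g : Γ → M} (hf : FOF f)
    (hg : FOF g) : FO M (fun e => g e ∈ UU k (f e)) := by
  have := hM.rca0
  have h1 : FO M (fun p : (PUnit.{u + 1} × M) × M => p.2 ∈ UU k p.1.2) := by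
    refine FO.ofAD (M := M) (Γ := (PUnit.{u + 1} × M) × M) EncF.unit.prod.prod
      (P := fun p X => ∃ u b, bet u b 0 = p.2 ∧ trip p.1.2 u b ∈ X) (X := fun _ => Lev k) ?_
      (FO.comap (P := fun p : PUnit.{u + 1} × M => p.2 ∈ Lev k) (lev_mem hM k)
        (CMap.unit.pair IsVar.last))
    exact AD.ex (AD.ex (AD.and (AD.bet T0.v1 T0.v0 (T0.const 0) T0.v2)
      (AD.memv (T0.v3.trip T0.v1 T0.v0))))
  exact FO.app2 (R := fun c x => x ∈ UU k c) h1 hf hg

theorem UU_mem (hM : Good M) (k : ℕ) (c : M) : UU k c ∈ defS M :=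
  UU_fo hM k (FOF.const c) FOF.v0

theorem exists_UU (hM : Good M) {X : Set M} (hX : X ∈ defS M) : ∃ k c, X = UU k c := by
  have := hM.rca0
  obtain ⟨φ, hφ⟩ := hX
  obtain ⟨k, c, hk⟩ := exists_lev (defS M) φ
  have hk' : ∀ u b, trip c u b ∈ Lev k ↔ bet u b 0 ∈ X := by
    intro u b
    rw [hk]
    have h1 := hφ (PUnit.unit, bet u b 0) (fun j => bet u b ((j : M) + 1))
    have h2 : Ctx.enc (M := M) ((PUnit.unit, bet u b 0) : PUnit.{u + 1} × M)
        (fun j => bet u b ((j : M) + 1)) = asg u b := by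
      funext j
      cases j with
      | zero =>
        show bet u b 0 = asg u b 0
        simp [asg]
      | succ j =>
        show bet u b ((j : M) + 1) = asg u b (j + 1)
        simp [asg]
    rw [h2] at h1
    exact h1
  refine ⟨k, c, ?_⟩
  ext x
  constructor
  · intro hx
    obtain ⟨u, b, hub⟩ := exists_code (S := defS M) (F := fun (_ : PUnit.{u + 1}) _ => x)
      (Tf.const _) PUnit.unit 1
    have hub0 := hub 0 zero_lt_one
    exact ⟨u, b, hub0, (hk' u b).2 (by rw [hub0]; exact hx)⟩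
  · rintro ⟨u, b, rfl, h⟩
    exact (hk' u b).1 h

theorem sigmaAC (hM : Good M) : SigmaAC (defS M) := by
  have := hM.rca0
  intro A v hex
  -- `A(n, U_k(c))` is definable in `n, c`
  have hAk : ∀ k : ℕ, FO M (fun p : (PUnit.{u + 1} × M) × M =>
      A.Holds (UU k p.2) (cons p.1.2 v)) := by
    intro k
    refine FO.ar A (Γ := (PUnit.{u + 1} × M) × M) (v := fun p => cons p.1.2 v)
      (X := fun p => UU k p.2) ?_ (UU_fo hM k FOF.v1 FOF.v0)
    intro i
    cases i with
    | zero => exact FOF.v1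
    | succ i => exact FOF.const _
  have hDk : ∀ k : ℕ, FO M (fun p : PUnit.{u + 1} × M =>
      ∃ c, A.Holds (UU k c) (cons p.2 v)) := fun k => FO.ex (hAk k)
  obtain ⟨N, hN⟩ := hM.hsat (fun k => {n | ∃ c, A.Holds (UU k c) (cons n v)}) hDk (by
    intro n
    obtain ⟨X, hX, hA⟩ := hex n
    obtain ⟨k, c, rfl⟩ := exists_UU hM hX
    exact ⟨k, c, hA⟩)
  -- the choice predicate
  let T : ℕ → M → M → Prop := fun k n m =>
    (∃ c, A.Holds (UU k c) (cons n v)) ∧ (¬ ∃ k', k' < k ∧ ∃ c, A.Holds (UU k' c) (cons n v)) ∧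
      ∃ c, A.Holds (UU k c) (cons n v) ∧ (∀ c', c' < c → ¬ A.Holds (UU k c') (cons n v)) ∧
        m ∈ UU k c
  have hT : ∀ k, FO M (fun p : (PUnit.{u + 1} × M) × M => T k p.1.2 p.2) := by
    intro k
    refine FO.and ?_ (FO.and (FO.not ?_) ?_)
    · exact FO.comap (P := fun p : PUnit.{u + 1} × M => ∃ c, A.Holds (UU k c) (cons p.2 v))
        (hDk k) (CMap.unit.pair IsVar.last.prev)
    · exact FO.finOr (P := fun k' (p : (PUnit.{u + 1} × M) × M) =>
        ∃ c, A.Holds (UU k' c) (cons p.1.2 v))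
        (fun k' => FO.comap (P := fun p : PUnit.{u + 1} × M =>
          ∃ c, A.Holds (UU k' c) (cons p.2 v)) (hDk k') (CMap.unit.pair IsVar.last.prev)) k
    · refine FO.ex (FO.and ?_ (FO.and (FO.all (FO.imp (FO.lt FOF.v0 FOF.v1) (FO.not ?_))) ?_))
      · exact FO.app2 (R := fun n c => A.Holds (UU k c) (cons n v)) (hAk k) FOF.v2 FOF.v0
      · exact FO.app2 (R := fun n c => A.Holds (UU k c) (cons n v)) (hAk k) FOF.v3 FOF.v0
      · exact UU_fo hM k FOF.v0 FOF.v1
  have hY : FO M (fun p : PUnit.{u + 1} × M => ∃ n m, p.2 = pair n m ∧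
      ∃ k, k < N + 1 ∧ T k n m) := by
    refine FO.ex (FO.ex (FO.and (FO.eq FOF.v2 (FOF.v1.pair FOF.v0)) ?_))
    exact FO.finOr (P := fun k (p : ((PUnit.{u + 1} × M) × M) × M) => T k p.1.2 p.2)
      (fun k => FO.app2 (R := fun n m => T k n m) (hT k) FOF.v1 FOF.v0) (N + 1)
  refine ⟨{z | ∃ n m, z = pair n m ∧ ∃ k, k < N + 1 ∧ T k n m}, hY, fun n => ?_⟩
  -- the least `k` and `c`
  have hk : ∃ k, k < N + 1 ∧ ∃ c, A.Holds (UU k c) (cons n v) := by
    obtain ⟨k, hk, hc⟩ := hN n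
    exact ⟨k, by omega, hc⟩
  classical
  let k := Nat.find hk
  obtain ⟨hkN, hkc⟩ := Nat.find_spec hk
  have hkmin : ¬ ∃ k', k' < k ∧ ∃ c, A.Holds (UU k' c) (cons n v) := by
    rintro ⟨k', hk', h⟩
    exact Nat.find_min hk hk' ⟨by omega, h⟩
  obtain ⟨c, hc, hcmin⟩ := hM.hmin {c | A.Holds (UU k c) (cons n v)}
    (FO.app2 (R := fun n c => A.Holds (UU k c) (cons n v)) (hAk k) (FOF.const n) FOF.v0) hkc
  have hcol : col {z | ∃ n m, z = pair n m ∧ ∃ k, k < N + 1 ∧ T k n m} n = UU k c := by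
    ext m
    constructor
    · rintro ⟨n', m', h, k', hk', h1, h2, c', hc', hc'min, hm⟩
      obtain ⟨rfl, rfl⟩ := pair_inj (defS M) h
      have e1 : k' = k := by
        rcases lt_trichotomy k' k with h3 | h3 | h3
        · exact absurd ⟨k', h3, h1⟩ hkmin
        · exact h3
        · exact absurd ⟨k, h3, hkc⟩ h2
      subst e1
      have e2 : c' = c := by
        apply le_antisymm
        · by_contra h3
          exact hc'min c (not_le.1 h3) hc
        · exact hcmin c' hc'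
      subst e2
      exact hm
    · intro hm
      exact ⟨n, m, rfl, k, hkN, hkc, hkmin, c, hc, fun c' hc' h =>
        absurd (hcmin c' h) (not_le.2 hc'), hm⟩
  rw [hcol]
  exact hc

theorem finAC_of_sigmaAC {S : Set (Set M)} [RCA0 M S] (h : SigmaAC S) : FinAC S := by
  intro A v hex
  refine h A v (fun n => ?_)
  obtain ⟨Z, hZ, j, hj, hZ'⟩ := hex n
  have h1 : col Z 0 ∈ S := set_mem (De.mem ((Tf.const 0).pair Tf.v0) hZ)
  exact ⟨col Z 0, h1, (hZ' _ h1).2 ⟨0, hj, rfl⟩⟩

end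

end Pool.Agent.RM
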