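import Pool.Agent.RM.Defs

/-!
# `Σ¹₁`-choice, finite-`Σ¹₁`-choice and the arithmetic Bolzano-Weierstrass principle

A structure for the language of second-order arithmetic is given by a discretely ordered
commutative semiring `M` (the numbers) and a family `S` of subsets of `M` (the sets).
-/

namespace Pool.Agent.RM

universe u

/-- Arithmetic formulas `A(X)` with one set variable `X`, with number parameters from `M` and set
parameters from `S`.  The formula `memv t` says that `t` is an element of `X`; the formula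
`all φ` is the number quantification `∀ x, φ` (the quantified variable has index `0`). -/
inductive Ar (M : Type u) (S : Set (Set M)) : Type u
  | eq : Tm M → Tm M → Ar M S
  | lt : Tm M → Tm M → Ar M S
  | mem : Tm M → S → Ar M S
  | memv : Tm M → Ar M S
  | neg : Ar M S → Ar M S
  | and : Ar M S → Ar M S → Ar M S
  | all : Ar M S → Ar M S

section

variable {M : Type u} [CommSemiring M] [LinearOrder M]

/-- Truth of an arithmetic formula, for a value `X` of the set variable and an assignment of
the number variables. -/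
def Ar.Holds {S : Set (Set M)} : Ar M S → Set M → (ℕ → M) → Prop
  | .eq s t, _, v => s.eval v = t.eval v
  | .lt s t, _, v => s.eval v < t.eval v
  | .mem t Z, _, v => t.eval v ∈ Z.1
  | .memv t, X, v => t.eval v ∈ X
  | .neg φ, X, v => ¬ φ.Holds X v
  | .and φ ψ, X, v => φ.Holds X v ∧ ψ.Holds X v
  | .all φ, X, v => ∀ x, φ.Holds X (cons x v)

/-- The column `Y^[n] = {m : ⟨n, m⟩ ∈ Y}`. -/
def col (Y : Set M) (n : M) : Set M := {m | pair n m ∈ Y}

/-- `(M, S)` satisfies the scheme of `Σ¹₁-AC₀`: if for each `n` there is a set `X` with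
`A(n, X)`, then there is a set `Y` with `A(n, Y^[n])` for each `n`. -/
def SigmaAC (S : Set (Set M)) : Prop :=
  ∀ (A : Ar M S) (v : ℕ → M), (∀ n, ∃ X ∈ S, A.Holds X (cons n v)) →
    ∃ Y ∈ S, ∀ n, A.Holds (col Y n) (cons n v)

/-- `(M, S)` satisfies the scheme of finite-`Σ¹₁-AC₀`: if for each `n` there is a non-empty finite
sequence `⟨X_i⟩_{i < j}` (the columns of a set `Z`) such that for every set `X`, `A(n, X)` holds
iff `X = X_i` for some `i < j`, then there is a set `Y` with `A(n, Y^[n])` for each `n`. -/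
def FinAC (S : Set (Set M)) : Prop :=
  ∀ (A : Ar M S) (v : ℕ → M),
    (∀ n, ∃ Z ∈ S, ∃ j, 0 < j ∧
      ∀ X ∈ S, (A.Holds X (cons n v) ↔ ∃ i, i < j ∧ X = col Z i)) →
    ∃ Y ∈ S, ∀ n, A.Holds (col Y n) (cons n v)

/-- `X` and `Y` lie in the same basic open set of level `k`. -/
def Agree (k : M) (X Y : Set M) : Prop := ∀ m, m < k → (m ∈ X ↔ m ∈ Y)

/-- `(M, S)` satisfies `ABW₀`: for each arithmetic predicate `A`, either some finite sequence of
sets `⟨Z^[i]⟩_{i < j}` lists every set `X` with `A(X)`, or there is an accumulation point, that is,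
a set `X` such that every neighbourhood of `X` contains two distinct sets `Y`, `Y'` with `A(Y)`
and `A(Y')`. -/
def ABW (S : Set (Set M)) : Prop :=
  ∀ (A : Ar M S) (v : ℕ → M),
    (∃ Z ∈ S, ∃ j, ∀ X ∈ S, A.Holds X v → ∃ i, i < j ∧ X = col Z i) ∨
    (∃ X ∈ S, ∀ k, ∃ Y ∈ S, ∃ Y' ∈ S, Y ≠ Y' ∧ A.Holds Y v ∧ A.Holds Y' v ∧
      Agree k X Y ∧ Agree k X Y')

end

end Pool.Agent.RM
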