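import Pool.Agent.RM.AD

/-!
# The hierarchy of universal relations
-/

set_option linter.unusedSectionVars false
set_option linter.unusedVariables false

namespace Pool.Agent.RM

universe u

section

variable {M : Type u} [CommSemiring M] [LinearOrder M] [IsStrictOrderedRing M]
  [CanonicallyOrderedAdd M]

def trip (c u b : M) : M := pair c (pair u b)

theorem trip_inj (S : Set (Set M)) [RCA0 M S] {c u b c' u' b' : M}
    (h : trip c u b = trip c' u' b') : c = c' ∧ u = u' ∧ b = b' := by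
  obtain ⟨h1, h2⟩ := pair_inj S h
  obtain ⟨h3, h4⟩ := pair_inj S h2
  exact ⟨h1, h3, h4⟩

/-- one step of the hierarchy -/
def JP (Q : M → Prop) (c u b : M) : Prop :=
  (∃ a₁ a₂, c = pair 0 (pair a₁ a₂) ∧ ¬ (Q (trip a₁ u b) ∧ Q (trip a₂ u b))) ∨
  (∃ L a, c = pair 1 (pair L a) ∧ ∃ u' b',
    (∀ j, j < L → ∃ y, bet u' b' (j + 1) = y ∧ bet u b j = y) ∧ Q (trip a u' b')) ∨
  (∃ a, c = pair 2 a ∧ Q (trip a u b)) ∨
  (∃ i j k, c = pair 3 (pair i (pair j k)) ∧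
    ∃ x y, bet u b i = x ∧ bet u b j = y ∧ bet u b k = x + y) ∨
  (∃ i j k, c = pair 4 (pair i (pair j k)) ∧
    ∃ x y, bet u b i = x ∧ bet u b j = y ∧ bet u b k = x * y) ∨
  (∃ i p, c = pair 5 (pair i p) ∧ bet u b i = p)

theorem bet_eq_iff (S : Set (Set M)) [RCA0 M S] {u b i r : M} :
    bet u b i = r ↔ r < 1 + (i + 1) * b ∧ ∃ c, u = (1 + (i + 1) * b) * c + r := by
  have hq : (0 : M) < 1 + (i + 1) * b := lt_of_lt_of_le zero_lt_one le_self_add
  constructor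
  · rintro rfl
    exact rem_spec S u hq
  · rintro ⟨h1, c, h2⟩
    exact rem_eq S h2 h1

section

variable {S : Set (Set M)} {Γ : Type u} [Ctx M Γ]

theorem AD.bet [RCA0 M S] {u b i r : Γ → M} (hu : T0 u) (hb : T0 b) (hi : T0 i) (hr : T0 r) :
    AD S (fun e X => bet (u e) (b e) (i e) = r e) := by
  have hq : T0 (fun e => 1 + (i e + 1) * b e) := (T0.const 1).add ((hi.add (T0.const 1)).mul hb)
  exact (AD.and (AD.lt hr hq) (AD.ex (P := fun e c X => u e = (1 + (i e + 1) * b e) * c + r e)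
    (AD.eq hu.weak ((hq.weak.mul T0.v0).add hr.weak)))).congr (fun e X => (bet_eq_iff S).symm)

theorem T0.trip {c u b : Γ → M} (hc : T0 c) (hu : T0 u) (hb : T0 b) :
    T0 (fun e => trip (c e) (u e) (b e)) := hc.pair (hu.pair hb)

theorem AD.JP [RCA0 M S] {Q : Γ → M → Set M → Prop}
    (hQ : AD S (fun (p : Γ × M) X => Q p.1 p.2 X)) {c u b : Γ → M}
    (hc : T0 c) (hu : T0 u) (hb : T0 b) :
    AD S (fun e X => JP (fun z => Q e z X) (c e) (u e) (b e)) := by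
  unfold RM.JP
  refine AD.or ?_ (AD.or ?_ (AD.or ?_ (AD.or ?_ (AD.or ?_ ?_))))
  · refine AD.ex (AD.ex (AD.and ?_ (AD.not (AD.and ?_ ?_))))
    · exact AD.eq hc.weak.weak ((T0.const 0).pair (T0.v1.pair T0.v0))
    · exact AD.subst (P := fun (p : (Γ × M) × M) z X => Q p.1.1 z X)
        (hQ.comap (CMap.fst.prev.prev.pair IsVar.last)) (T0.v1.trip hu.weak.weak hb.weak.weak)
    · exact AD.subst (P := fun (p : (Γ × M) × M) z X => Q p.1.1 z X)
        (hQ.comap (CMap.fst.prev.prev.pair IsVar.last)) (T0.v0.trip hu.weak.weak hb.weak.weak)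
  · refine AD.ex (AD.ex (AD.and ?_ (AD.ex (AD.ex (AD.and (AD.all (AD.imp ?_ (AD.ex
      (AD.and ?_ ?_)))) ?_)))))
    · exact AD.eq hc.weak.weak ((T0.const 1).pair (T0.v1.pair T0.v0))
    · exact AD.lt T0.v0 T0.v4
    · exact AD.bet T0.v3 T0.v2 (T0.v1.add (T0.const 1)) T0.v0
    · exact AD.bet hu.weak.weak.weak.weak.weak.weak hb.weak.weak.weak.weak.weak.weak T0.v1 T0.v0
    · exact AD.subst (P := fun (p : (((Γ × M) × M) × M) × M) z X => Q p.1.1.1.1 z X)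
        (hQ.comap (CMap.fst.prev.prev.prev.prev.pair IsVar.last)) (T0.v2.trip T0.v1 T0.v0)
  · refine AD.ex (AD.and ?_ ?_)
    · exact AD.eq hc.weak ((T0.const 2).pair T0.v0)
    · exact AD.subst (P := fun (p : Γ × M) z X => Q p.1 z X)
        (hQ.comap (CMap.fst.prev.pair IsVar.last)) (T0.v0.trip hu.weak hb.weak)
  · refine AD.ex (AD.ex (AD.ex (AD.and ?_ (AD.ex (AD.ex (AD.and ?_ (AD.and ?_ ?_)))))))
    · exact AD.eq hc.weak.weak.weak ((T0.const 3).pair (T0.v2.pair (T0.v1.pair T0.v0)))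
    · exact AD.bet hu.weak.weak.weak.weak.weak hb.weak.weak.weak.weak.weak T0.v4 T0.v1
    · exact AD.bet hu.weak.weak.weak.weak.weak hb.weak.weak.weak.weak.weak T0.v3 T0.v0
    · exact AD.bet hu.weak.weak.weak.weak.weak hb.weak.weak.weak.weak.weak T0.v2
        (T0.v1.add T0.v0)
  · refine AD.ex (AD.ex (AD.ex (AD.and ?_ (AD.ex (AD.ex (AD.and ?_ (AD.and ?_ ?_)))))))
    · exact AD.eq hc.weak.weak.weak ((T0.const 4).pair (T0.v2.pair (T0.v1.pair T0.v0)))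
    · exact AD.bet hu.weak.weak.weak.weak.weak hb.weak.weak.weak.weak.weak T0.v4 T0.v1
    · exact AD.bet hu.weak.weak.weak.weak.weak hb.weak.weak.weak.weak.weak T0.v3 T0.v0
    · exact AD.bet hu.weak.weak.weak.weak.weak hb.weak.weak.weak.weak.weak T0.v2
        (T0.v1.mul T0.v0)
  · refine AD.ex (AD.ex (AD.and ?_ ?_))
    · exact AD.eq hc.weak.weak ((T0.const 5).pair (T0.v1.pair T0.v0))
    · exact AD.bet hu.weak.weak hb.weak.weak T0.v1 T0.v0

end

def Jset (Y : Set M) : Set M := {z | ∃ c u b, z = trip c u b ∧ JP (fun z => z ∈ Y) c u b}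

/-- the levels -/
def Lev : ℕ → Set M
  | 0 => ∅
  | n + 1 => Jset (Lev n)

theorem mem_Jset (S : Set (Set M)) [RCA0 M S] {Y : Set M} {c u b : M} :
    trip c u b ∈ Jset Y ↔ JP (fun z => z ∈ Y) c u b := by
  constructor
  · rintro ⟨c', u', b', h, h'⟩
    obtain ⟨rfl, rfl, rfl⟩ := trip_inj S h
    exact h'
  · intro h
    exact ⟨c, u, b, rfl, h⟩

/-- `X` codes the first `n` levels -/
def Sol (n : M) (X : Set M) : Prop :=
  (∀ x, x < n → x ∉ X) ∧ n ∈ X ∧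
  (∀ x, x ∈ X → n < x → ∃ i z, i ≤ n ∧ x = n + 1 + pair i z) ∧
  (∀ z, ¬ n + 1 + pair 0 z ∈ X) ∧
  (∀ i, i < n → ∀ z, (n + 1 + pair (i + 1) z ∈ X ↔
    ∃ c u b, z = trip c u b ∧ JP (fun z' => n + 1 + pair i z' ∈ X) c u b))

section

variable {S : Set (Set M)} [RCA0 M S]

theorem AD.Jset' : AD S (fun (p : PUnit.{u + 1} × M) X =>
    ∃ c u b, p.2 = trip c u b ∧ RM.JP (fun z => z ∈ X) c u b) := by
  refine AD.ex (AD.ex (AD.ex (AD.and ?_ ?_)))
  · exact AD.eq T0.v3 (T0.v2.trip T0.v1 T0.v0)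
  · exact AD.JP (Q := fun (_ : (((PUnit.{u + 1} × M) × M) × M) × M) z X => z ∈ X)
      (AD.memv T0.v0) T0.v2 T0.v1 T0.v0

theorem AD.sol : AD S (fun (p : PUnit.{u + 1} × M) X => Sol p.2 X) := by
  refine AD.and ?_ (AD.and ?_ (AD.and ?_ (AD.and ?_ ?_)))
  · exact AD.all (AD.imp (AD.lt T0.v0 T0.v1) (AD.not (AD.memv T0.v0)))
  · exact AD.memv T0.v0
  · refine AD.all (AD.imp (AD.memv T0.v0) (AD.imp (AD.lt T0.v1 T0.v0) (AD.ex (AD.ex
      (AD.and (AD.le T0.v1 T0.v3) ?_)))))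
    exact AD.eq T0.v2 ((T0.v3.add (T0.const 1)).add (T0.v1.pair T0.v0))
  · exact AD.all (AD.not (AD.memv ((T0.v1.add (T0.const 1)).add ((T0.const 0).pair T0.v0))))
  · refine AD.all (AD.imp (AD.lt T0.v0 T0.v1) (AD.all (AD.iff ?_ ?_)))
    · exact AD.memv ((T0.v2.add (T0.const 1)).add ((T0.v1.add (T0.const 1)).pair T0.v0))
    · refine AD.ex (AD.ex (AD.ex (AD.and ?_ ?_)))
      · exact AD.eq T0.v3 (T0.v2.trip T0.v1 T0.v0)
      · refine AD.JP (Q := fun (p : (((((PUnit.{u + 1} × M) × M) × M) × M) × M) × M) z' X =>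
          p.1.1.1.1.1.2 + 1 + pair p.1.1.1.1.2 z' ∈ X) ?_ T0.v2 T0.v1 T0.v0
        exact AD.memv ((T0.v6.add (T0.const 1)).add (T0.v5.pair T0.v0))

end

end

end Pool.Agent.RM
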