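import Pool.Agent.RM.Hyp

/-!
# The ultrapower of `ℕ`
-/

set_option linter.unusedSectionVars false
set_option linter.unusedVariables false

namespace Pool.Agent.RM

open Filter

/-- the ultrapower of `ℕ` by a non-principal ultrafilter -/
abbrev UM : Type := Germ (hyperfilter ℕ : Filter ℕ) ℕ

def Rf.map {M N : Type} (f : M → N) : Rf M → Rf N
  | .add i j k => .add i j k
  | .mul i j k => .mul i j k
  | .par i p => .par i (f p)
  | .nand φ ψ => .nand (φ.map f) (ψ.map f)
  | .ex φ => .ex (φ.map f)

/-- a representative -/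
noncomputable def rep (x : UM) : ℕ → ℕ := Quotient.out x

theorem rep_coe (x : UM) : ((rep x : ℕ → ℕ) : UM) = x := Quotient.out_eq x

theorem rep_ae (f : ℕ → ℕ) : ∀ᶠ i in (hyperfilter ℕ : Filter ℕ), rep (f : UM) i = f i :=
  Germ.coe_eq.1 (rep_coe (f : UM))

theorem eq_iff_rep {x y : UM} :
    x = y ↔ ∀ᶠ i in (hyperfilter ℕ : Filter ℕ), rep x i = rep y i := by
  rw [← rep_coe x, ← rep_coe y, Germ.coe_eq]
  constructor
  · intro h
    have h1 := rep_ae (rep x)
    have h2 := rep_ae (rep y)
    filter_upwards [h, h1, h2] with i a b c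
    rw [b, c, a]
  · intro h
    have h1 := rep_ae (rep x)
    have h2 := rep_ae (rep y)
    filter_upwards [h, h1, h2] with i a b c
    rw [← b, ← c, a]

theorem rep_add (x y : UM) :
    ∀ᶠ i in (hyperfilter ℕ : Filter ℕ), rep (x + y) i = rep x i + rep y i := by
  have h : x + y = ((fun i => rep x i + rep y i : ℕ → ℕ) : UM) := by
    conv_lhs => rw [← rep_coe x, ← rep_coe y]
    rfl
  rw [h]
  exact rep_ae _

theorem rep_mul (x y : UM) :
    ∀ᶠ i in (hyperfilter ℕ : Filter ℕ), rep (x * y) i = rep x i * rep y i := by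
  have h : x * y = ((fun i => rep x i * rep y i : ℕ → ℕ) : UM) := by
    conv_lhs => rw [← rep_coe x, ← rep_coe y]
    rfl
  rw [h]
  exact rep_ae _

theorem le_iff_rep {x y : UM} :
    x ≤ y ↔ ∀ᶠ i in (hyperfilter ℕ : Filter ℕ), rep x i ≤ rep y i := by
  conv_lhs => rw [← rep_coe x, ← rep_coe y]
  exact Germ.coe_le

theorem los (φ : Rf UM) : ∀ v : ℕ → UM, φ.Holds v ↔
    ∀ᶠ i in (hyperfilter ℕ : Filter ℕ), (φ.map (fun p => rep p i)).Holds (fun n => rep (v n) i) := by
  induction φ with
  | add i j k =>
    intro v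
    simp only [Rf.Holds, Rf.map]
    rw [eq_iff_rep]
    have h := rep_add (v i) (v j)
    constructor
    · intro h'
      filter_upwards [h, h'] with l a b
      rw [← a, b]
    · intro h'
      filter_upwards [h, h'] with l a b
      rw [a, b]
  | mul i j k =>
    intro v
    simp only [Rf.Holds, Rf.map]
    rw [eq_iff_rep]
    have h := rep_mul (v i) (v j)
    constructor
    · intro h'
      filter_upwards [h, h'] with l a b
      rw [← a, b]
    · intro h'
      filter_upwards [h, h'] with l a b
      rw [a, b]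
  | par i p =>
    intro v
    simp only [Rf.Holds, Rf.map]
    exact eq_iff_rep
  | nand φ ψ ih ih' =>
    intro v
    simp only [Rf.Holds, Rf.map]
    rw [ih, ih', ← eventually_and, Ultrafilter.eventually_not]
  | ex φ ih =>
    intro v
    simp only [Rf.Holds, Rf.map]
    constructor
    · rintro ⟨x, hx⟩
      rw [ih] at hx
      filter_upwards [hx] with i hi
      refine ⟨rep x i, ?_⟩
      have : (fun n => rep (cons x v n) i) = cons (rep x i) (fun n => rep (v n) i) := by
        funext n
        cases n <;> rfl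
      rw [← this]
      exact hi
    · intro h
      classical
      let f : ℕ → ℕ := fun i =>
        if h : ∃ x, (φ.map (fun p => rep p i)).Holds (cons x (fun n => rep (v n) i)) then
          Classical.choose h else 0
      refine ⟨(f : UM), (ih _).2 ?_⟩
      filter_upwards [h, rep_ae f] with i hi hf
      have : (fun n => rep (cons (f : UM) v n) i) = cons (f i) (fun n => rep (v n) i) := by
        funext n
        cases n with
        | zero => exact hf
        | succ n => rfl
      rw [this]
      have hfi : f i = Classical.choose hi := dif_pos hi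
      rw [hfi]
      exact Classical.choose_spec hi

/-- definable sets are internal -/
theorem exists_internal {X : Set UM} (hX : X ∈ defS UM) : ∃ A : ℕ → Set ℕ, ∀ x : UM,
    x ∈ X ↔ ∀ᶠ i in (hyperfilter ℕ : Filter ℕ), rep x i ∈ A i := by
  obtain ⟨φ, hφ⟩ := hX
  refine ⟨fun i => {y | (φ.map (fun p => rep p i)).Holds (cons y (fun _ => rep (0 : UM) i))},
    fun x => ?_⟩
  refine (hφ (PUnit.unit, x) (fun _ => 0)).symm.trans ?_
  show φ.Holds (cons x (fun _ => (0 : UM))) ↔ _
  rw [los]
  refine eventually_congr (Eventually.of_forall fun i => ?_)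
  have : (fun n => rep (cons x (fun _ => (0 : UM)) n) i) =
      cons (rep x i) (fun _ => rep (0 : UM) i) := by
    funext n
    cases n <;> rfl
  rw [this]
  rfl

theorem internal_coe {A : ℕ → Set ℕ} (f : ℕ → ℕ) :
    (∀ᶠ i in (hyperfilter ℕ : Filter ℕ), rep (f : UM) i ∈ A i) ↔
      ∀ᶠ i in (hyperfilter ℕ : Filter ℕ), f i ∈ A i := by
  constructor
  · intro h
    filter_upwards [h, rep_ae f] with i a b
    rw [← b]; exact a
  · intro h
    filter_upwards [h, rep_ae f] with i a b
    rw [b]; exact a

theorem good_UM : Good UM where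
  disc := by
    intro x hx
    by_contra h
    have h1 : x < 1 := not_le.1 h
    rw [← rep_coe x] at hx h1
    have h2 : ∀ᶠ i in (hyperfilter ℕ : Filter ℕ), 0 < rep x i := Germ.coe_pos.1 hx
    have h3 : ∀ᶠ i in (hyperfilter ℕ : Filter ℕ), rep x i < 1 := Germ.coe_lt.1 h1
    obtain ⟨i, hi, hi'⟩ := (h2.and h3).exists
    omega
  hmin := by
    intro X hX ⟨x, hx⟩
    obtain ⟨A, hA⟩ := exists_internal hX
    refine ⟨((fun i => sInf (A i) : ℕ → ℕ) : UM), ?_, fun y hy => ?_⟩
    · rw [hA, internal_coe]
      filter_upwards [(hA x).1 hx] with i hi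
      exact Nat.sInf_mem ⟨_, hi⟩
    · rw [← rep_coe y]
      apply Germ.coe_le.2
      filter_upwards [(hA y).1 hy] with i hi
      exact Nat.sInf_le hi
  hsat := by
    intro D hD hcov
    by_contra hc
    push Not at hc
    choose A hA using fun n => exists_internal (hD n)
    have hG : ∀ N, ∀ᶠ i in (hyperfilter ℕ : Filter ℕ), ∃ y, ∀ k, k ≤ N → y ∉ A k i := by
      intro N
      obtain ⟨x, hx⟩ := hc N
      have h1 : ∀ k, k ≤ N → ∀ᶠ i in (hyperfilter ℕ : Filter ℕ), rep x i ∉ A k i := by
        intro k hk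
        have h2 := hx k hk
        rw [hA k x, ← Ultrafilter.eventually_not] at h2
        exact h2
      have h3 : ∀ᶠ i in (hyperfilter ℕ : Filter ℕ), ∀ k ∈ Finset.range (N + 1), rep x i ∉ A k i := by
        rw [eventually_all_finset]
        intro k hk
        exact h1 k (by simpa [Nat.lt_succ_iff] using hk)
      filter_upwards [h3] with i hi
      exact ⟨rep x i, fun k hk => hi k (by simpa [Nat.lt_succ_iff] using hk)⟩
    classical
    let P : ℕ → ℕ → Prop := fun i N => ∃ y, ∀ k, k ≤ N → y ∉ A k i
    let f : ℕ → ℕ := fun i =>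
      if h : P i (Nat.findGreatest (P i) i) then Classical.choose h else 0
    obtain ⟨n, hn⟩ := hcov (f : UM)
    rw [hA n, internal_coe] at hn
    have h4 : ∀ᶠ i in (hyperfilter ℕ : Filter ℕ), n ≤ i :=
      (eventually_ge_atTop n).filter_mono (Nat.cofinite_eq_atTop ▸ hyperfilter_le_cofinite)
    obtain ⟨i, h5, h6, h7⟩ := (hn.and ((hG n).and h4)).exists
    have h8 : P i (Nat.findGreatest (P i) i) := Nat.findGreatest_spec h7 h6
    have h9 : n ≤ Nat.findGreatest (P i) i := Nat.le_findGreatest h7 h6
    have hfi : f i = Classical.choose h8 := dif_pos h8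
    rw [hfi] at h5
    exact Classical.choose_spec h8 n h9 h5
  hns := by
    refine ⟨((fun i => i : ℕ → ℕ) : UM), fun n => ?_⟩
    have h4 : ∀ᶠ i in (hyperfilter ℕ : Filter ℕ), n < i :=
      (eventually_gt_atTop n).filter_mono (Nat.cofinite_eq_atTop ▸ hyperfilter_le_cofinite)
    have : ((n : ℕ) : UM) = ((fun _ => n : ℕ → ℕ) : UM) := rfl
    rw [this]
    exact Germ.coe_lt.2 h4

end Pool.Agent.RM
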