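import Pool.Agent.RM.Util

/-!
# The order by the list of colours in order of recency
-/

set_option linter.unusedSectionVars false
set_option linter.unusedVariables false

namespace Pool.Agent.RM

universe u

section

variable {M : Type u} [CommSemiring M] [LinearOrder M] [IsStrictOrderedRing M]
  [CanonicallyOrderedAdd M]

/-- `z` is the last occurrence, before `x`, of its colour -/
def In (g : M → M) (x z : M) : Prop := z < x ∧ ∀ w, w < x → z < w → g w ≠ g z

/-- A colouring with `a` colours, all classes finite, with auxiliary functions. -/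
structure Lru (S : Set (Set M)) (a : M) where
  g : M → M
  hg : Fun1 S g
  g_lt : ∀ x, g x < a
  g_id : ∀ x, x < a → g x = x
  fin : ∀ v, ∃ b, ∀ x, g x = v → x ≤ b
  N : M → M → M
  W : M → M → M
  E : M → M
  hN : Fun2 S N
  hW : Fun2 S W
  hE : Fun1 S E
  N0 : ∀ x, N x 0 = 0
  N1 : ∀ x z, In g x z → N x (z + 1) = N x z + 1
  N2 : ∀ x z, ¬ In g x z → N x (z + 1) = N x z
  W0 : ∀ x, W x 0 = 0
  W1 : ∀ x z, In g x z → W x (z + 1) = W x z * a + g z
  W2 : ∀ x z, ¬ In g x z → W x (z + 1) = W x z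
  E0 : E 0 = 1
  E1 : ∀ n, E (n + 1) = E n * a

namespace Lru

variable {S : Set (Set M)} [RCA0 M S] {a : M} (D : Lru S a)

include D in
theorem a_pos : 0 < a := lt_of_le_of_lt zero_le (D.g_lt 0)

theorem rel_in : Rel2 S (fun x z => In D.g x z) := by
  refine De.and (De.lt Tf.v0 Tf.v1) (De.ball Tf.v1 (De.imp (De.lt Tf.v1 Tf.v0) (De.not ?_)))
  exact De.eq (Tf.app1 D.hg Tf.v0) (Tf.app1 D.hg Tf.v1)

theorem in_last (x : M) : In D.g (x + 1) x :=
  ⟨lt_add_one_self x, fun w h1 h2 => absurd h2 (not_lt.2 ((lt_add_one_iff' S).1 h1))⟩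

theorem in_mono {x y z : M} (hxy : x ≤ y) (h : In D.g y z) (hz : z < x) : In D.g x z :=
  ⟨hz, fun w h1 h2 => h.2 w (lt_of_lt_of_le h1 hxy) h2⟩

/-- the counting function is nondecreasing in the second argument -/
theorem N_mono (x : M) {z z' : M} (h : z ≤ z') : D.N x z ≤ D.N x z' := by
  have key : ∀ z', z ≤ z' → D.N x z ≤ D.N x z' := by
    refine ind1 (S := S) ?_ ?_ ?_
    · exact (De.imp (De.le (Tf.const z) Tf.v0)
        (De.le (Tf.const _) (Tf.app2 D.hN (Tf.const x) Tf.v0))).1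
    · intro h
      rw [le_antisymm h zero_le]
    · intro w ih h
      rcases lt_or_eq_of_le h with h1 | h1
      · rw [lt_add_one_iff' S] at h1
        refine (ih h1).trans ?_
        by_cases hin : In D.g x w
        · rw [D.N1 x w hin]; exact le_self_add
        · rw [D.N2 x w hin]
      · rw [h1]
  exact key z' h

theorem N_anti {x y : M} (hxy : x ≤ y) : ∀ z, z ≤ x → D.N y z ≤ D.N x z := by
  refine ind1 (S := S) ?_ ?_ ?_
  · exact (De.imp (De.le Tf.v0 (Tf.const x))
      (De.le (Tf.app2 D.hN (Tf.const y) Tf.v0) (Tf.app2 D.hN (Tf.const x) Tf.v0))).1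
  · intro _
    rw [D.N0, D.N0]
  · intro z ih hz
    have hz' : z < x := (add_one_le_iff' S).1 hz
    by_cases hin : In D.g y z
    · rw [D.N1 y z hin, D.N1 x z (D.in_mono hxy hin hz')]
      exact add_le_add_left (ih hz'.le) 1
    · rw [D.N2 y z hin]
      refine (ih hz'.le).trans ?_
      by_cases hin' : In D.g x z
      · rw [D.N1 x z hin']; exact le_self_add
      · rw [D.N2 x z hin']

/-- if an element of `F_x` is lost, the count is strictly smaller -/
theorem N_anti_lt {x y z0 : M} (hxy : x ≤ y) (h1 : In D.g x z0) (h2 : ¬ In D.g y z0) :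
    ∀ z, z ≤ x → z0 < z → D.N y z + 1 ≤ D.N x z := by
  refine ind1 (S := S) ?_ ?_ ?_
  · exact (De.imp (De.le Tf.v0 (Tf.const x)) (De.imp (De.lt (Tf.const z0) Tf.v0)
      (De.le ((Tf.app2 D.hN (Tf.const y) Tf.v0).add (Tf.const 1))
        (Tf.app2 D.hN (Tf.const x) Tf.v0)))).1
  · intro _ h
    exact absurd h (not_lt.2 zero_le)
  · intro z ih hz hz0
    have hz' : z < x := (add_one_le_iff' S).1 hz
    rcases lt_or_eq_of_le ((lt_add_one_iff' S).1 hz0) with h3 | rfl
    · by_cases hin : In D.g y z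
      · rw [D.N1 y z hin, D.N1 x z (D.in_mono hxy hin hz')]
        exact add_le_add_left (ih hz'.le h3) 1
      · rw [D.N2 y z hin]
        refine (ih hz'.le h3).trans ?_
        by_cases hin' : In D.g x z
        · rw [D.N1 x z hin']; exact le_self_add
        · rw [D.N2 x z hin']
    · rw [D.N2 y z0 h2, D.N1 x z0 h1]
      exact add_le_add_left (D.N_anti hxy z0 hz'.le) 1

theorem N_base : ∀ z, z ≤ a → D.N a z = z := by
  refine ind1 (S := S) ?_ ?_ ?_
  · exact (De.imp (De.le Tf.v0 (Tf.const a))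
      (De.eq (Tf.app2 D.hN (Tf.const a) Tf.v0) Tf.v0)).1
  · intro _
    rw [D.N0]
  · intro z ih hz
    have hz' : z < a := (add_one_le_iff' S).1 hz
    rw [D.N1 a z, ih hz'.le]
    refine ⟨hz', fun w h1 h2 => ?_⟩
    rw [D.g_id w h1, D.g_id z hz']
    exact h2.ne'

/-- there are exactly `a` last occurrences before `x`, if `a ≤ x` -/
theorem N_total : ∀ x, a ≤ x → D.N x x = a := by
  refine ind1 (S := S) ?_ ?_ ?_
  · exact (De.imp (De.le (Tf.const a) Tf.v0)
      (De.eq (Tf.app2 D.hN Tf.v0 Tf.v0) (Tf.const a))).1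
  · intro h
    exact absurd D.a_pos (not_lt.2 h)
  · intro x ih hx
    rcases lt_or_eq_of_le hx with h1 | h1
    · rw [lt_add_one_iff' S] at h1
      -- the previous occurrence of the colour of `x`
      obtain ⟨z0, ⟨hz0, hgz0⟩, hmax⟩ : ∃ z0, (z0 < x ∧ D.g z0 = D.g x) ∧
          ∀ z, (z < x ∧ D.g z = D.g x) → z ≤ z0 := by
        refine greatest1 (S := S) (P := fun z => z < x ∧ D.g z = D.g x) ?_ ?_ x (fun z hz => hz.1.le)
        · exact (De.and (De.lt Tf.v0 (Tf.const x))
            (De.eq (Tf.app1 D.hg Tf.v0) (Tf.const _))).1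
        · exact ⟨D.g x, lt_of_lt_of_le (D.g_lt x) h1, D.g_id _ (D.g_lt x)⟩
      have hin0 : In D.g x z0 := by
        refine ⟨hz0, fun w h2 h3 h4 => ?_⟩
        exact absurd (hmax w ⟨h2, h4.trans hgz0⟩) (not_le.2 h3)
      have hin : ∀ z, z < x → z ≠ z0 → (In D.g (x + 1) z ↔ In D.g x z) := by
        intro z hz hne
        refine ⟨fun h => D.in_mono le_self_add h hz, fun h => ⟨h.1.trans (lt_add_one_self x),
          fun w h2 h3 => ?_⟩⟩
        rcases lt_or_eq_of_le ((lt_add_one_iff' S).1 h2) with h4 | rfl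
        · exact h.2 w h4 h3
        · intro h5
          have h6 : z < z0 := lt_of_le_of_ne (hmax z ⟨hz, h5.symm⟩) hne
          exact h.2 z0 hz0 h6 (hgz0.trans h5)
      have hnin : ¬ In D.g (x + 1) z0 := fun h => h.2 x (lt_add_one_self x) hz0 hgz0.symm
      have e1 : ∀ z, z ≤ z0 → D.N (x + 1) z = D.N x z := by
        refine ind1 (S := S) ?_ ?_ ?_
        · exact (De.imp (De.le Tf.v0 (Tf.const z0)) (De.eq (Tf.app2 D.hN (Tf.const _) Tf.v0)
            (Tf.app2 D.hN (Tf.const _) Tf.v0))).1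
        · intro _
          rw [D.N0, D.N0]
        · intro z ih hz
          have hz' : z < z0 := (add_one_le_iff' S).1 hz
          have hiff := hin z (hz'.trans hz0) hz'.ne
          by_cases h : In D.g x z
          · rw [D.N1 _ _ (hiff.2 h), D.N1 _ _ h, ih hz'.le]
          · rw [D.N2 _ _ (fun h' => h (hiff.1 h')), D.N2 _ _ h, ih hz'.le]
      have e2 : ∀ z, z0 < z → z ≤ x → D.N (x + 1) z + 1 = D.N x z := by
        refine ind1 (S := S) ?_ ?_ ?_
        · exact (De.imp (De.lt (Tf.const z0) Tf.v0) (De.imp (De.le Tf.v0 (Tf.const x))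
            (De.eq ((Tf.app2 D.hN (Tf.const _) Tf.v0).add (Tf.const 1))
            (Tf.app2 D.hN (Tf.const _) Tf.v0)))).1
        · intro h
          exact absurd h (not_lt.2 zero_le)
        · intro z ih hz0' hz
          have hz' : z < x := (add_one_le_iff' S).1 hz
          rcases lt_or_eq_of_le ((lt_add_one_iff' S).1 hz0') with h3 | rfl
          · have hiff := hin z hz' h3.ne'
            by_cases h : In D.g x z
            · rw [D.N1 _ _ (hiff.2 h), D.N1 _ _ h, ih h3 hz'.le]
            · rw [D.N2 _ _ (fun h' => h (hiff.1 h')), D.N2 _ _ h, ih h3 hz'.le]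
          · rw [D.N2 _ _ hnin, D.N1 _ _ hin0, e1 z0 le_rfl]
      rw [D.N1 _ _ (D.in_last x), e2 x hz0 le_rfl, ih h1]
    · rw [← h1]
      exact D.N_base a le_rfl

/-- the comparison of `W` -/
theorem W_bound (x z : M) : ∀ z', z ≤ z' → ∃ d, D.N x z + d = D.N x z' ∧
    D.W x z * D.E d ≤ D.W x z' ∧ D.W x z' < (D.W x z + 1) * D.E d := by
  refine ind1 (S := S) ?_ ?_ ?_
  · refine Sg.imp (De.le (Tf.const z) Tf.v0) (Sg.ex (De.and ?_ (De.and ?_ ?_)).1)
    · exact De.eq ((Tf.const _).add Tf.v0) (Tf.app2 D.hN (Tf.const x) Tf.v1)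
    · exact De.le ((Tf.const _).mul (Tf.app1 D.hE Tf.v0)) (Tf.app2 D.hW (Tf.const x) Tf.v1)
    · exact De.lt (Tf.app2 D.hW (Tf.const x) Tf.v1) ((Tf.const _).mul (Tf.app1 D.hE Tf.v0))
  · intro h
    have : z = 0 := le_antisymm h zero_le
    subst this
    exact ⟨0, by simp, by simp [D.E0], by simp [D.E0]⟩
  · intro z' ih h
    rcases lt_or_eq_of_le h with h1 | rfl
    · rw [lt_add_one_iff' S] at h1
      obtain ⟨d, h2, h3, h4⟩ := ih h1
      by_cases hin : In D.g x z'
      · refine ⟨d + 1, ?_, ?_, ?_⟩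
        · rw [D.N1 _ _ hin, ← h2]; ring
        · rw [D.W1 _ _ hin, D.E1]
          calc D.W x z * (D.E d * a) = (D.W x z * D.E d) * a := by ring
            _ ≤ D.W x z' * a := by gcongr
            _ ≤ _ := le_self_add
        · rw [D.W1 _ _ hin, D.E1]
          have h5 : D.W x z' + 1 ≤ (D.W x z + 1) * D.E d := (add_one_le_iff' S).2 h4
          calc D.W x z' * a + D.g z' < D.W x z' * a + a := by gcongr; exact D.g_lt z'
            _ = (D.W x z' + 1) * a := by ring
            _ ≤ ((D.W x z + 1) * D.E d) * a := by gcongr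
            _ = _ := by ring
      · exact ⟨d, by rw [D.N2 _ _ hin, h2], by rw [D.W2 _ _ hin]; exact h3,
          by rw [D.W2 _ _ hin]; exact h4⟩
    · exact ⟨0, by simp, by simp [D.E0], by simp [D.E0]⟩

end Lru

end

end Pool.Agent.RM
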