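import Pool.Agent.RM.Pigeon

/-!
# `SADS` and the principle `P` are equivalent over `RCA₀`
-/

set_option linter.unusedSectionVars false
set_option linter.unusedVariables false

namespace Pool.Agent.RM

universe u

section

variable {M : Type u} [CommSemiring M] [LinearOrder M] [IsStrictOrderedRing M]
  [CanonicallyOrderedAdd M] {S : Set (Set M)} [RCA0 M S]

section

variable {Γ : Type u} [Ctx M Γ]

/-- selection -/
theorem Sg.select {P : Γ → M → Prop} (h : Sg S (fun p : Γ × M => P p.1 p.2))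
    (hex : ∀ e, ∃ x, P e x) : ∃ f : Γ → M, Tf S f ∧ ∀ e, P e (f e) := by
  obtain ⟨Q, hQ, h⟩ := h
  obtain ⟨t, ht, ht'⟩ := exists_mu (S := S)
    (P := fun (e : Γ) t => ∃ x, x < t + 1 ∧ ∃ w, w < t + 1 ∧ Q (e, x) w)
    (De.bex (Tf.v0.add (Tf.const 1)) (De.bex (Tf.v1.add (Tf.const 1)) (De.of0
      (hQ.comap ((CMap.fst.prev.prev.pair IsVar.last.prev).pair IsVar.last))))) (by
    intro e
    obtain ⟨x, hx⟩ := hex e
    obtain ⟨w, hw⟩ := (h (e, x)).1 hx
    exact ⟨max x w, x, lt_add_one_of_le' (le_max_left _ _), w,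
      lt_add_one_of_le' (le_max_right _ _), hw⟩)
  obtain ⟨f, hf, hf'⟩ := exists_mu (S := S)
    (P := fun (e : Γ) x => ∃ w, w < t e + 1 ∧ Q (e, x) w)
    (De.bex (ht.weak.add (Tf.const 1)) (De.of0
      (hQ.comap ((CMap.fst.prev.pair IsVar.last.prev).pair IsVar.last)))) (by
    intro e
    obtain ⟨x, _, w, hw, hQ'⟩ := (ht' e).1
    exact ⟨x, w, hw, hQ'⟩)
  refine ⟨f, hf, fun e => ?_⟩
  obtain ⟨w, _, hw⟩ := (hf' e).1
  exact (h (e, f e)).2 ⟨w, hw⟩

end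

/-! ### from `P` to `SADS` -/

theorem exists_seq {T R : Set M} (hT : T ∈ S) {r : M → M → Prop} (hr : Rel2 S r)
    (htrans : ∀ x ∈ T, ∀ y ∈ T, ∀ z ∈ T, r x y → r y z → r x z)
    {t0 : M} (ht0 : t0 ∈ T) (hex : ∀ x ∈ T, ∃ y ∈ T, x < y ∧ r x y) :
    ∃ f : M → M, graph f ∈ S ∧ (∀ n, f n ∈ T) ∧ ∀ m n, m < n → f m < f n ∧ r (f m) (f n) := by
  obtain ⟨F, hF, hF'⟩ := Sg.select (S := S) (Γ := PUnit.{u + 1} × M)
    (P := fun e y => e.2 ∈ T → (y ∈ T ∧ e.2 < y ∧ r e.2 y))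
    (De.imp (De.mem Tf.v1 hT) (De.and (De.mem Tf.v0 hT) (De.and (De.lt Tf.v1 Tf.v0)
      (De.app2 hr Tf.v1 Tf.v0)))).1 (by
    intro e
    by_cases h : e.2 ∈ T
    · obtain ⟨y, h1, h2, h3⟩ := hex _ h
      exact ⟨y, fun _ => ⟨h1, h2, h3⟩⟩
    · exact ⟨0, fun h' => absurd h' h⟩)
  obtain ⟨G, hG, hG'⟩ := exists_prec (S := S) (Γ := PUnit.{u + 1}) (a := fun _ => t0)
    (Tf.const t0) (F := fun e z y => F (e, y))
    (hF.comap ((CMap.unit).pair IsVar.last))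
  have hG1 : Fun1 S (fun n => G PUnit.unit n) := hG
  obtain ⟨h0, hs⟩ := hG' PUnit.unit
  have hmem : ∀ n, G PUnit.unit n ∈ T := by
    refine ind1 (S := S) (De.mem (Tf.app1 hG1 Tf.v0) hT).1 ?_ ?_
    · rw [h0]; exact ht0
    · intro n ih
      rw [hs]
      exact (hF' (PUnit.unit, G PUnit.unit n) ih).1
  have hstep : ∀ n, G PUnit.unit n < G PUnit.unit (n + 1) ∧
      r (G PUnit.unit n) (G PUnit.unit (n + 1)) := by
    intro n
    rw [hs]
    exact (hF' (PUnit.unit, G PUnit.unit n) (hmem n)).2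
  refine ⟨fun n => G PUnit.unit n, Fun1.graph hG1, hmem, fun m => ?_⟩
  refine ind1 (S := S) ?_ ?_ ?_
  · exact (De.imp (De.lt (Tf.const m) Tf.v0) (De.and
      (De.lt (Tf.const _) (Tf.app1 hG1 Tf.v0))
      (De.app2 hr (Tf.const _) (Tf.app1 hG1 Tf.v0)))).1
  · intro h
    exact absurd h (not_lt.2 zero_le)
  · intro n ih h
    rcases lt_or_eq_of_le ((lt_add_one_iff' S).1 h) with h1 | rfl
    · obtain ⟨h2, h3⟩ := ih h1
      obtain ⟨h4, h5⟩ := hstep n
      exact ⟨h2.trans h4, htrans _ (hmem m) _ (hmem n) _ (hmem (n + 1)) h3 h5⟩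
    · exact hstep m

theorem sads_of_principle (hP : PrincipleP S) : SADS S := by
  intro X hX R hR hLO hinf htype
  have hrel : Rel2 S (fun x y => Rel R x y) := De.rel hR Tf.v1 Tf.v0
  have hrel' : Rel2 S (fun x y => Rel R y x) := De.rel hR Tf.v0 Tf.v1
  obtain ⟨T, hTS, hTX, hTinf, hT⟩ := hP X hX R hR hLO.1 hinf (by
    intro x hx
    rcases htype x hx with ⟨b, hb⟩ | ⟨b, hb⟩
    · left
      exact ⟨b, fun y hy h => hb y hy ((hLO.2 x hx y hy).resolve_left h)⟩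
    · right; left
      exact ⟨b, fun y hy h => hb y hy ((hLO.2 x hx y hy).resolve_right h)⟩)
  have hiso : ∀ x ∈ T, ¬ Isolated T R x := by
    rintro x hx ⟨b, hb⟩
    obtain ⟨y, hy, hby⟩ := hTinf b
    refine absurd (hb y hy ?_) (not_le.2 hby)
    rintro ⟨h1, h2⟩
    rcases hLO.2 x (hTX hx) y (hTX hy) with h | h
    · exact h1 h
    · exact h2 h
  obtain ⟨t0, ht0, _⟩ := hTinf 0
  rcases hT with hT | hT
  · obtain ⟨f, hf, hfT, hf'⟩ := exists_seq (R := R) hTS hrel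
      (fun x hx y hy z hz => hLO.1.trans x (hTX hx) y (hTX hy) z (hTX hz)) ht0 (by
      intro x hx
      obtain ⟨b, hb⟩ := (hT x hx).resolve_right (hiso x hx)
      obtain ⟨y, hy, hby⟩ := hTinf (max b x)
      refine ⟨y, hy, lt_of_le_of_lt (le_max_right _ _) hby, ?_⟩
      by_contra h
      exact absurd (hb y hy h) (not_le.2 (lt_of_le_of_lt (le_max_left _ _) hby)))
    exact ⟨f, hf, fun n => hTX (hfT n), Or.inl fun m n hmn =>
      ⟨(hf' m n hmn).1.ne, (hf' m n hmn).2⟩⟩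
  · obtain ⟨f, hf, hfT, hf'⟩ := exists_seq (R := R) hTS hrel'
      (fun x hx y hy z hz h1 h2 => hLO.1.trans z (hTX hz) y (hTX hy) x (hTX hx) h2 h1) ht0 (by
      intro x hx
      obtain ⟨b, hb⟩ := (hT x hx).resolve_right (hiso x hx)
      obtain ⟨y, hy, hby⟩ := hTinf (max b x)
      refine ⟨y, hy, lt_of_le_of_lt (le_max_right _ _) hby, ?_⟩
      by_contra h
      exact absurd (hb y hy h) (not_le.2 (lt_of_le_of_lt (le_max_left _ _) hby)))
    exact ⟨f, hf, fun n => hTX (hfT n), Or.inr fun m n hmn =>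
      ⟨(hf' m n hmn).1.ne, (hf' m n hmn).2⟩⟩

/-! ### from `SADS` to `P` -/

section

variable {P R : Set M}

/-- `x` is below `y` in the lexicographic order -/
def LtL (P R : Set M) (x y : M) : Prop :=
  ∃ j, j ∈ P ∧ (∀ i, i < j → i ∈ P → (Rel R x i ↔ Rel R y i)) ∧ Rel R x j ∧ ¬ Rel R y j

theorem LtL.ne {x y : M} (h : LtL P R x y) : x ≠ y := by
  rintro rfl
  obtain ⟨j, _, _, h1, h2⟩ := h
  exact h2 h1

theorem LtL.asymm {x y : M} (h : LtL P R x y) : ¬ LtL P R y x := by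
  rintro ⟨j', hj', hj'1, hj'2, hj'3⟩
  obtain ⟨j, hj, hj1, hj2, hj3⟩ := h
  rcases lt_trichotomy j j' with h1 | rfl | h1
  · exact hj3 ((hj'1 j h1 hj).2 hj2)
  · exact hj3 hj'2
  · exact hj'3 ((hj1 j' h1 hj').2 hj'2)

theorem LtL.trans {x y z : M} (h : LtL P R x y) (h' : LtL P R y z) : LtL P R x z := by
  obtain ⟨j, hj, hj1, hj2, hj3⟩ := h
  obtain ⟨j', hj', hj'1, hj'2, hj'3⟩ := h'
  rcases lt_trichotomy j j' with h1 | rfl | h1
  · exact ⟨j, hj, fun i hi hiP => (hj1 i hi hiP).trans (hj'1 i (hi.trans h1) hiP), hj2,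
      fun h => hj3 ((hj'1 j h1 hj).2 h)⟩
  · exact absurd hj'2 hj3
  · exact ⟨j', hj', fun i hi hiP => (hj1 i (hi.trans h1) hiP).trans (hj'1 i hi hiP),
      (hj1 j' h1 hj').2 hj'2, hj'3⟩

theorem exists_diff (hP : P ∈ S) (hR : R ∈ S) (hPO : IsPO P R) {x y : M} (hx : x ∈ P) (hy : y ∈ P)
    (hne : x ≠ y) : ∃ j, (j ∈ P ∧ ¬ (Rel R x j ↔ Rel R y j)) ∧
      (∀ i, i < j → ¬ (i ∈ P ∧ ¬ (Rel R x i ↔ Rel R y i))) ∧ j < x + y + 1 := by
  obtain ⟨j0, hj0, hj0'⟩ : ∃ j, (j ∈ P ∧ ¬ (Rel R x j ↔ Rel R y j)) ∧ j < x + y + 1 := by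
    by_cases h : Rel R x y
    · refine ⟨x, ⟨hx, fun h' => hne ?_⟩, lt_add_one_of_le' le_self_add⟩
      exact hPO.antisymm x hx y hy h (h'.1 (hPO.refl x hx))
    · refine ⟨y, ⟨hy, fun h' => h ?_⟩, lt_add_one_of_le' le_add_self⟩
      exact h'.2 (hPO.refl y hy)
  obtain ⟨j, hj, hj'⟩ := least1 (S := S) (P := fun j => j ∈ P ∧ ¬ (Rel R x j ↔ Rel R y j))
    (De.and (De.mem Tf.v0 hP) (De.not (De.iff (De.rel hR (Tf.const x) Tf.v0)
      (De.rel hR (Tf.const y) Tf.v0)))).1 ⟨j0, hj0⟩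
  refine ⟨j, hj, hj', lt_of_le_of_lt ?_ hj0'⟩
  by_contra h
  exact hj' j0 (not_le.1 h) hj0

theorem ltL_total (hP : P ∈ S) (hR : R ∈ S) (hPO : IsPO P R) {x y : M} (hx : x ∈ P) (hy : y ∈ P)
    (hne : x ≠ y) : LtL P R x y ∨ LtL P R y x := by
  obtain ⟨j, ⟨hj, hj1⟩, hj2, _⟩ := exists_diff hP hR hPO hx hy hne
  have hj3 : ∀ i, i < j → i ∈ P → (Rel R x i ↔ Rel R y i) := fun i hi hiP => by
    by_contra h
    exact hj2 i hi ⟨hiP, h⟩
  by_cases h : Rel R x j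
  · exact Or.inl ⟨j, hj, hj3, h, fun h' => hj1 ⟨fun _ => h', fun _ => h⟩⟩
  · refine Or.inr ⟨j, hj, fun i hi hiP => (hj3 i hi hiP).symm, ?_, h⟩
    by_contra h'
    exact hj1 ⟨fun h1 => absurd h1 h, fun h1 => absurd h1 h'⟩

/-- the lexicographic order extends the partial order -/
theorem ltL_of_rel (hP : P ∈ S) (hR : R ∈ S) (hPO : IsPO P R) {x y : M} (hx : x ∈ P) (hy : y ∈ P)
    (hne : x ≠ y) (h : Rel R x y) : LtL P R x y := by
  rcases ltL_total hP hR hPO hx hy hne with h1 | ⟨j, hj, _, h2, h3⟩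
  · exact h1
  · exact absurd (hPO.trans x hx y hy j hj h h2) h3

theorem exists_ltL (hP : P ∈ S) (hR : R ∈ S) (hPO : IsPO P R) :
    ∃ L ∈ S, ∀ x ∈ P, ∀ y ∈ P, (Rel L x y ↔ x = y ∨ LtL P R x y) := by
  obtain ⟨L, hL, hL'⟩ := exists_rel (S := S) (r := fun x y => x = y ∨ ∃ j, j < x + y + 1 ∧
    (j ∈ P ∧ (∀ i, i < j → i ∈ P → (Rel R x i ↔ Rel R y i)) ∧ Rel R x j ∧ ¬ Rel R y j)) (by
      refine De.or (De.eq Tf.v1 Tf.v0) (De.bex ((Tf.v1.add Tf.v0).add (Tf.const 1))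
        (De.and (De.mem Tf.v0 hP) (De.and (De.ball Tf.v0 (De.imp (De.mem Tf.v0 hP) (De.iff
          (De.rel hR Tf.v3 Tf.v0) (De.rel hR Tf.v2 Tf.v0)))) (De.and (De.rel hR Tf.v2 Tf.v0)
          (De.not (De.rel hR Tf.v1 Tf.v0)))))))
  refine ⟨L, hL, fun x hx y hy => ?_⟩
  rw [hL']
  constructor
  · rintro (h | ⟨j, _, h⟩)
    · exact Or.inl h
    · exact Or.inr ⟨j, h⟩
  · rintro (h | ⟨j, h⟩)
    · exact Or.inl h
    · right
      have hne : x ≠ y := LtL.ne ⟨j, h⟩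
      obtain ⟨j', ⟨hj', hj'1⟩, hj'2, hj'3⟩ := exists_diff hP hR hPO hx hy hne
      refine ⟨j, lt_of_le_of_lt ?_ hj'3, h⟩
      by_contra hc
      exact hj'1 (h.2.1 j' (not_le.1 hc) hj')

/-- the uniform bound, from the pigeonhole principle -/
theorem exists_uniform (hS : SADS S) (hP : P ∈ S) (hR : R ∈ S) (hPO : IsPO P R)
    (hW : WeaklyStable P R) (x : M) : ∃ b, ∀ y ∈ P, ∀ y' ∈ P, b < y → b < y' →
      ∀ j, j ≤ x → j ∈ P → (Rel R y j ↔ Rel R y' j) := by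
  by_contra hc
  push Not at hc
  have hmat : De S (fun p : (((PUnit.{u + 1} × M) × M) × M) × M => p.1.2 ∈ P ∧ p.2 ∈ P ∧
      p.1.1.1.2 < p.1.2 ∧ p.1.1.1.2 < p.2 ∧ p.1.1.2 ≤ x ∧ p.1.1.2 ∈ P ∧
      ¬ (Rel R p.1.2 p.1.1.2 ↔ Rel R p.2 p.1.1.2)) :=
    De.and (De.mem Tf.v1 hP) (De.and (De.mem Tf.v0 hP) (De.and (De.lt Tf.v3 Tf.v1)
      (De.and (De.lt Tf.v3 Tf.v0) (De.and (De.le Tf.v2 (Tf.const x)) (De.and (De.mem Tf.v2 hP)
        (De.not (De.iff (De.rel hR Tf.v1 Tf.v2) (De.rel hR Tf.v0 Tf.v2))))))))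
  obtain ⟨f, hf, hf'⟩ := Sg.select (S := S) (Γ := PUnit.{u + 1} × M)
    (P := fun e j => ∃ y y', y ∈ P ∧ y' ∈ P ∧ e.2 < y ∧ e.2 < y' ∧ j ≤ x ∧ j ∈ P ∧
      ¬ (Rel R y j ↔ Rel R y' j)) (Sg.ex (Sg.ex hmat.1)) (by
    rintro ⟨_, b⟩
    obtain ⟨y, hy, y', hy', h1, h2, j, h3, h4, h5⟩ := hc b
    exact ⟨j, y, y', hy, hy', h1, h2, h3, h4, fun h => by tauto⟩)
  obtain ⟨v, hv⟩ := pigeonhole (S := S) hS (f := fun b => f (PUnit.unit, b)) hf (x + 1) (by
    intro b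
    obtain ⟨_, _, _, _, _, _, h, _⟩ := hf' (PUnit.unit, b)
    exact lt_add_one_of_le' h)
  have hvP : v ∈ P := by
    obtain ⟨b, _, hb⟩ := hv 0
    obtain ⟨_, _, _, _, _, _, _, h, _⟩ := hf' (PUnit.unit, b)
    rw [← hb]
    exact h
  obtain ⟨c, q, hc⟩ : ∃ c : M, ∃ q : Prop, ∀ y ∈ P, c < y → (Rel R y v ↔ q) := by
    rcases hW v hvP with ⟨c, hc⟩ | ⟨c, hc⟩ | ⟨c, hc⟩
    · refine ⟨max c v, False, fun y hy hcy => ⟨fun h => ?_, False.elim⟩⟩
      have h1 : Rel R v y := by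
        by_contra h1
        exact absurd (hc y hy h1) (not_le.2 (lt_of_le_of_lt (le_max_left _ _) hcy))
      have := hPO.antisymm y hy v hvP h h1
      exact absurd hcy (not_lt.2 (this ▸ le_max_right _ _))
    · refine ⟨c, True, fun y hy hcy => ⟨fun _ => trivial, fun _ => ?_⟩⟩
      by_contra h1
      exact absurd (hc y hy h1) (not_le.2 hcy)
    · refine ⟨c, False, fun y hy hcy => ⟨fun h => ?_, False.elim⟩⟩
      exact absurd (hc y hy (fun h1 => h1.2 h)) (not_le.2 hcy)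
  obtain ⟨b, hb, hbv⟩ := hv c
  obtain ⟨y, y', hy, hy', h1, h2, _, _, h3⟩ := hf' (PUnit.unit, b)
  rw [hbv] at h3
  exact h3 ((hc y hy (hb.trans h1)).trans (hc y' hy' (hb.trans h2)).symm)

end

theorem principle_of_sads (hS : SADS S) : PrincipleP S := by
  intro P hP R hR hPO hinf hW
  obtain ⟨L, hL, hL'⟩ := exists_ltL hP hR hPO
  have hLO : IsLO P L := by
    refine ⟨⟨fun x hx => (hL' x hx x hx).2 (Or.inl rfl), fun x hx y hy h1 h2 => ?_,
      fun x hx y hy z hz h1 h2 => ?_⟩, fun x hx y hy => ?_⟩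
    · rw [hL' x hx y hy] at h1
      rw [hL' y hy x hx] at h2
      rcases h1 with h1 | h1
      · exact h1
      · rcases h2 with h2 | h2
        · exact h2.symm
        · exact absurd h2 h1.asymm
    · rw [hL' x hx y hy] at h1
      rw [hL' y hy z hz] at h2
      rw [hL' x hx z hz]
      rcases h1 with rfl | h1
      · exact h2
      · rcases h2 with rfl | h2
        · exact Or.inr h1
        · exact Or.inr (h1.trans h2)
    · rw [hL' x hx y hy, hL' y hy x hx]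
      rcases eq_or_ne x y with h | h
      · exact Or.inl (Or.inl h)
      · rcases ltL_total hP hR hPO hx hy h with h | h
        · exact Or.inl (Or.inr h)
        · exact Or.inr (Or.inr h)
  have htype : ∀ x ∈ P, FinMany P (fun y => Rel L y x) ∨ FinMany P (fun y => Rel L x y) := by
    intro x hx
    obtain ⟨b, hb⟩ := exists_uniform hS hP hR hPO hW x
    obtain ⟨y0, hy0, hby0⟩ := hinf (max b x)
    have hb0 : b < y0 := lt_of_le_of_lt (le_max_left _ _) hby0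
    by_cases hA : ∀ i, i < x + 1 → i ∈ P → (Rel R y0 i ↔ Rel R x i)
    · right
      refine ⟨max b x, fun y hy hxy => ?_⟩
      by_contra hc
      have hc' := not_le.1 hc
      have hby : b < y := lt_of_le_of_lt (le_max_left _ _) hc'
      have hxy' : x < y := lt_of_le_of_lt (le_max_right _ _) hc'
      have h1 : Rel R y x := by
        rw [hb y hy y0 hy0 hby hb0 x le_rfl hx, hA x (lt_add_one_self x) hx]
        exact hPO.refl x hx
      have h2 := ltL_of_rel hP hR hPO hy hx hxy'.ne' h1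
      rcases (hL' x hx y hy).1 hxy with h3 | h3
      · exact hxy'.ne h3
      · exact h3.asymm h2
    · push Not at hA
      obtain ⟨i0, hi0, hi0P, hi0'⟩ := hA
      obtain ⟨j, ⟨hjx, hjP, hjd⟩, hjmin⟩ := least1 (S := S)
        (P := fun j => j < x + 1 ∧ j ∈ P ∧ ¬ (Rel R y0 j ↔ Rel R x j))
        (De.and (De.lt Tf.v0 (Tf.const _)) (De.and (De.mem Tf.v0 hP) (De.not (De.iff
          (De.rel hR (Tf.const _) Tf.v0) (De.rel hR (Tf.const _) Tf.v0))))).1
        ⟨i0, hi0, hi0P, fun h => by tauto⟩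
      have hjx' : j ≤ x := (lt_add_one_iff' S).1 hjx
      have hagree : ∀ y ∈ P, b < y → ∀ i, i < j → i ∈ P → (Rel R y i ↔ Rel R x i) := by
        intro y hy hby i hi hiP
        rw [hb y hy y0 hy0 hby hb0 i (hi.le.trans hjx') hiP]
        by_contra h
        exact hjmin i hi ⟨hi.trans hjx, hiP, h⟩
      have hjy : ∀ y ∈ P, b < y → (Rel R y j ↔ Rel R y0 j) := fun y hy hby =>
        hb y hy y0 hy0 hby hb0 j hjx' hjP
      by_cases hxj : Rel R x j
      · left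
        refine ⟨b, fun y hy hyx => ?_⟩
        by_contra hc
        have hby := not_le.1 hc
        have hlt : LtL P R x y := ⟨j, hjP, fun i hi hiP => (hagree y hy hby i hi hiP).symm, hxj,
          fun h => hjd ⟨fun _ => hxj, fun _ => (hjy y hy hby).1 h⟩⟩
        rcases (hL' y hy x hx).1 hyx with h3 | h3
        · exact hlt.ne h3.symm
        · exact h3.asymm hlt
      · right
        refine ⟨b, fun y hy hyx => ?_⟩
        by_contra hc
        have hby := not_le.1 hc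
        have hy0j : Rel R y0 j := by
          by_contra h
          exact hjd ⟨fun h' => absurd h' h, fun h' => absurd h' hxj⟩
        have hlt : LtL P R y x := ⟨j, hjP, hagree y hy hby, (hjy y hy hby).2 hy0j, hxj⟩
        rcases (hL' x hx y hy).1 hyx with h3 | h3
        · exact hlt.ne h3.symm
        · exact h3.asymm hlt
  obtain ⟨f, hfS, hfP, hf⟩ := hS P hP L hL hLO hinf htype
  have hf1 : Fun1 S f := Fun1.of_graph hfS
  have hinj : ∀ m n, m < n → f m ≠ f n := by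
    intro m n hmn
    rcases hf with hf | hf
    · exact (hf m n hmn).1
    · exact (hf m n hmn).1
  have hunb : ∀ n b, ∃ m, n < m ∧ b < f m := by
    intro n b
    by_contra hc
    push Not at hc
    obtain ⟨v, hv⟩ := pigeonhole (S := S) hS (f := fun m => f (n + 1 + m))
      (Tf.app1 hf1 ((Tf.const (n + 1)).add Tf.v0)) (b + 1) (fun m =>
        lt_add_one_of_le' (hc _ (lt_of_lt_of_le (lt_add_one_self n) le_self_add)))
    obtain ⟨m1, _, h1⟩ := hv 0
    obtain ⟨m2, h12, h2⟩ := hv m1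
    exact hinj (n + 1 + m1) (n + 1 + m2) (by gcongr) (h1.trans h2.symm)
  -- the set of record values
  obtain ⟨t, ht, ht'⟩ := exists_mu (S := S) (Γ := PUnit.{u + 1} × M)
    (P := fun e n => e.2 < f n) (De.lt Tf.v1 (Tf.app1 hf1 Tf.v0)) (by
      intro e
      obtain ⟨m, _, hm⟩ := hunb 0 e.2
      exact ⟨m, hm⟩)
  set T : Set M := {y | ∃ m, m < t (PUnit.unit, y) ∧ f m = y ∧ ∀ m', m' < m → f m' < y} with hT
  have hTS : T ∈ S := by
    refine set_mem (De.bex ht (De.and (De.eq (Tf.app1 hf1 Tf.v0) Tf.v1)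
      (De.ball Tf.v0 (De.lt (Tf.app1 hf1 Tf.v0) Tf.v2))))
  have hTP : T ⊆ P := by
    rintro y ⟨m, _, rfl, _⟩
    exact hfP m
  have hTinf : InfiniteSet T := by
    intro b
    obtain ⟨h1, h2⟩ := ht' (PUnit.unit, b)
    refine ⟨f (t (PUnit.unit, b)), ⟨t (PUnit.unit, b), ?_, rfl, fun m' hm' => ?_⟩, h1⟩
    · by_contra hc
      obtain ⟨h3, _⟩ := ht' (PUnit.unit, f (t (PUnit.unit, b)))
      rcases lt_or_eq_of_le (not_lt.1 hc) with h4 | h4
      · exact h2 _ h4 (h1.trans h3)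
      · rw [h4] at h3
        exact lt_irrefl _ h3
    · exact lt_of_le_of_lt (not_lt.1 (h2 m' hm')) h1
  refine ⟨T, hTS, hTP, hTinf, ?_⟩
  have hsm : ∀ x, Small P R x → Small T R x := fun x ⟨b, hb⟩ => ⟨b, fun y hy => hb y (hTP hy)⟩
  have hla : ∀ x, Large P R x → Large T R x := fun x ⟨b, hb⟩ => ⟨b, fun y hy => hb y (hTP hy)⟩
  have his : ∀ x, Isolated P R x → Isolated T R x := fun x ⟨b, hb⟩ =>
    ⟨b, fun y hy => hb y (hTP hy)⟩
  rcases hf with hf | hf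
  · left
    rintro x ⟨m, _, rfl, _⟩
    rcases hW (f m) (hfP m) with h | h | h
    · exact Or.inl (hsm _ h)
    · exfalso
      obtain ⟨b, hb⟩ := h
      obtain ⟨n, hmn, hn⟩ := hunb m b
      have h1 : Rel R (f n) (f m) := by
        by_contra h1
        exact absurd (hb _ (hfP n) h1) (not_le.2 hn)
      obtain ⟨h2, h3⟩ := hf m n hmn
      have h4 := ltL_of_rel hP hR hPO (hfP n) (hfP m) h2.symm h1
      rcases (hL' _ (hfP m) _ (hfP n)).1 h3 with h5 | h5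
      · exact h2 h5
      · exact h5.asymm h4
    · exact Or.inr (his _ h)
  · right
    rintro x ⟨m, _, rfl, _⟩
    rcases hW (f m) (hfP m) with h | h | h
    · exfalso
      obtain ⟨b, hb⟩ := h
      obtain ⟨n, hmn, hn⟩ := hunb m b
      have h1 : Rel R (f m) (f n) := by
        by_contra h1
        exact absurd (hb _ (hfP n) h1) (not_le.2 hn)
      obtain ⟨h2, h3⟩ := hf m n hmn
      have h4 := ltL_of_rel hP hR hPO (hfP m) (hfP n) h2 h1
      rcases (hL' _ (hfP n) _ (hfP m)).1 h3 with h5 | h5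
      · exact h2 h5.symm
      · exact h5.asymm h4
    · exact Or.inl (hla _ h)
    · exact Or.inr (his _ h)

end

end Pool.Agent.RM
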