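import Pool.Agent.RM.Lru

/-!
# `SADS` implies the infinite pigeonhole principle
-/

set_option linter.unusedSectionVars false
set_option linter.unusedVariables false

namespace Pool.Agent.RM

universe u

section

variable {M : Type u} [CommSemiring M] [LinearOrder M] [IsStrictOrderedRing M]
  [CanonicallyOrderedAdd M]

namespace Lru

variable {S : Set (Set M)} [RCA0 M S] {a : M} (D : Lru S a)

/-- the value of the list of colours -/
def V (x : M) : M := D.W x x

theorem hV : Fun1 S D.V := Tf.app2 D.hW Tf.v0 Tf.v0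

theorem compare {x : M} (hx : a ≤ x) :
    ∃ s, (∀ y, s ≤ y → D.V x < D.V y) ∨ (∀ y, s ≤ y → D.V y < D.V x) := by
  have ha := D.a_pos
  obtain ⟨x', rfl⟩ : ∃ x', x = x' + 1 := by
    rcases eq_zero_or_succ S x with h | h
    · exact absurd (lt_of_lt_of_le ha hx) (by rw [h]; exact lt_irrefl _)
    · exact h
  -- the final occurrence of the colour of `x'`
  obtain ⟨b, hb⟩ := D.fin (D.g x')
  obtain ⟨z, hz, hzmax⟩ : ∃ z, D.g z = D.g x' ∧ ∀ w, D.g w = D.g x' → w ≤ z := by
    refine greatest1 (S := S) (P := fun z => D.g z = D.g x') ?_ ⟨x', rfl⟩ b hb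
    exact (De.eq (Tf.app1 D.hg Tf.v0) (Tf.const _)).1
  have hfin : ∀ w, z < w → D.g w ≠ D.g z := fun w h1 h2 =>
    absurd (hzmax w (h2.trans hz)) (not_le.2 h1)
  have hinz : ∀ y, z < y → In D.g y z := fun y hy => ⟨hy, fun w _ h2 => hfin w h2⟩
  obtain ⟨k, ⟨s, hzs, hk⟩, hmin⟩ : ∃ k, (∃ y, z < y ∧ k = D.N y z) ∧
      ∀ v, v < k → ¬ ∃ y, z < y ∧ v = D.N y z := by
    refine least1 (S := S) (P := fun k => ∃ y, z < y ∧ k = D.N y z) ?_
      ⟨_, z + 1, lt_add_one_self z, rfl⟩
    exact Sg.ex (De.and (De.lt (Tf.const z) Tf.v0)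
      (De.eq Tf.v1 (Tf.app2 D.hN Tf.v0 (Tf.const z)))).1
  have hNy : ∀ y, s ≤ y → D.N y z = k := by
    intro y hy
    apply le_antisymm
    · rw [hk]; exact D.N_anti hy z hzs.le
    · by_contra h
      exact hmin _ (not_le.1 h) ⟨y, lt_of_lt_of_le hzs hy, rfl⟩
  have hIn : ∀ y, s ≤ y → ∀ z', z' < z → (In D.g y z' ↔ In D.g s z') := by
    intro y hy z' hz'
    refine ⟨fun h => D.in_mono hy h (hz'.trans hzs), fun h => ?_⟩
    by_contra h'
    have := D.N_anti_lt hy h h' z hzs.le hz'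
    rw [hNy y hy, ← hk] at this
    exact absurd this (not_le.2 (lt_add_one_self k))
  have hWy : ∀ y, s ≤ y → D.W y z = D.W s z := by
    intro y hy
    have key : ∀ z', z' ≤ z → D.W y z' = D.W s z' := by
      refine ind1 (S := S) ?_ ?_ ?_
      · exact (De.imp (De.le Tf.v0 (Tf.const z)) (De.eq (Tf.app2 D.hW (Tf.const _) Tf.v0)
          (Tf.app2 D.hW (Tf.const _) Tf.v0))).1
      · intro _
        rw [D.W0, D.W0]
      · intro z' ih h1
        have hz' : z' < z := (add_one_le_iff' S).1 h1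
        by_cases h : In D.g s z'
        · rw [D.W1 _ _ ((hIn y hy z' hz').2 h), D.W1 _ _ h, ih hz'.le]
        · rw [D.W2 _ _ (fun h' => h ((hIn y hy z' hz').1 h')), D.W2 _ _ h, ih hz'.le]
    exact key z le_rfl
  have hU : ∀ y, s ≤ y → D.W y (z + 1) = D.W s z * a + D.g z := fun y hy => by
    rw [D.W1 _ _ (hinz y (lt_of_lt_of_le hzs hy)), hWy y hy]
  have hN1 : ∀ y, s ≤ y → D.N y (z + 1) = k + 1 := fun y hy => by
    rw [D.N1 _ _ (hinz y (lt_of_lt_of_le hzs hy)), hNy y hy]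
  -- `k + 1 < a`
  have hka : k + 1 < a := by
    set y' := max s (max a (z + 1)) with hy'
    have h1 : s ≤ y' := le_max_left _ _
    have h2 : a ≤ y' := (le_max_left _ _).trans (le_max_right _ _)
    have h3 : z + 1 ≤ y' := (le_max_right _ _).trans (le_max_right _ _)
    have h4 : D.N (y' + 1) (y' + 1) = a := D.N_total _ (h2.trans le_self_add)
    rw [D.N1 _ _ (D.in_last y')] at h4
    have h5 : D.N (y' + 1) (z + 1) ≤ D.N (y' + 1) y' := D.N_mono _ h3
    rw [hN1 _ (h1.trans le_self_add)] at h5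
    rw [← h4]
    exact lt_add_one_of_le' h5
  -- the element number `k` of the list for `x`
  have hNx : D.N (x' + 1) (x' + 1) = a := D.N_total _ hx
  obtain ⟨z1, hz1, hz1min⟩ : ∃ z1, k + 1 ≤ D.N (x' + 1) z1 ∧
      ∀ w, w < z1 → ¬ k + 1 ≤ D.N (x' + 1) w := by
    refine least1 (S := S) (P := fun z1 => k + 1 ≤ D.N (x' + 1) z1) ?_
      ⟨x' + 1, by rw [hNx]; exact hka.le⟩
    exact (De.le (Tf.const _) (Tf.app2 D.hN (Tf.const _) Tf.v0)).1
  obtain ⟨z2, rfl⟩ : ∃ z2, z1 = z2 + 1 := by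
    rcases eq_zero_or_succ S z1 with h | h
    · rw [h, D.N0] at hz1
      exact absurd hz1 (not_le.2 (lt_of_le_of_lt zero_le (lt_add_one_self k)))
    · exact h
  have h6 : D.N (x' + 1) z2 ≤ k := by
    have := hz1min z2 (lt_add_one_self z2)
    rw [not_le, lt_add_one_iff' S] at this
    exact this
  have hin2 : In D.g (x' + 1) z2 := by
    by_contra h
    rw [D.N2 _ _ h] at hz1
    exact absurd (hz1.trans h6) (not_le.2 (lt_add_one_self k))
  have hNz1 : D.N (x' + 1) (z2 + 1) = k + 1 := by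
    apply le_antisymm _ hz1
    rw [D.N1 _ _ hin2]
    exact add_le_add_left h6 1
  have hne : z2 ≠ x' := by
    rintro rfl
    rw [hNx] at hNz1
    exact absurd hNz1 hka.ne'
  have hlt : z2 < x' := lt_of_le_of_ne ((lt_add_one_iff' S).1 hin2.1) hne
  have hgne : D.g z2 ≠ D.g z := fun h => hin2.2 x' (lt_add_one_self x') hlt (hz.symm.trans h.symm)
  have hWx : D.W (x' + 1) (z2 + 1) = D.W (x' + 1) z2 * a + D.g z2 := D.W1 _ _ hin2
  have hUne : D.W (x' + 1) z2 * a + D.g z2 ≠ D.W s z * a + D.g z := by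
    intro h
    rw [mul_comm _ a, mul_comm _ a] at h
    exact hgne (rem_unique S h (D.g_lt _) (D.g_lt _)).2
  obtain ⟨d, hd, hd1, hd2⟩ := D.W_bound (x' + 1) (z2 + 1) (x' + 1) ((add_one_le_iff' S).2 hin2.1)
  rw [hNz1, hNx] at hd
  rw [hWx] at hd1 hd2
  have hy : ∀ y, max s (max a (z + 1)) ≤ y →
      (D.W s z * a + D.g z) * D.E d ≤ D.V y ∧ D.V y < (D.W s z * a + D.g z + 1) * D.E d := by
    intro y hy
    have h1 : s ≤ y := (le_max_left _ _).trans hy
    have h2 : a ≤ y := ((le_max_left _ _).trans (le_max_right _ _)).trans hy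
    have h3 : z + 1 ≤ y := ((le_max_right _ _).trans (le_max_right _ _)).trans hy
    obtain ⟨d', hd', hd1', hd2'⟩ := D.W_bound y (z + 1) y h3
    rw [hN1 y h1, D.N_total y h2, ← hd] at hd'
    have : d' = d := add_left_cancel hd'
    subst this
    rw [hU y h1] at hd1' hd2'
    exact ⟨hd1', hd2'⟩
  refine ⟨max s (max a (z + 1)), ?_⟩
  rcases lt_or_gt_of_ne hUne with h | h
  · left
    intro y hyy
    calc D.V (x' + 1) < (D.W (x' + 1) z2 * a + D.g z2 + 1) * D.E d := hd2
      _ ≤ (D.W s z * a + D.g z) * D.E d :=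
        mul_le_mul_left ((add_one_le_iff' S).2 h) _
      _ ≤ D.V y := (hy y hyy).1
  · right
    intro y hyy
    calc D.V y < (D.W s z * a + D.g z + 1) * D.E d := (hy y hyy).2
      _ ≤ (D.W (x' + 1) z2 * a + D.g z2) * D.E d :=
        mul_le_mul_left ((add_one_le_iff' S).2 h) _
      _ ≤ D.V (x' + 1) := hd1

theorem V_lt {x : M} (hx : a ≤ x) : D.V x < D.E a := by
  obtain ⟨d, hd, _, hd2⟩ := D.W_bound x 0 x zero_le
  rw [D.N0, D.N_total x hx, zero_add] at hd
  subst hd
  rw [D.W0, zero_add, one_mul] at hd2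
  exact hd2

include D in
theorem not_sads (hS : SADS S) : False := by
  have hXS : {x : M | a ≤ x} ∈ S := set_mem (De.le (Tf.const a) Tf.v0)
  obtain ⟨R, hRS, hR⟩ := exists_rel (S := S)
    (r := fun x y => D.V x < D.V y ∨ (D.V x = D.V y ∧ x ≤ y))
    (De.or (De.lt (Tf.app1 D.hV Tf.v1) (Tf.app1 D.hV Tf.v0))
      (De.and (De.eq (Tf.app1 D.hV Tf.v1) (Tf.app1 D.hV Tf.v0)) (De.le Tf.v1 Tf.v0)))
  have hLO : IsLO {x : M | a ≤ x} R := by
    refine ⟨⟨fun x _ => ?_, fun x _ y _ h1 h2 => ?_, fun x _ y _ z _ h1 h2 => ?_⟩,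
      fun x _ y _ => ?_⟩
    · rw [hR]; exact Or.inr ⟨rfl, le_rfl⟩
    · rw [hR] at h1 h2
      rcases h1 with h1 | ⟨h1, h1'⟩
      · rcases h2 with h2 | ⟨h2, _⟩
        · exact absurd h1 h2.asymm
        · exact absurd h1 (by rw [h2]; exact lt_irrefl _)
      · rcases h2 with h2 | ⟨_, h2'⟩
        · exact absurd h2 (by rw [h1]; exact lt_irrefl _)
        · exact le_antisymm h1' h2'
    · rw [hR] at *
      rcases h1 with h1 | ⟨h1, h1'⟩
      · rcases h2 with h2 | ⟨h2, _⟩
        · exact Or.inl (h1.trans h2)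
        · exact Or.inl (h2 ▸ h1)
      · rcases h2 with h2 | ⟨h2, h2'⟩
        · exact Or.inl (h1 ▸ h2)
        · exact Or.inr ⟨h1.trans h2, h1'.trans h2'⟩
    · rw [hR, hR]
      rcases lt_trichotomy (D.V x) (D.V y) with h | h | h
      · exact Or.inl (Or.inl h)
      · rcases le_total x y with h' | h'
        · exact Or.inl (Or.inr ⟨h, h'⟩)
        · exact Or.inr (Or.inr ⟨h.symm, h'⟩)
      · exact Or.inr (Or.inl h)
  have hinf : InfiniteSet {x : M | a ≤ x} := fun b =>
    ⟨max a (b + 1), le_max_left _ _, lt_of_lt_of_le (lt_add_one_self b) (le_max_right _ _)⟩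
  obtain ⟨f, hfS, hfX, hf⟩ := hS _ hXS R hRS hLO hinf (by
    intro x hx
    obtain ⟨s, h | h⟩ := D.compare hx
    · left
      refine ⟨s, fun y _ hy => ?_⟩
      by_contra hc
      replace hy := (hR _ _).1 hy
      have := h y (not_le.1 hc).le
      rcases hy with h1 | ⟨h1, _⟩
      · exact absurd h1 this.asymm
      · exact absurd this (by rw [h1]; exact lt_irrefl _)
    · right
      refine ⟨s, fun y _ hy => ?_⟩
      by_contra hc
      replace hy := (hR _ _).1 hy
      have := h y (not_le.1 hc).le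
      rcases hy with h1 | ⟨h1, _⟩
      · exact absurd h1 this.asymm
      · exact absurd this (by rw [h1]; exact lt_irrefl _))
  have hf1 : Fun1 S f := Fun1.of_graph hfS
  have hVf : Fun1 S (fun n => D.V (f n)) := Tf.app1 D.hV hf1
  rcases hf with hf | hf
  · -- ascending
    obtain ⟨v, ⟨m0, hm0⟩, hv⟩ : ∃ v, (∃ m, v = D.V (f m)) ∧
        ∀ w, (∃ m, w = D.V (f m)) → w ≤ v := by
      refine greatest1 (S := S) (P := fun v => ∃ m, v = D.V (f m)) ?_ ⟨_, 0, rfl⟩ (D.E a) ?_
      · exact Sg.ex (De.eq Tf.v1 (Tf.app1 hVf Tf.v0)).1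
      · rintro x ⟨m, rfl⟩
        exact (D.V_lt (hfX m)).le
    have hc : ∀ m, m0 ≤ m → D.V (f m) = v := by
      intro m hm
      apply le_antisymm (hv _ ⟨m, rfl⟩)
      rcases lt_or_eq_of_le hm with h | rfl
      · rw [hm0]
        have := (hf m0 m h).2
        rw [hR] at this
        rcases this with h1 | ⟨h1, _⟩
        · exact h1.le
        · exact h1.le
      · exact hm0.le
    have hinc : ∀ t, t ≤ f (m0 + t) := by
      refine ind1 (S := S) ?_ ?_ ?_
      · exact (De.le Tf.v0 (Tf.app1 hf1 ((Tf.const m0).add Tf.v0))).1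
      · exact zero_le
      · intro t ih
        have h1 : m0 + t < m0 + (t + 1) := by
          rw [← add_assoc]; exact lt_add_one_self _
        obtain ⟨h2, h3⟩ := hf _ _ h1
        rw [hR, hc _ le_self_add, hc _ le_self_add] at h3
        have h4 : f (m0 + t) ≤ f (m0 + (t + 1)) := by
          rcases h3 with h3 | ⟨_, h3⟩
          · exact absurd h3 (lt_irrefl _)
          · exact h3
        exact (add_one_le_iff' S).2 (lt_of_le_of_lt ih (lt_of_le_of_ne h4 h2))
    obtain ⟨s, hs⟩ := D.compare (hfX m0)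
    have h5 : s ≤ f (m0 + s) := hinc s
    have h6 : D.V (f m0) = D.V (f (m0 + s)) := by rw [hc _ le_rfl, hc _ le_self_add]
    rcases hs with hs | hs
    · exact absurd (hs _ h5) (by rw [h6]; exact lt_irrefl _)
    · exact absurd (hs _ h5) (by rw [h6]; exact lt_irrefl _)
  · -- descending
    obtain ⟨v, ⟨m0, hm0⟩, hv⟩ : ∃ v, (∃ m, v = D.V (f m)) ∧
        ∀ w, w < v → ¬ ∃ m, w = D.V (f m) := by
      refine least1 (S := S) (P := fun v => ∃ m, v = D.V (f m)) ?_ ⟨_, 0, rfl⟩
      exact Sg.ex (De.eq Tf.v1 (Tf.app1 hVf Tf.v0)).1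
    have hc : ∀ m, m0 ≤ m → D.V (f m) = v := by
      intro m hm
      apply le_antisymm
      · rcases lt_or_eq_of_le hm with h | rfl
        · rw [hm0]
          have := (hf m0 m h).2
          rw [hR] at this
          rcases this with h1 | ⟨h1, _⟩
          · exact h1.le
          · exact h1.le
        · exact hm0.ge
      · by_contra h
        exact hv _ (not_le.1 h) ⟨m, rfl⟩
    obtain ⟨w, ⟨m, hm, rfl⟩, hw⟩ : ∃ w, (∃ m, m0 ≤ m ∧ w = f m) ∧
        ∀ w', w' < w → ¬ ∃ m, m0 ≤ m ∧ w' = f m := by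
      refine least1 (S := S) (P := fun w => ∃ m, m0 ≤ m ∧ w = f m) ?_ ⟨_, m0, le_rfl, rfl⟩
      exact Sg.ex (De.and (De.le (Tf.const m0) Tf.v0) (De.eq Tf.v1 (Tf.app1 hf1 Tf.v0))).1
    obtain ⟨h2, h3⟩ := hf m (m + 1) (lt_add_one_self m)
    rw [hR, hc _ hm, hc _ (hm.trans le_self_add)] at h3
    have h4 : f (m + 1) ≤ f m := by
      rcases h3 with h3 | ⟨_, h3⟩
      · exact absurd h3 (lt_irrefl _)
      · exact h3
    exact hw _ (lt_of_le_of_ne h4 h2.symm) ⟨m + 1, hm.trans le_self_add, rfl⟩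

end Lru

variable {S : Set (Set M)} [RCA0 M S]

/-- `SADS` implies the infinite pigeonhole principle -/
theorem pigeonhole (hS : SADS S) {f : M → M} (hf : Fun1 S f) (a : M) (hfa : ∀ x, f x < a) :
    ∃ v, ∀ b, ∃ x, b < x ∧ f x = v := by
  classical
  by_contra hc
  push Not at hc
  -- the modified colouring
  set g : M → M := fun x => if x < a then x else f x with hg
  have hg1 : ∀ x, x < a → g x = x := fun x hx => if_pos hx
  have hg2 : ∀ x, ¬ x < a → g x = f x := fun x hx => if_neg hx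
  have hgS : Fun1 S g := Tf.ite (P := fun (p : PUnit.{u + 1} × M) => p.2 < a)
    (De.lt Tf.v0 (Tf.const a)) Tf.v0 hf _ (fun p hp => hg1 _ hp) (fun p hp => hg2 _ hp)
  have hin : Rel2 S (fun x z => In g x z) := by
    refine De.and (De.lt Tf.v0 Tf.v1) (De.ball Tf.v1 (De.imp (De.lt Tf.v1 Tf.v0) (De.not ?_)))
    exact De.eq (Tf.app1 hgS Tf.v0) (Tf.app1 hgS Tf.v1)
  obtain ⟨N, hN, hN'⟩ := exists_prec (S := S) (Γ := PUnit.{u + 1} × M) (a := fun _ => 0)
    (Tf.const 0) (F := fun e z y => if In g e.2 z then y + 1 else y)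
    (Tf.ite (P := fun (p : ((PUnit.{u + 1} × M) × M) × M) => In g p.1.1.2 p.1.2)
      (De.app2 hin Tf.v2 Tf.v1) (Tf.v0.add (Tf.const 1)) Tf.v0 _ (fun p hp => if_pos hp)
      (fun p hp => if_neg hp))
  obtain ⟨W, hW, hW'⟩ := exists_prec (S := S) (Γ := PUnit.{u + 1} × M) (a := fun _ => 0)
    (Tf.const 0) (F := fun e z y => if In g e.2 z then y * a + g z else y)
    (Tf.ite (P := fun (p : ((PUnit.{u + 1} × M) × M) × M) => In g p.1.1.2 p.1.2)
      (De.app2 hin Tf.v2 Tf.v1) ((Tf.v0.mul (Tf.const a)).add (Tf.app1 hgS Tf.v1)) Tf.v0 _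
      (fun p hp => if_pos hp) (fun p hp => if_neg hp))
  obtain ⟨E, hE, hE'⟩ := exists_prec (S := S) (Γ := PUnit.{u + 1}) (a := fun _ => 1)
    (Tf.const 1) (F := fun e z y => y * a) (Tf.v0.mul (Tf.const a))
  refine Lru.not_sads (S := S) (a := a)
    { g := g
      hg := hgS
      g_lt := fun x => ?_
      g_id := hg1
      fin := fun v => ?_
      N := fun x z => N (PUnit.unit, x) z
      W := fun x z => W (PUnit.unit, x) z
      E := fun n => E PUnit.unit n
      hN := hN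
      hW := hW
      hE := hE
      N0 := fun x => (hN' (PUnit.unit, x)).1
      N1 := fun x z h => ?_
      N2 := fun x z h => ?_
      W0 := fun x => (hW' (PUnit.unit, x)).1
      W1 := fun x z h => ?_
      W2 := fun x z h => ?_
      E0 := (hE' PUnit.unit).1
      E1 := fun n => (hE' PUnit.unit).2 n } hS
  · by_cases h : x < a
    · rw [hg1 x h]; exact h
    · rw [hg2 x h]; exact hfa x
  · obtain ⟨b, hb⟩ := hc v
    refine ⟨max a b, fun x hx => ?_⟩
    by_cases h : x < a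
    · exact h.le.trans (le_max_left _ _)
    · rw [hg2 x h] at hx
      by_contra h'
      exact hb x (lt_of_le_of_lt (le_max_right _ _) (not_le.1 h')) hx
  · exact ((hN' (PUnit.unit, x)).2 z).trans (if_pos h)
  · exact ((hN' (PUnit.unit, x)).2 z).trans (if_neg h)
  · exact ((hW' (PUnit.unit, x)).2 z).trans (if_pos h)
  · exact ((hW' (PUnit.unit, x)).2 z).trans (if_neg h)

end

end Pool.Agent.RM
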