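import Pool.Agent.RM.Coding

/-!
# Utilities for arguments inside a model of `RCA₀`
-/

set_option linter.unusedSectionVars false
set_option linter.unusedVariables false

namespace Pool.Agent.RM

universe u

section

variable {M : Type u} [CommSemiring M] [LinearOrder M] [IsStrictOrderedRing M]
  [CanonicallyOrderedAdd M] {S : Set (Set M)} [RCA0 M S]
variable {Γ Δ : Type u} [Ctx M Γ] [Ctx M Δ]

/-- unary function of the model -/
abbrev Fun1 (S : Set (Set M)) (F : M → M) : Prop := Tf S (fun p : PUnit.{u + 1} × M => F p.2)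
abbrev Fun2 (S : Set (Set M)) (F : M → M → M) : Prop :=
  Tf S (fun p : (PUnit.{u + 1} × M) × M => F p.1.2 p.2)
abbrev Rel1 (S : Set (Set M)) (R : M → Prop) : Prop := De S (fun p : PUnit.{u + 1} × M => R p.2)
abbrev Rel2 (S : Set (Set M)) (R : M → M → Prop) : Prop :=
  De S (fun p : (PUnit.{u + 1} × M) × M => R p.1.2 p.2)
abbrev Rel3 (S : Set (Set M)) (R : M → M → M → Prop) : Prop :=
  De S (fun p : ((PUnit.{u + 1} × M) × M) × M => R p.1.1.2 p.1.2 p.2)

theorem Tf.app1 {F : M → M} (hF : Fun1 S F) {f : Γ → M} (hf : Tf S f) :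
    Tf S (fun e => F (f e)) :=
  Tf.subst (F := fun (_ : Γ) x => F x) (hF.comap (CMap.unit.pair IsVar.last)) hf

theorem Tf.app2 {F : M → M → M} (hF : Fun2 S F) {f g : Γ → M} (hf : Tf S f) (hg : Tf S g) :
    Tf S (fun e => F (f e) (g e)) := by
  have h1 : Tf S (fun p : (Γ × M) × M => F p.1.2 p.2) :=
    hF.comap ((CMap.unit.pair IsVar.last.prev).pair IsVar.last)
  have h2 : Tf S (fun p : Γ × M => F p.2 (g p.1)) :=
    Tf.subst (F := fun (p : Γ × M) y => F p.2 y) h1 hg.weak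
  exact Tf.subst (F := fun (e : Γ) x => F x (g e)) h2 hf

theorem De.app1 {R : M → Prop} (hR : Rel1 S R) {f : Γ → M} (hf : Tf S f) :
    De S (fun e => R (f e)) :=
  De.subst (R := fun (_ : Γ) x => R x) (hR.comap (CMap.unit.pair IsVar.last)) hf

theorem De.app2 {R : M → M → Prop} (hR : Rel2 S R) {f g : Γ → M} (hf : Tf S f) (hg : Tf S g) :
    De S (fun e => R (f e) (g e)) := by
  have h1 : De S (fun p : (Γ × M) × M => R p.1.2 p.2) :=
    hR.comap ((CMap.unit.pair IsVar.last.prev).pair IsVar.last)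
  have h2 : De S (fun p : Γ × M => R p.2 (g p.1)) :=
    De.subst (R := fun (p : Γ × M) y => R p.2 y) h1 hg.weak
  exact De.subst (R := fun (e : Γ) x => R x (g e)) h2 hf

theorem De.app3 {R : M → M → M → Prop} (hR : Rel3 S R) {f g k : Γ → M} (hf : Tf S f)
    (hg : Tf S g) (hk : Tf S k) : De S (fun e => R (f e) (g e) (k e)) := by
  have h1 : De S (fun p : ((Γ × M) × M) × M => R p.1.1.2 p.1.2 p.2) :=
    hR.comap (((CMap.unit.pair IsVar.last.prev.prev).pair IsVar.last.prev).pair IsVar.last)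
  have h2 : De S (fun p : (Γ × M) × M => R p.1.2 p.2 (k p.1.1)) :=
    De.subst (R := fun (p : (Γ × M) × M) y => R p.1.2 p.2 y) h1 hk.weak.weak
  have h3 : De S (fun p : Γ × M => R p.2 (g p.1) (k p.1)) :=
    De.subst (R := fun (p : Γ × M) y => R p.2 y (k p.1)) h2 hg.weak
  exact De.subst (R := fun (e : Γ) x => R x (g e) (k e)) h3 hf

theorem Fun1.of_graph {F : M → M} (h : graph F ∈ S) : Fun1 S F := Tf.app h Tf.v0

theorem Fun1.graph {F : M → M} (h : Fun1 S F) : RM.graph F ∈ S :=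
  graph_mem (F := fun (_ : PUnit.{u + 1}) x => F x) h PUnit.unit

theorem ind1 {P : M → Prop} (h : Sg S (fun p : PUnit.{u + 1} × M => P p.2)) (h0 : P 0)
    (hs : ∀ x, P x → P (x + 1)) : ∀ x, P x :=
  Sg.induct (P := fun _ x => P x) h PUnit.unit h0 hs

theorem least1 {P : M → Prop} (h : Sg S (fun p : PUnit.{u + 1} × M => P p.2)) (hex : ∃ x, P x) :
    ∃ x, P x ∧ ∀ y, y < x → ¬ P y :=
  Sg.least (P := fun _ x => P x) h PUnit.unit hex

theorem greatest1 {P : M → Prop} (h : Sg S (fun p : PUnit.{u + 1} × M => P p.2))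
    (hex : ∃ x, P x) (b : M) (hb : ∀ x, P x → x ≤ b) : ∃ x, P x ∧ ∀ y, P y → y ≤ x :=
  Sg.greatest (P := fun _ x => P x) h PUnit.unit hex b hb

theorem set_mem {P : M → Prop} (h : Rel1 S P) : {x | P x} ∈ S :=
  De.compr (P := fun _ x => P x) h PUnit.unit

theorem exists_rel {r : M → M → Prop} (h : Rel2 S r) : ∃ R ∈ S, ∀ x y, Rel R x y ↔ r x y := by
  refine ⟨{z | ∃ x, x < z + 1 ∧ ∃ y, y < z + 1 ∧ z = pair x y ∧ r x y}, ?_, fun x y => ?_⟩
  · refine set_mem (De.bex (Tf.v0.add (Tf.const 1)) (De.bex (Tf.v1.add (Tf.const 1))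
      (De.and (De.eq Tf.v2 (Tf.pair Tf.v1 Tf.v0)) (De.app2 h Tf.v1 Tf.v0))))
  · constructor
    · rintro ⟨x', _, y', _, h1, h2⟩
      obtain ⟨rfl, rfl⟩ := pair_inj S h1
      exact h2
    · intro h1
      exact ⟨x, lt_add_one_of_le' (le_pair_left _ _), y,
        lt_add_one_of_le' (le_pair_right S _ _), rfl, h1⟩

end

end Pool.Agent.RM
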