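import Pool.Agent.RM.HypDefs
import Pool.Agent.RM.Util

/-!
# First-order definable relations with parameters
-/

set_option linter.unusedSectionVars false
set_option linter.unusedVariables false

namespace Pool.Agent.RM

universe u

/-- relational first-order formulas with parameters -/
inductive Rf (M : Type u) : Type u
  | add : ℕ → ℕ → ℕ → Rf M
  | mul : ℕ → ℕ → ℕ → Rf M
  | par : ℕ → M → Rf M
  | nand : Rf M → Rf M → Rf M
  | ex : Rf M → Rf M

def Rf.rename {M : Type u} : Rf M → (ℕ → ℕ) → Rf M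
  | .add i j k, r => .add (r i) (r j) (r k)
  | .mul i j k, r => .mul (r i) (r j) (r k)
  | .par i p, r => .par (r i) p
  | .nand φ ψ, r => .nand (φ.rename r) (ψ.rename r)
  | .ex φ, r => .ex (φ.rename (liftR r))

section

variable {M : Type u} [CommSemiring M] [LinearOrder M]

def Rf.Holds : Rf M → (ℕ → M) → Prop
  | .add i j k, v => v i + v j = v k
  | .mul i j k, v => v i * v j = v k
  | .par i p, v => v i = p
  | .nand φ ψ, v => ¬ (φ.Holds v ∧ ψ.Holds v)
  | .ex φ, v => ∃ x, φ.Holds (cons x v)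

theorem Rf.holds_rename (φ : Rf M) (r : ℕ → ℕ) (v : ℕ → M) :
    (φ.rename r).Holds v ↔ φ.Holds (fun i => v (r i)) := by
  induction φ generalizing r v with
  | add i j k => simp [Rf.rename, Rf.Holds]
  | mul i j k => simp [Rf.rename, Rf.Holds]
  | par i p => simp [Rf.rename, Rf.Holds]
  | nand φ ψ ih ih' => simp [Rf.rename, Rf.Holds, ih, ih']
  | ex φ ih => simp [Rf.rename, Rf.Holds, ih, cons_liftR]

variable {Γ Δ : Type u} [Ctx M Γ] [Ctx M Δ]

variable (M) in
/-- `P` is first-order definable with parameters -/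
def FO (P : Γ → Prop) : Prop :=
  ∃ φ : Rf M, ∀ (e : Γ) (v : ℕ → M), φ.Holds (Ctx.enc e v) ↔ P e

theorem FO.congr {P Q : Γ → Prop} (h : FO M P) (hPQ : ∀ e, P e ↔ Q e) : FO M Q := by
  obtain ⟨φ, hφ⟩ := h
  exact ⟨φ, fun e v => (hφ e v).trans (hPQ e)⟩

theorem FO.nand {P Q : Γ → Prop} (h : FO M P) (h' : FO M Q) : FO M (fun e => ¬ (P e ∧ Q e)) := by
  obtain ⟨φ, hφ⟩ := h
  obtain ⟨ψ, hψ⟩ := h'
  exact ⟨φ.nand ψ, fun e v => by simp [Rf.Holds, hφ, hψ]⟩

theorem FO.not {P : Γ → Prop} (h : FO M P) : FO M (fun e => ¬ P e) :=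
  (FO.nand h h).congr (fun e => by tauto)

theorem FO.and {P Q : Γ → Prop} (h : FO M P) (h' : FO M Q) : FO M (fun e => P e ∧ Q e) :=
  (FO.nand h h').not.congr (fun e => by tauto)

theorem FO.or {P Q : Γ → Prop} (h : FO M P) (h' : FO M Q) : FO M (fun e => P e ∨ Q e) :=
  (FO.nand h.not h'.not).congr (fun e => by tauto)

theorem FO.imp {P Q : Γ → Prop} (h : FO M P) (h' : FO M Q) : FO M (fun e => P e → Q e) :=
  (FO.nand h h'.not).congr (fun e => by tauto)

theorem FO.iff {P Q : Γ → Prop} (h : FO M P) (h' : FO M Q) : FO M (fun e => P e ↔ Q e) :=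
  (FO.and (h.imp h') (h'.imp h)).congr (fun e => by tauto)

theorem FO.ex {P : Γ → M → Prop} (h : FO M (fun p : Γ × M => P p.1 p.2)) :
    FO M (fun e => ∃ x, P e x) := by
  obtain ⟨φ, hφ⟩ := h
  exact ⟨φ.ex, fun e v => exists_congr fun x => hφ (e, x) v⟩

theorem FO.all {P : Γ → M → Prop} (h : FO M (fun p : Γ × M => P p.1 p.2)) :
    FO M (fun e => ∀ x, P e x) :=
  (FO.not (FO.ex (P := fun e x => ¬ P e x) h.not)).congr (fun e => by push Not; rfl)

theorem FO.comap {P : Γ → Prop} (h : FO M P) {g : Δ → Γ} (hg : CMap M g) :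
    FO M (fun d => P (g d)) := by
  obtain ⟨φ, hφ⟩ := h
  obtain ⟨r, hr⟩ := hg
  refine ⟨φ.rename r, fun e v => ?_⟩
  obtain ⟨v', hv'⟩ := hr e v
  have : (fun i => Ctx.enc e v (r i)) = Ctx.enc (g e) v' := by
    funext i
    exact hv' i
  rw [Rf.holds_rename, this, hφ]

theorem FO.weak {P : Γ → Prop} (h : FO M P) : FO M (fun p : Γ × M => P p.1) := h.comap CMap.fst

theorem FO.addVar {f g k : Γ → M} (hf : IsVar f) (hg : IsVar g) (hk : IsVar k) :
    FO M (fun e => f e + g e = k e) := by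
  obtain ⟨i, hi⟩ := hf
  obtain ⟨j, hj⟩ := hg
  obtain ⟨l, hl⟩ := hk
  exact ⟨.add i j l, fun e v => by simp [Rf.Holds, hi, hj, hl]⟩

theorem FO.mulVar {f g k : Γ → M} (hf : IsVar f) (hg : IsVar g) (hk : IsVar k) :
    FO M (fun e => f e * g e = k e) := by
  obtain ⟨i, hi⟩ := hf
  obtain ⟨j, hj⟩ := hg
  obtain ⟨l, hl⟩ := hk
  exact ⟨.mul i j l, fun e v => by simp [Rf.Holds, hi, hj, hl]⟩

theorem FO.parVar {f : Γ → M} (hf : IsVar f) (p : M) : FO M (fun e => f e = p) := by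
  obtain ⟨i, hi⟩ := hf
  exact ⟨.par i p, fun e v => by simp [Rf.Holds, hi]⟩

theorem FO.eqVar {f g : Γ → M} (hf : IsVar f) (hg : IsVar g) : FO M (fun e => f e = g e) :=
  (FO.ex (P := fun e z => z = 0 ∧ f e + z = g e) (FO.and (FO.parVar IsVar.last 0)
    (FO.addVar hf.prev IsVar.last hg.prev))).congr (fun e => by simp)

/-- definable functions -/
def FOF (f : Γ → M) : Prop := FO M (fun p : Γ × M => p.2 = f p.1)

theorem FO.subst {R : Γ → M → Prop} (hR : FO M (fun p : Γ × M => R p.1 p.2)) {f : Γ → M}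
    (hf : FOF f) : FO M (fun e => R e (f e)) :=
  (FO.ex (P := fun e x => x = f e ∧ R e x) (FO.and hf hR)).congr (fun e => by simp)

theorem FOF.comap {f : Γ → M} (h : FOF f) {g : Δ → Γ} (hg : CMap M g) :
    FOF (fun d => f (g d)) :=
  FO.comap (P := fun p : Γ × M => p.2 = f p.1) h (hg.prev.pair IsVar.last)

theorem FOF.weak {f : Γ → M} (h : FOF f) : FOF (fun p : Γ × M => f p.1) := h.comap CMap.fst

theorem FOF.ofVar {f : Γ → M} (h : IsVar f) : FOF f := FO.eqVar IsVar.last h.prev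

theorem FOF.const (a : M) : FOF (fun _ : Γ => a) := FO.parVar IsVar.last a

theorem FOF.v0 : FOF (fun p : Γ × M => p.2) := FOF.ofVar IsVar.last
theorem FOF.v1 : FOF (fun p : (Γ × M) × M => p.1.2) := FOF.ofVar IsVar.last.prev
theorem FOF.v2 : FOF (fun p : ((Γ × M) × M) × M => p.1.1.2) := FOF.ofVar IsVar.last.prev.prev
theorem FOF.v3 : FOF (fun p : (((Γ × M) × M) × M) × M => p.1.1.1.2) :=
  FOF.ofVar IsVar.last.prev.prev.prev
theorem FOF.v4 : FOF (fun p : ((((Γ × M) × M) × M) × M) × M => p.1.1.1.1.2) :=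
  FOF.ofVar IsVar.last.prev.prev.prev.prev
theorem FOF.v5 : FOF (fun p : (((((Γ × M) × M) × M) × M) × M) × M => p.1.1.1.1.1.2) :=
  FOF.ofVar IsVar.last.prev.prev.prev.prev.prev

theorem FOF.subst {F : Γ → M → M} (hF : FOF (fun p : Γ × M => F p.1 p.2)) {f : Γ → M}
    (hf : FOF f) : FOF (fun e => F e (f e)) := by
  have h1 : FO M (fun q : (Γ × M) × M => q.1.2 = F q.1.1 q.2) :=
    FO.comap (P := fun q : (Γ × M) × M => q.2 = F q.1.1 q.1.2) hF
      ((CMap.fst.prev.pair IsVar.last).pair IsVar.last.prev)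
  exact FO.subst (R := fun (p : Γ × M) x => p.2 = F p.1 x) h1 hf.weak

theorem FO.rel2 {R : M → M → Prop} (hR : FO M (fun p : (Γ × M) × M => R p.1.2 p.2))
    {f g : Γ → M} (hf : FOF f) (hg : FOF g) : FO M (fun e => R (f e) (g e)) := by
  have h1 : FO M (fun p : Γ × M => R p.2 (g p.1)) :=
    FO.subst (R := fun (p : Γ × M) y => R p.2 y) hR hg.weak
  exact FO.subst (R := fun (e : Γ) x => R x (g e)) h1 hf

theorem FOF.op2 {F : M → M → M} (hF : FOF (fun p : (Γ × M) × M => F p.1.2 p.2))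
    {f g : Γ → M} (hf : FOF f) (hg : FOF g) : FOF (fun e => F (f e) (g e)) := by
  have h1 : FOF (fun p : Γ × M => F p.2 (g p.1)) :=
    FOF.subst (F := fun (p : Γ × M) y => F p.2 y) hF hg.weak
  exact FOF.subst (F := fun (e : Γ) x => F x (g e)) h1 hf

theorem FOF.add {f g : Γ → M} (hf : FOF f) (hg : FOF g) : FOF (fun e => f e + g e) :=
  FOF.op2 (F := fun x y => x + y)
    ((FO.addVar IsVar.last.prev.prev IsVar.last.prev IsVar.last).congr (fun e => eq_comm)) hf hg

theorem FOF.mul {f g : Γ → M} (hf : FOF f) (hg : FOF g) : FOF (fun e => f e * g e) :=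
  FOF.op2 (F := fun x y => x * y)
    ((FO.mulVar IsVar.last.prev.prev IsVar.last.prev IsVar.last).congr (fun e => eq_comm)) hf hg

theorem FOF.pair {f g : Γ → M} (hf : FOF f) (hg : FOF g) : FOF (fun e => RM.pair (f e) (g e)) :=
  ((hf.add hg).mul (hf.add hg)).add hf

theorem FO.eq {f g : Γ → M} (hf : FOF f) (hg : FOF g) : FO M (fun e => f e = g e) :=
  FO.rel2 (R := fun x y => x = y) (FO.eqVar IsVar.last.prev IsVar.last) hf hg

end

section

variable {M : Type u} [CommSemiring M] [LinearOrder M] [IsStrictOrderedRing M]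
  [CanonicallyOrderedAdd M]
variable {Γ Δ : Type u} [Ctx M Γ] [Ctx M Δ]

theorem FO.le {f g : Γ → M} (hf : FOF f) (hg : FOF g) : FO M (fun e => f e ≤ g e) :=
  (FO.ex (P := fun e z => f e + z = g e) (FO.eq (hf.weak.add FOF.v0) hg.weak)).congr
    (fun e => ⟨fun ⟨z, hz⟩ => hz ▸ le_self_add, fun h => by
      obtain ⟨z, hz⟩ := exists_add_of_le h
      exact ⟨z, hz.symm⟩⟩)

theorem FO.lt {f g : Γ → M} (hf : FOF f) (hg : FOF g) : FO M (fun e => f e < g e) :=
  (FO.le hg hf).not.congr (fun e => not_le)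

variable (M) in
/-- the definable sets -/
def defS : Set (Set M) := {X | FO M (fun p : PUnit.{u + 1} × M => p.2 ∈ X)}

theorem FO.mem {f : Γ → M} (hf : FOF f) {X : Set M} (hX : X ∈ defS M) :
    FO M (fun e => f e ∈ X) :=
  FO.subst (R := fun (_ : Γ) x => x ∈ X)
    (FO.comap (P := fun p : PUnit.{u + 1} × M => p.2 ∈ X) hX (CMap.unit.pair IsVar.last)) hf

theorem FO.app1 {R : M → Prop} (hR : FO M (fun p : PUnit.{u + 1} × M => R p.2)) {f : Γ → M}
    (hf : FOF f) : FO M (fun e => R (f e)) :=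
  FO.subst (R := fun (_ : Γ) x => R x) (hR.comap (CMap.unit.pair IsVar.last)) hf

theorem FO.app2 {R : M → M → Prop} (hR : FO M (fun p : (PUnit.{u + 1} × M) × M => R p.1.2 p.2))
    {f g : Γ → M} (hf : FOF f) (hg : FOF g) : FO M (fun e => R (f e) (g e)) :=
  FO.rel2 (Γ := Γ) (R := R) (FO.comap (P := fun p : (PUnit.{u + 1} × M) × M => R p.1.2 p.2)
    (Δ := (Γ × M) × M) (g := fun q => ((PUnit.unit, q.1.2), q.2)) hR
    ((CMap.unit.pair IsVar.last.prev).pair IsVar.last)) hf hg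

/-- sections of definable relations are definable -/
theorem FO.section {P : M → M → Prop}
    (h : FO M (fun p : (PUnit.{u + 1} × M) × M => P p.1.2 p.2)) (a : M) :
    FO M (fun p : PUnit.{u + 1} × M => P a p.2) :=
  FO.app2 h (FOF.const a) FOF.v0

theorem FOF.tm {v : Γ → ℕ → M} (hv : ∀ i, FOF (fun e => v e i)) (t : Tm M) :
    FOF (fun e => t.eval (v e)) := by
  induction t with
  | var i => exact hv i
  | const a => exact FOF.const a
  | add s t hs ht => exact hs.add ht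
  | mul s t hs ht => exact hs.mul ht

theorem FOF.consAll {v : Γ → ℕ → M} (hv : ∀ i, FOF (fun e => v e i)) :
    ∀ i, FOF (fun p : Γ × M => cons p.2 (v p.1) i)
  | 0 => FOF.v0
  | i + 1 => (hv i).weak

/-- bounded formulas define definable relations -/
theorem FO.bd (φ : Bd M (defS M)) : ∀ {Γ : Type u} [Ctx M Γ] {v : Γ → ℕ → M},
    (∀ i, FOF (fun e => v e i)) → FO M (fun e => φ.Holds (v e)) := by
  induction φ with
  | eq s t => intro Γ _ v hv; exact FO.eq (FOF.tm hv s) (FOF.tm hv t)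
  | lt s t => intro Γ _ v hv; exact FO.lt (FOF.tm hv s) (FOF.tm hv t)
  | mem t X => intro Γ _ v hv; exact FO.mem (FOF.tm hv t) X.2
  | neg φ ih => intro Γ _ v hv; exact (ih hv).not
  | and φ ψ ih ih' => intro Γ _ v hv; exact (ih hv).and (ih' hv)
  | ball t φ ih =>
    intro Γ _ v hv
    refine FO.all (P := fun e x => x < t.eval (v e) → φ.Holds (cons x (v e)))
      (FO.imp (FO.lt FOF.v0 (FOF.tm hv t).weak) ?_)
    exact ih (v := fun p : Γ × M => cons p.2 (v p.1)) (FOF.consAll hv)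

/-- arithmetic formulas define definable relations, for a uniformly definable value of the
set variable -/
theorem FO.ar (φ : Ar M (defS M)) : ∀ {Γ : Type u} [Ctx M Γ] {v : Γ → ℕ → M} {X : Γ → Set M},
    (∀ i, FOF (fun e => v e i)) → FO M (fun p : Γ × M => p.2 ∈ X p.1) →
      FO M (fun e => φ.Holds (X e) (v e)) := by
  induction φ with
  | eq s t => intro Γ _ v X hv hX; exact FO.eq (FOF.tm hv s) (FOF.tm hv t)
  | lt s t => intro Γ _ v X hv hX; exact FO.lt (FOF.tm hv s) (FOF.tm hv t)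
  | mem t Z => intro Γ _ v X hv hX; exact FO.mem (FOF.tm hv t) Z.2
  | memv t =>
    intro Γ _ v X hv hX
    exact FO.subst (R := fun e x => x ∈ X e) hX (FOF.tm hv t)
  | neg φ ih => intro Γ _ v X hv hX; exact (ih hv hX).not
  | and φ ψ ih ih' => intro Γ _ v X hv hX; exact (ih hv hX).and (ih' hv hX)
  | all φ ih =>
    intro Γ _ v X hv hX
    refine FO.all (P := fun e x => φ.Holds (X e) (cons x (v e))) ?_
    exact ih (v := fun p : Γ × M => cons p.2 (v p.1)) (X := fun p : Γ × M => X p.1)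
      (FOF.consAll hv)
      (FO.comap (P := fun p : Γ × M => p.2 ∈ X p.1) hX (CMap.fst.prev.pair IsVar.last))

end

end Pool.Agent.RM
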