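import Pool.Agent.RM.Calc

/-!
# `Σ⁰₁` predicates, `Δ⁰₁` predicates and functions in a model of `RCA₀`
-/

set_option linter.unusedSectionVars false
set_option linter.unusedVariables false

namespace Pool.Agent.RM

universe u

section

variable {M : Type u} [CommSemiring M] [LinearOrder M]
variable {Γ : Type u} [Ctx M Γ]

theorem T0.v0 : T0 (fun p : Γ × M => p.2) := T0.ofVar IsVar.last
theorem T0.v1 : T0 (fun p : (Γ × M) × M => p.1.2) := T0.ofVar IsVar.last.prev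
theorem T0.v2 : T0 (fun p : ((Γ × M) × M) × M => p.1.1.2) := T0.ofVar IsVar.last.prev.prev
theorem T0.v3 : T0 (fun p : (((Γ × M) × M) × M) × M => p.1.1.1.2) :=
  T0.ofVar IsVar.last.prev.prev.prev
theorem T0.weak {f : Γ → M} (h : T0 f) : T0 (fun p : Γ × M => f p.1) := h.comap CMap.fst

end

section

variable {M : Type u} [CommSemiring M] [LinearOrder M] [IsStrictOrderedRing M]
  [CanonicallyOrderedAdd M]

theorem lt_add_one_iff' (S : Set (Set M)) [RCA0 M S] {x y : M} : x < y + 1 ↔ x ≤ y := by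
  refine ⟨fun h => ?_, lt_add_one_of_le'⟩
  by_contra hc
  rw [not_le] at hc
  obtain ⟨z, rfl⟩ := exists_add_of_le hc.le
  have hz : 0 < z := by
    by_contra h0
    have : z = 0 := le_antisymm (not_lt.1 h0) (zero_le)
    subst this
    simp at hc
  have := RCA0.discrete (S := S) z hz
  have h2 : y + 1 ≤ y + z := by gcongr
  exact absurd h (not_lt.2 h2)

theorem add_one_le_iff' (S : Set (Set M)) [RCA0 M S] {x y : M} : x + 1 ≤ y ↔ x < y := by
  rw [← not_lt, lt_add_one_iff' S, not_le]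

theorem eq_zero_or_succ (S : Set (Set M)) [RCA0 M S] (x : M) : x = 0 ∨ ∃ y, x = y + 1 := by
  rcases eq_or_ne x 0 with h | h
  · exact Or.inl h
  · right
    have h0 : 0 < x := lt_of_le_of_ne (zero_le) h.symm
    have h1 := RCA0.discrete (S := S) x h0
    obtain ⟨z, hz⟩ := exists_add_of_le h1
    exact ⟨z, by rw [hz, add_comm]⟩

end

section

variable {M : Type u} [CommSemiring M] [LinearOrder M] [IsStrictOrderedRing M]
  [CanonicallyOrderedAdd M] {S : Set (Set M)} [RCA0 M S]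
variable {Γ Δ : Type u} [Ctx M Γ] [Ctx M Δ]

/-- `Σ⁰₁`-collection, for a `Δ⁰₀` matrix -/
theorem collect0 {Q : Γ → M → M → Prop} (hQ : D0 S (fun p : (Γ × M) × M => Q p.1.1 p.1.2 p.2))
    (e : Γ) (a : M) (h : ∀ x, x < a → ∃ y, Q e x y) :
    ∃ z, ∀ x, x < a → ∃ y, y < z ∧ Q e x y := by
  have key : ∀ c : M, ∃ z, ∀ x, x < c → x < a → ∃ y, y < z ∧ Q e x y := by
    refine Sg.induct (S := S) (P := fun (e : Γ) c => ∃ z, ∀ x, x < c → x < a → ∃ y, y < z ∧ Q e x y)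
      (Sg.ex (Sg.of0 (D0.ball T0.v1 (D0.imp (D0.lt T0.v0 (T0.const a)) (D0.bex T0.v1 ?_)))))
      e ?_ ?_
    · exact hQ.comap ((CMap.fst.prev.prev.prev.pair IsVar.last.prev).pair IsVar.last)
    · exact ⟨0, fun x hx => absurd hx (not_lt.2 (zero_le))⟩
    · rintro c ⟨z, hz⟩
      by_cases hc : c < a
      · obtain ⟨y, hy⟩ := h c hc
        refine ⟨max z (y + 1), fun x hx hxa => ?_⟩
        rcases lt_or_eq_of_le ((lt_add_one_iff' S).1 hx) with h1 | rfl
        · obtain ⟨w, hw, hw'⟩ := hz x h1 hxa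
          exact ⟨w, lt_of_lt_of_le hw (le_max_left _ _), hw'⟩
        · exact ⟨y, lt_of_lt_of_le (lt_add_one_self y) (le_max_right _ _), hy⟩
      · refine ⟨z, fun x hx hxa => hz x ?_ hxa⟩
        exact lt_of_lt_of_le hxa (not_lt.1 hc)
  obtain ⟨z, hz⟩ := key a
  exact ⟨z, fun x hx => hz x hx hx⟩

theorem Sg.ball {P : Γ → M → Prop} {b : Γ → M} (hb : T0 b)
    (h : Sg S (fun p : Γ × M => P p.1 p.2)) : Sg S (fun e => ∀ x, x < b e → P e x) := by
  obtain ⟨A, hA, h⟩ := h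
  refine ⟨fun e z => ∀ x, x < b e → ∃ y, y < z ∧ A (e, x) y, ?_, fun e => ?_⟩
  · refine D0.ball hb.weak (D0.bex T0.v1 ?_)
    exact hA.comap (((CMap.fst.prev.prev).pair IsVar.last.prev).pair IsVar.last)
  · constructor
    · intro h'
      exact collect0 (S := S) (Q := fun e x y => A (e, x) y) hA e (b e)
        (fun x hx => (h (e, x)).1 (h' x hx))
    · rintro ⟨z, hz⟩ x hx
      obtain ⟨y, _, hy⟩ := hz x hx
      exact (h (e, x)).2 ⟨y, hy⟩

theorem Sg.bex0 {P : Γ → M → Prop} {b : Γ → M} (hb : T0 b)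
    (h : Sg S (fun p : Γ × M => P p.1 p.2)) : Sg S (fun e => ∃ x, x < b e ∧ P e x) :=
  Sg.ex (Sg.and (Sg.of0 (D0.lt T0.v0 hb.weak)) h)

/-- the least number principle for `Σ⁰₁` predicates -/
theorem Sg.least {P : Γ → M → Prop} (h : Sg S (fun p : Γ × M => P p.1 p.2)) (e : Γ)
    (hex : ∃ x, P e x) : ∃ x, P e x ∧ ∀ y, y < x → ¬ P e y := by
  by_contra hc
  push Not at hc
  obtain ⟨a, ha⟩ := hex
  -- `θ z` : there is `w` with `w + z ≤ a` and `P e w`
  have key : ∀ z : M, ∃ w, w + z ≤ a ∧ P e w := by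
    refine Sg.induct (S := S) (P := fun (e : Γ) z => ∃ w, w + z ≤ a ∧ P e w)
      (Sg.ex (Sg.and (Sg.of0 (D0.le (T0.v0.add T0.v1) (T0.const a))) ?_)) e ?_ ?_
    · exact h.comap (CMap.fst.prev.pair IsVar.last)
    · exact ⟨a, by simp, ha⟩
    · rintro z ⟨w, hw, hPw⟩
      obtain ⟨y, hy, hPy⟩ := hc w hPw
      refine ⟨y, ?_, hPy⟩
      have h1 : y + 1 ≤ w := (add_one_le_iff' S).2 hy
      calc y + (z + 1) = (y + 1) + z := by ring
        _ ≤ w + z := by gcongr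
        _ ≤ a := hw
  obtain ⟨w, hw, _⟩ := key (a + 1)
  have : a + 1 ≤ w + (a + 1) := le_add_self
  exact absurd (this.trans hw) (not_le.2 (lt_add_one_self a))

/-- the greatest number principle for `Σ⁰₁` predicates -/
theorem Sg.greatest {P : Γ → M → Prop} (h : Sg S (fun p : Γ × M => P p.1 p.2)) (e : Γ)
    (hex : ∃ x, P e x) (b : M) (hb : ∀ x, P e x → x ≤ b) :
    ∃ x, P e x ∧ ∀ y, P e y → y ≤ x := by
  by_contra hc
  push Not at hc
  have key : ∀ z : M, ∃ w, z ≤ w ∧ P e w := by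
    refine Sg.induct (S := S) (P := fun (e : Γ) z => ∃ w, z ≤ w ∧ P e w)
      (Sg.ex (Sg.and (Sg.of0 (D0.le T0.v1 T0.v0)) ?_)) e ?_ ?_
    · exact h.comap (CMap.fst.prev.pair IsVar.last)
    · obtain ⟨x, hx⟩ := hex
      exact ⟨x, zero_le, hx⟩
    · rintro z ⟨w, hw, hPw⟩
      obtain ⟨y, hPy, hy⟩ := hc w hPw
      exact ⟨y, (add_one_le_iff' S).2 (lt_of_le_of_lt hw hy), hPy⟩
  obtain ⟨w, hw, hPw⟩ := key (b + 1)
  exact absurd (hw.trans (hb w hPw)) (not_le.2 (lt_add_one_self b))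

/-! ### functions with `Σ⁰₁` graph and `Δ⁰₁` predicates -/

/-- `f` is (as a function of its context) recursive in the sense of the model -/
def Tf (S : Set (Set M)) (f : Γ → M) : Prop := Sg S (fun p : Γ × M => p.2 = f p.1)

/-- `P` is `Δ⁰₁` -/
def De (S : Set (Set M)) (P : Γ → Prop) : Prop := Sg S P ∧ Sg S (fun e => ¬ P e)

theorem Sg.subst {R : Γ → M → Prop} (hR : Sg S (fun p : Γ × M => R p.1 p.2)) {f : Γ → M}
    (hf : Tf S f) : Sg S (fun e => R e (f e)) :=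
  (Sg.ex (P := fun e x => x = f e ∧ R e x) (Sg.and hf hR)).congr (fun e => by simp)

theorem De.subst {R : Γ → M → Prop} (hR : De S (fun p : Γ × M => R p.1 p.2)) {f : Γ → M}
    (hf : Tf S f) : De S (fun e => R e (f e)) :=
  ⟨hR.1.subst hf, Sg.subst (R := fun e x => ¬ R e x) hR.2 hf⟩

theorem Tf.of0 {f : Γ → M} (h : T0 f) : Tf S f := Sg.of0 (D0.eq T0.v0 h.weak)

theorem De.of0 {P : Γ → Prop} (h : D0 S P) : De S P := ⟨Sg.of0 h, Sg.of0 h.not⟩

theorem Tf.comap {f : Γ → M} (h : Tf S f) {g : Δ → Γ} (hg : CMap M g) :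
    Tf S (fun d => f (g d)) :=
  Sg.comap (P := fun p : Γ × M => p.2 = f p.1) h (hg.prev.pair IsVar.last)

theorem De.comap {P : Γ → Prop} (h : De S P) {g : Δ → Γ} (hg : CMap M g) :
    De S (fun d => P (g d)) := ⟨h.1.comap hg, Sg.comap (P := fun e => ¬ P e) h.2 hg⟩

theorem De.congr {P Q : Γ → Prop} (h : De S P) (hPQ : ∀ e, P e ↔ Q e) : De S Q :=
  ⟨h.1.congr hPQ, h.2.congr (fun e => not_congr (hPQ e))⟩

theorem Tf.congr {f g : Γ → M} (h : Tf S f) (hfg : ∀ e, f e = g e) : Tf S g :=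
  Sg.congr h (fun p => by rw [hfg])

theorem De.not {P : Γ → Prop} (h : De S P) : De S (fun e => ¬ P e) :=
  ⟨h.2, h.1.congr (fun e => not_not.symm)⟩

theorem De.and {P Q : Γ → Prop} (h : De S P) (h' : De S Q) : De S (fun e => P e ∧ Q e) :=
  ⟨h.1.and h'.1, (h.2.or h'.2).congr (fun e => by tauto)⟩

theorem De.or {P Q : Γ → Prop} (h : De S P) (h' : De S Q) : De S (fun e => P e ∨ Q e) :=
  ⟨h.1.or h'.1, (h.2.and h'.2).congr (fun e => by tauto)⟩

theorem De.imp {P Q : Γ → Prop} (h : De S P) (h' : De S Q) : De S (fun e => P e → Q e) :=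
  (h.not.or h').congr (fun e => by tauto)

theorem Sg.imp {P Q : Γ → Prop} (h : De S P) (h' : Sg S Q) : Sg S (fun e => P e → Q e) :=
  (Sg.or h.2 h').congr (fun e => by tauto)

theorem De.iff {P Q : Γ → Prop} (h : De S P) (h' : De S Q) : De S (fun e => P e ↔ Q e) :=
  ((h.imp h').and (h'.imp h)).congr (fun e => by tauto)

theorem Sg.weak {P : Γ → Prop} (h : Sg S P) : Sg S (fun p : Γ × M => P p.1) := h.comap CMap.fst
theorem De.weak {P : Γ → Prop} (h : De S P) : De S (fun p : Γ × M => P p.1) := h.comap CMap.fst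
theorem Tf.weak {f : Γ → M} (h : Tf S f) : Tf S (fun p : Γ × M => f p.1) := h.comap CMap.fst

theorem Tf.v0 : Tf S (fun p : Γ × M => p.2) := Tf.of0 T0.v0
theorem Tf.v1 : Tf S (fun p : (Γ × M) × M => p.1.2) := Tf.of0 T0.v1
theorem Tf.v2 : Tf S (fun p : ((Γ × M) × M) × M => p.1.1.2) := Tf.of0 T0.v2
theorem Tf.v3 : Tf S (fun p : (((Γ × M) × M) × M) × M => p.1.1.1.2) := Tf.of0 T0.v3
theorem Tf.const (a : M) : Tf S (fun _ : Γ => a) := Tf.of0 (T0.const a)

theorem De.rel0 {R : M → M → Prop} (hR : D0 S (fun p : (Γ × M) × M => R p.1.2 p.2))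
    {f g : Γ → M} (hf : Tf S f) (hg : Tf S g) : De S (fun e => R (f e) (g e)) := by
  have h1 : De S (fun p : Γ × M => R p.2 (g p.1)) :=
    De.subst (R := fun (p : Γ × M) y => R p.2 y) (De.of0 hR) hg.weak
  exact De.subst (R := fun (e : Γ) x => R x (g e)) h1 hf

theorem De.eq {f g : Γ → M} (hf : Tf S f) (hg : Tf S g) : De S (fun e => f e = g e) :=
  De.rel0 (R := fun x y => x = y) (D0.eq T0.v1 T0.v0) hf hg

theorem De.lt {f g : Γ → M} (hf : Tf S f) (hg : Tf S g) : De S (fun e => f e < g e) :=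
  De.rel0 (R := fun x y => x < y) (D0.lt T0.v1 T0.v0) hf hg

theorem De.le {f g : Γ → M} (hf : Tf S f) (hg : Tf S g) : De S (fun e => f e ≤ g e) :=
  De.rel0 (R := fun x y => x ≤ y) (D0.le T0.v1 T0.v0) hf hg

theorem De.mem {f : Γ → M} (hf : Tf S f) {X : Set M} (hX : X ∈ S) : De S (fun e => f e ∈ X) :=
  De.subst (R := fun (_ : Γ) x => x ∈ X) (De.of0 (D0.mem T0.v0 hX)) hf

/-- composition -/
theorem Tf.subst {F : Γ → M → M} (hF : Tf S (fun p : Γ × M => F p.1 p.2)) {f : Γ → M}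
    (hf : Tf S f) : Tf S (fun e => F e (f e)) := by
  have h1 : Sg S (fun q : (Γ × M) × M => q.1.2 = F q.1.1 q.2) :=
    Sg.comap (P := fun q : (Γ × M) × M => q.2 = F q.1.1 q.1.2) hF
      ((CMap.fst.prev.pair IsVar.last).pair IsVar.last.prev)
  exact Sg.subst (R := fun (p : Γ × M) x => p.2 = F p.1 x) h1 hf.weak

theorem Tf.op0 {F : M → M → M} (hF : T0 (fun p : (Γ × M) × M => F p.1.2 p.2))
    {f g : Γ → M} (hf : Tf S f) (hg : Tf S g) : Tf S (fun e => F (f e) (g e)) := by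
  have h1 : Tf S (fun p : Γ × M => F p.2 (g p.1)) :=
    Tf.subst (F := fun (p : Γ × M) y => F p.2 y) (Tf.of0 hF) hg.weak
  exact Tf.subst (F := fun (e : Γ) x => F x (g e)) h1 hf

theorem Tf.add {f g : Γ → M} (hf : Tf S f) (hg : Tf S g) : Tf S (fun e => f e + g e) :=
  Tf.op0 (F := fun x y => x + y) (T0.v1.add T0.v0) hf hg

theorem Tf.mul {f g : Γ → M} (hf : Tf S f) (hg : Tf S g) : Tf S (fun e => f e * g e) :=
  Tf.op0 (F := fun x y => x * y) (T0.v1.mul T0.v0) hf hg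

theorem Sg.ballf {P : Γ → M → Prop} {b : Γ → M} (hb : Tf S b)
    (h : Sg S (fun p : Γ × M => P p.1 p.2)) : Sg S (fun e => ∀ x, x < b e → P e x) :=
  Sg.subst (R := fun (e : Γ) c => ∀ x, x < c → P e x)
    (Sg.ball T0.v0 (h.comap (CMap.fst.prev.pair IsVar.last))) hb

theorem Sg.bex {P : Γ → M → Prop} {b : Γ → M} (hb : Tf S b)
    (h : Sg S (fun p : Γ × M => P p.1 p.2)) : Sg S (fun e => ∃ x, x < b e ∧ P e x) :=
  Sg.ex (Sg.and (De.lt Tf.v0 hb.weak).1 h)

theorem De.ball {P : Γ → M → Prop} {b : Γ → M} (hb : Tf S b)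
    (h : De S (fun p : Γ × M => P p.1 p.2)) : De S (fun e => ∀ x, x < b e → P e x) :=
  ⟨Sg.ballf hb h.1, (Sg.bex (P := fun e x => ¬ P e x) hb h.2).congr
    (fun e => by push Not; rfl)⟩

theorem De.bex {P : Γ → M → Prop} {b : Γ → M} (hb : Tf S b)
    (h : De S (fun p : Γ × M => P p.1 p.2)) : De S (fun e => ∃ x, x < b e ∧ P e x) :=
  (De.not (De.ball (P := fun e x => ¬ P e x) hb h.not)).congr (fun e => by push Not; rfl)

/-- definition by minimization -/
theorem Tf.mu {P : Γ → M → Prop} (h : De S (fun p : Γ × M => P p.1 p.2)) {f : Γ → M}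
    (hf : ∀ e, P e (f e) ∧ ∀ y, y < f e → ¬ P e y) : Tf S f := by
  have h1 : De S (fun p : Γ × M => P p.1 p.2 ∧ ∀ y, y < p.2 → ¬ P p.1 y) :=
    De.and h (De.ball Tf.v0 (De.comap (P := fun p : Γ × M => ¬ P p.1 p.2) h.not
      (CMap.fst.prev.pair IsVar.last)))
  refine h1.1.congr (fun p => ?_)
  constructor
  · rintro ⟨h2, h3⟩
    obtain ⟨h4, h5⟩ := hf p.1
    by_contra hne
    rcases lt_or_gt_of_ne hne with h6 | h6
    · exact h5 _ h6 h2
    · exact h3 _ h6 h4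
  · intro h2
    rw [h2]
    exact hf p.1

theorem exists_mu {P : Γ → M → Prop} (h : De S (fun p : Γ × M => P p.1 p.2))
    (hex : ∀ e, ∃ x, P e x) : ∃ f : Γ → M, Tf S f ∧ ∀ e, P e (f e) ∧ ∀ y, y < f e → ¬ P e y := by
  choose f hf using fun e => Sg.least h.1 e (hex e)
  exact ⟨f, Tf.mu h hf, hf⟩

theorem Tf.ite {P : Γ → Prop} (hP : De S P) {f g : Γ → M} (hf : Tf S f) (hg : Tf S g)
    (k : Γ → M) (hk : ∀ e, P e → k e = f e) (hk' : ∀ e, ¬ P e → k e = g e) : Tf S k := by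
  have h1 : Sg S (fun p : Γ × M => (P p.1 ∧ p.2 = f p.1) ∨ (¬ P p.1 ∧ p.2 = g p.1)) :=
    Sg.or (Sg.and hP.1.weak hf) (Sg.and hP.2.weak hg)
  refine h1.congr (fun p => ?_)
  by_cases h : P p.1
  · simp [h, hk]
  · simp [h, hk']

/-- a `Tf`-function determined by a `Σ⁰₁` graph -/
theorem Tf.of_graph {R : Γ → M → Prop} (hR : Sg S (fun p : Γ × M => R p.1 p.2)) {f : Γ → M}
    (hf : ∀ e x, R e x ↔ x = f e) : Tf S f := hR.congr (fun p => hf p.1 p.2)

theorem De.compr {P : Γ → M → Prop} (h : De S (fun p : Γ × M => P p.1 p.2)) (e : Γ) :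
    {x | P e x} ∈ S := Sg.compr h.1 h.2 e

end

end Pool.Agent.RM
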