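import Pool.Agent.RM.Levels

/-!
# Universality of the hierarchy
-/

set_option linter.unusedSectionVars false
set_option linter.unusedVariables false

namespace Pool.Agent.RM

universe u

section

variable {M : Type u} [CommSemiring M] [LinearOrder M] [IsStrictOrderedRing M]
  [CanonicallyOrderedAdd M]

/-- all variables are less than the bound -/
def Rf.bound : Rf M → ℕ
  | .add i j k => i + j + k + 1
  | .mul i j k => i + j + k + 1
  | .par i _ => i + 1
  | .nand φ ψ => φ.bound + ψ.bound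
  | .ex φ => φ.bound

theorem Rf.holds_congr (φ : Rf M) {v w : ℕ → M} (h : ∀ i, i < φ.bound → v i = w i) :
    φ.Holds v ↔ φ.Holds w := by
  induction φ generalizing v w with
  | add i j k =>
    simp only [Rf.bound] at h
    simp only [Rf.Holds]
    rw [h i (by omega), h j (by omega), h k (by omega)]
  | mul i j k =>
    simp only [Rf.bound] at h
    simp only [Rf.Holds]
    rw [h i (by omega), h j (by omega), h k (by omega)]
  | par i p =>
    simp only [Rf.bound] at h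
    simp only [Rf.Holds]
    rw [h i (by omega)]
  | nand φ ψ ih ih' =>
    simp only [Rf.bound] at h
    simp only [Rf.Holds]
    rw [ih (fun i hi => h i (by omega)), ih' (fun i hi => h i (by omega))]
  | ex φ ih =>
    simp only [Rf.bound] at h
    simp only [Rf.Holds]
    refine exists_congr fun x => ih (fun i hi => ?_)
    cases i with
    | zero => rfl
    | succ i => exact h i (by omega)

/-- the assignment coded by `u, b` -/
noncomputable def asg (u b : M) : ℕ → M := fun j => bet u b (j : M)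

section

theorem exists_cons (S : Set (Set M)) [RCA0 M S] (x u b L : M) :
    ∃ u' b', bet u' b' 0 = x ∧ ∀ j, j < L → bet u' b' (j + 1) = bet u b j := by
  classical
  have hdec : ∀ i : M, ∃ y, (i = 0 ∧ y = x) ∨ ∃ j, i = j + 1 ∧ y = bet u b j := by
    intro i
    rcases eq_zero_or_succ S i with h | ⟨j, h⟩
    · exact ⟨x, Or.inl ⟨h, rfl⟩⟩
    · exact ⟨_, Or.inr ⟨j, h, rfl⟩⟩
  choose f hf using hdec
  have hne : ∀ j : M, j + 1 ≠ 0 := fun j h =>
    absurd (lt_add_one_self j) (by rw [h]; exact not_lt.2 zero_le)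
  have hfu : ∀ i y, ((i = 0 ∧ y = x) ∨ ∃ j, i = j + 1 ∧ y = bet u b j) ↔ y = f i := by
    intro i y
    have key : ∀ y y', ((i = 0 ∧ y = x) ∨ ∃ j, i = j + 1 ∧ y = bet u b j) →
        ((i = 0 ∧ y' = x) ∨ ∃ j, i = j + 1 ∧ y' = bet u b j) → y = y' := by
      rintro y y' (⟨h1, rfl⟩ | ⟨j, h1, rfl⟩) (⟨h2, rfl⟩ | ⟨j', h2, rfl⟩)
      · rfl
      · exact absurd (h1.symm.trans h2).symm (hne _)
      · exact absurd (h1.symm.trans h2) (hne _)
      · have := add_right_cancel (h1.symm.trans h2)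
        rw [this]
    exact ⟨fun h => key y (f i) h (hf i), fun h => h ▸ hf i⟩
  have hfS : Tf S (fun p : PUnit.{u + 1} × M => f p.2) := by
    refine Tf.of_graph (R := fun p y => (p.2 = 0 ∧ y = x) ∨ ∃ j, p.2 = j + 1 ∧ y = bet u b j)
      ?_ (fun p y => hfu p.2 y)
    refine Sg.or (Sg.and (De.eq Tf.v1 (Tf.const 0)).1 (De.eq Tf.v0 (Tf.const x)).1)
      (Sg.ex (Sg.and (De.eq Tf.v2 (Tf.v0.add (Tf.const 1))).1
        (De.eq Tf.v1 (Tf.bet (Tf.const u) (Tf.const b) Tf.v0)).1))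
  obtain ⟨u', b', h⟩ := exists_code (S := S) (F := fun (_ : PUnit.{u + 1}) i => f i) hfS
    PUnit.unit (L + 1)
  refine ⟨u', b', ?_, fun j hj => ?_⟩
  · rw [h 0 (lt_of_le_of_lt zero_le (lt_add_one_self L))]
    exact ((hfu 0 x).1 (Or.inl ⟨rfl, rfl⟩)).symm
  · rw [h (j + 1) (by gcongr)]
    exact ((hfu (j + 1) _).1 (Or.inr ⟨j, rfl, rfl⟩)).symm

theorem num_ne : (0 : M) ≠ 1 ∧ (0 : M) ≠ 2 ∧ (0 : M) ≠ 3 ∧ (0 : M) ≠ 4 ∧ (0 : M) ≠ 5 ∧
    (1 : M) ≠ 2 ∧ (1 : M) ≠ 3 ∧ (1 : M) ≠ 4 ∧ (1 : M) ≠ 5 ∧ (2 : M) ≠ 3 ∧ (2 : M) ≠ 4 ∧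
    (2 : M) ≠ 5 ∧ (3 : M) ≠ 4 ∧ (3 : M) ≠ 5 ∧ (4 : M) ≠ 5 := by
  have h0 : (0 : M) ≠ 1 := zero_ne_one
  refine ⟨by norm_num, by norm_num, by norm_num, by norm_num, by norm_num, by norm_num,
    by norm_num, by norm_num, by norm_num, by norm_num, by norm_num, by norm_num, by norm_num,
    by norm_num, by norm_num⟩

theorem JP0 (S : Set (Set M)) [RCA0 M S] (Q : M → Prop) (a₁ a₂ u b : M) :
    JP Q (pair 0 (pair a₁ a₂)) u b ↔ ¬ (Q (trip a₁ u b) ∧ Q (trip a₂ u b)) := by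
  obtain ⟨h01, h02, h03, h04, h05, _⟩ := num_ne (M := M)
  constructor
  · rintro (⟨x, y, h, h'⟩ | ⟨x, y, h, h'⟩ | ⟨x, h, h'⟩ | ⟨x, y, z, h, h'⟩ | ⟨x, y, z, h, h'⟩ |
      ⟨x, y, h, h'⟩)
    · obtain ⟨_, h2⟩ := pair_inj S h
      obtain ⟨rfl, rfl⟩ := pair_inj S h2
      exact h'
    · exact absurd (pair_inj S h).1 h01
    · exact absurd (pair_inj S h).1 h02
    · exact absurd (pair_inj S h).1 h03
    · exact absurd (pair_inj S h).1 h04
    · exact absurd (pair_inj S h).1 h05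
  · intro h
    exact Or.inl ⟨_, _, rfl, h⟩

theorem JP1 (S : Set (Set M)) [RCA0 M S] (Q : M → Prop) (L a u b : M) :
    JP Q (pair 1 (pair L a)) u b ↔ ∃ u' b',
      (∀ j, j < L → bet u' b' (j + 1) = bet u b j) ∧ Q (trip a u' b') := by
  obtain ⟨h01, h02, h03, h04, h05, h12, h13, h14, h15, _⟩ := num_ne (M := M)
  constructor
  · rintro (⟨x, y, h, h'⟩ | ⟨x, y, h, u', b', h', h''⟩ | ⟨x, h, h'⟩ | ⟨x, y, z, h, h'⟩ |
      ⟨x, y, z, h, h'⟩ | ⟨x, y, h, h'⟩)
    · exact absurd (pair_inj S h).1 h01.symm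
    · obtain ⟨_, h2⟩ := pair_inj S h
      obtain ⟨rfl, rfl⟩ := pair_inj S h2
      refine ⟨u', b', fun j hj => ?_, h''⟩
      obtain ⟨y, h3, h4⟩ := h' j hj
      exact h3.trans h4.symm
    · exact absurd (pair_inj S h).1 h12
    · exact absurd (pair_inj S h).1 h13
    · exact absurd (pair_inj S h).1 h14
    · exact absurd (pair_inj S h).1 h15
  · rintro ⟨u', b', h, h'⟩
    exact Or.inr (Or.inl ⟨_, _, rfl, u', b', fun j hj => ⟨_, h j hj, rfl⟩, h'⟩)

theorem JP2 (S : Set (Set M)) [RCA0 M S] (Q : M → Prop) (a u b : M) : JP Q (pair 2 a) u b ↔ Q (trip a u b) := by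
  obtain ⟨h01, h02, h03, h04, h05, h12, h13, h14, h15, h23, h24, h25, _⟩ := num_ne (M := M)
  constructor
  · rintro (⟨x, y, h, h'⟩ | ⟨x, y, h, h'⟩ | ⟨x, h, h'⟩ | ⟨x, y, z, h, h'⟩ | ⟨x, y, z, h, h'⟩ |
      ⟨x, y, h, h'⟩)
    · exact absurd (pair_inj S h).1 h02.symm
    · exact absurd (pair_inj S h).1 h12.symm
    · obtain ⟨_, rfl⟩ := pair_inj S h
      exact h'
    · exact absurd (pair_inj S h).1 h23
    · exact absurd (pair_inj S h).1 h24
    · exact absurd (pair_inj S h).1 h25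
  · intro h
    exact Or.inr (Or.inr (Or.inl ⟨_, rfl, h⟩))

theorem JP3 (S : Set (Set M)) [RCA0 M S] (Q : M → Prop) (i j k u b : M) : JP Q (pair 3 (pair i (pair j k))) u b ↔
    bet u b i + bet u b j = bet u b k := by
  obtain ⟨h01, h02, h03, h04, h05, h12, h13, h14, h15, h23, h24, h25, h34, h35, h45⟩ :=
    num_ne (M := M)
  constructor
  · rintro (⟨x, y, h, h'⟩ | ⟨x, y, h, h'⟩ | ⟨x, h, h'⟩ | ⟨x, y, z, h, h'⟩ | ⟨x, y, z, h, h'⟩ |
      ⟨x, y, h, h'⟩)
    · exact absurd (pair_inj S h).1 h03.symm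
    · exact absurd (pair_inj S h).1 h13.symm
    · exact absurd (pair_inj S h).1 h23.symm
    · obtain ⟨_, h2⟩ := pair_inj S h
      obtain ⟨rfl, h3⟩ := pair_inj S h2
      obtain ⟨rfl, rfl⟩ := pair_inj S h3
      obtain ⟨x, y, h4, h5, h6⟩ := h'
      rw [h4, h5, h6]
    · exact absurd (pair_inj S h).1 h34
    · exact absurd (pair_inj S h).1 h35
  · intro h
    exact Or.inr (Or.inr (Or.inr (Or.inl ⟨_, _, _, rfl, _, _, rfl, rfl, h.symm⟩)))

theorem JP4 (S : Set (Set M)) [RCA0 M S] (Q : M → Prop) (i j k u b : M) : JP Q (pair 4 (pair i (pair j k))) u b ↔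
    bet u b i * bet u b j = bet u b k := by
  obtain ⟨h01, h02, h03, h04, h05, h12, h13, h14, h15, h23, h24, h25, h34, h35, h45⟩ :=
    num_ne (M := M)
  constructor
  · rintro (⟨x, y, h, h'⟩ | ⟨x, y, h, h'⟩ | ⟨x, h, h'⟩ | ⟨x, y, z, h, h'⟩ | ⟨x, y, z, h, h'⟩ |
      ⟨x, y, h, h'⟩)
    · exact absurd (pair_inj S h).1 h04.symm
    · exact absurd (pair_inj S h).1 h14.symm
    · exact absurd (pair_inj S h).1 h24.symm
    · exact absurd (pair_inj S h).1 h34.symm
    · obtain ⟨_, h2⟩ := pair_inj S h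
      obtain ⟨rfl, h3⟩ := pair_inj S h2
      obtain ⟨rfl, rfl⟩ := pair_inj S h3
      obtain ⟨x, y, h4, h5, h6⟩ := h'
      rw [h4, h5, h6]
    · exact absurd (pair_inj S h).1 h45
  · intro h
    exact Or.inr (Or.inr (Or.inr (Or.inr (Or.inl ⟨_, _, _, rfl, _, _, rfl, rfl, h.symm⟩))))

theorem JP5 (S : Set (Set M)) [RCA0 M S] (Q : M → Prop) (i p u b : M) : JP Q (pair 5 (pair i p)) u b ↔ bet u b i = p := by
  obtain ⟨h01, h02, h03, h04, h05, h12, h13, h14, h15, h23, h24, h25, h34, h35, h45⟩ :=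
    num_ne (M := M)
  constructor
  · rintro (⟨x, y, h, h'⟩ | ⟨x, y, h, h'⟩ | ⟨x, h, h'⟩ | ⟨x, y, z, h, h'⟩ | ⟨x, y, z, h, h'⟩ |
      ⟨x, y, h, h'⟩)
    · exact absurd (pair_inj S h).1 h05.symm
    · exact absurd (pair_inj S h).1 h15.symm
    · exact absurd (pair_inj S h).1 h25.symm
    · exact absurd (pair_inj S h).1 h35.symm
    · exact absurd (pair_inj S h).1 h45.symm
    · obtain ⟨_, h2⟩ := pair_inj S h
      obtain ⟨rfl, rfl⟩ := pair_inj S h2
      exact h'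
  · intro h
    exact Or.inr (Or.inr (Or.inr (Or.inr (Or.inr ⟨_, _, rfl, h⟩))))

theorem lev_lift (S : Set (Set M)) [RCA0 M S] {n m : ℕ} (hnm : n ≤ m) {P : M → M → Prop} {c : M}
    (h : ∀ u b, trip c u b ∈ Lev n ↔ P u b) : ∃ c', ∀ u b, trip c' u b ∈ Lev m ↔ P u b := by
  induction m, hnm using Nat.le_induction with
  | base => exact ⟨c, h⟩
  | succ m hm ih =>
    obtain ⟨c', hc'⟩ := ih
    refine ⟨pair 2 c', fun u b => ?_⟩
    show trip (pair 2 c') u b ∈ Jset (Lev m) ↔ P u b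
    rw [mem_Jset S, JP2 S]
    exact hc' u b

/-- every formula is represented at some standard level -/
theorem exists_lev (S : Set (Set M)) [RCA0 M S] (φ : Rf M) : ∃ (n : ℕ) (c : M), ∀ u b, trip c u b ∈ Lev n ↔
    φ.Holds (asg u b) := by
  induction φ with
  | add i j k =>
    refine ⟨1, pair 3 (pair i (pair j k)), fun u b => ?_⟩
    show _ ∈ Jset _ ↔ _
    rw [mem_Jset S, JP3 S]
    rfl
  | mul i j k =>
    refine ⟨1, pair 4 (pair i (pair j k)), fun u b => ?_⟩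
    show _ ∈ Jset _ ↔ _
    rw [mem_Jset S, JP4 S]
    rfl
  | par i p =>
    refine ⟨1, pair 5 (pair i p), fun u b => ?_⟩
    show _ ∈ Jset _ ↔ _
    rw [mem_Jset S, JP5 S]
    rfl
  | nand φ ψ ih ih' =>
    obtain ⟨n, c, hc⟩ := ih
    obtain ⟨n', c', hc'⟩ := ih'
    obtain ⟨d, hd⟩ := lev_lift S (le_max_left n n') hc
    obtain ⟨d', hd'⟩ := lev_lift S (le_max_right n n') hc'
    refine ⟨max n n' + 1, pair 0 (pair d d'), fun u b => ?_⟩
    show _ ∈ Jset _ ↔ _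
    rw [mem_Jset S, JP0 S]
    simp only [hd, hd', Rf.Holds]
  | ex φ ih =>
    obtain ⟨n, c, hc⟩ := ih
    refine ⟨n + 1, pair 1 (pair (φ.bound : M) c), fun u b => ?_⟩
    show _ ∈ Jset _ ↔ _
    rw [mem_Jset S, JP1 S]
    simp only [hc, Rf.Holds]
    have key : ∀ u' b', (∀ j, j < (φ.bound : M) → bet u' b' (j + 1) = bet u b j) →
        (φ.Holds (asg u' b') ↔ φ.Holds (cons (bet u' b' 0) (asg u b))) := by
      intro u' b' h
      refine φ.holds_congr (fun i hi => ?_)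
      cases i with
      | zero => simp [asg, cons]
      | succ i =>
        have h1 : ((i : ℕ) : M) < (φ.bound : M) := by
          have : i < φ.bound := by omega
          exact_mod_cast this
        have h2 := h i h1
        simp only [asg, cons]
        push_cast
        exact h2
    constructor
    · rintro ⟨u', b', h, h'⟩
      exact ⟨_, (key u' b' h).1 h'⟩
    · rintro ⟨x, hx⟩
      obtain ⟨u', b', h0, h⟩ := exists_cons S x u b (φ.bound : M)
      refine ⟨u', b', h, (key u' b' h).2 ?_⟩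
      rw [h0]
      exact hx

end

end

end Pool.Agent.RM
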